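import Pool.Agent.ALV.St

/-!
# ALV, Blk: splitting off an invertible block (helper35)
-/

set_option autoImplicit false

noncomputable section

namespace Pool.Agent.ALV

open Matrix

theorem thm_Blk : St_Blk := by
  intro O _ κ τ _ _ _ P A hP hA
  set Q : Ideal (MvPolynomial (κ ⊕ τ) O) := Pr (Matrix.fromBlocks P 0 0 A) with hQ
  let ψ : MvPolynomial (κ ⊕ τ) O →ₐ[O] MvPolynomial τ O :=
    MvPolynomial.aeval (Sum.elim (fun _ => 0) MvPolynomial.X)
  let ε : MvPolynomial τ O →ₐ[O] MvPolynomial (κ ⊕ τ) O := MvPolynomial.rename Sum.inr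
  have hψl : ∀ j : κ, ψ (MvPolynomial.X (Sum.inl j)) = 0 := by
    intro j
    simp [ψ]
  have hψr : ∀ j : τ, ψ (MvPolynomial.X (Sum.inr j)) = MvPolynomial.X j := by
    intro j
    simp [ψ]
  have hψC : ∀ a : O, ψ (MvPolynomial.C a) = MvPolynomial.C a := by
    intro a
    simp only [ψ, MvPolynomial.aeval_C, MvPolynomial.algebraMap_eq]
  -- the rows
  have hrl : ∀ i : κ, (∑ j : κ, MvPolynomial.C (P i j) * MvPolynomial.X (Sum.inl j) :
      MvPolynomial (κ ⊕ τ) O) ∈ Q := by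
    intro i
    have h1 : (∑ j : κ ⊕ τ, MvPolynomial.C ((Matrix.fromBlocks P 0 0 A) (Sum.inl i) j) *
        MvPolynomial.X j : MvPolynomial (κ ⊕ τ) O) ∈ Q := Ideal.subset_span ⟨Sum.inl i, rfl⟩
    simpa [Fintype.sum_sum_type] using h1
  have hrr : ∀ i : τ, (∑ j : τ, MvPolynomial.C (A i j) * MvPolynomial.X (Sum.inr j) :
      MvPolynomial (κ ⊕ τ) O) ∈ Q := by
    intro i
    have h1 : (∑ j : κ ⊕ τ, MvPolynomial.C ((Matrix.fromBlocks P 0 0 A) (Sum.inr i) j) *
        MvPolynomial.X j : MvPolynomial (κ ⊕ τ) O) ∈ Q := Ideal.subset_span ⟨Sum.inr i, rfl⟩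
    simpa [Fintype.sum_sum_type] using h1
  have hX : ∀ j : κ, (MvPolynomial.X (Sum.inl j) : MvPolynomial (κ ⊕ τ) O) ∈ Q := by
    intro j
    have h1 : (∑ i : κ, MvPolynomial.C (P⁻¹ j i) *
        (∑ l : κ, MvPolynomial.C (P i l) * MvPolynomial.X (Sum.inl l)) :
        MvPolynomial (κ ⊕ τ) O) ∈ Q :=
      Ideal.sum_mem _ fun i _ => Ideal.mul_mem_left _ _ (hrl i)
    have h2 : (∑ i : κ, MvPolynomial.C (P⁻¹ j i) *
        (∑ l : κ, MvPolynomial.C (P i l) * MvPolynomial.X (Sum.inl l)) :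
        MvPolynomial (κ ⊕ τ) O) =
        ∑ l : κ, MvPolynomial.C ((P⁻¹ * P) j l) * MvPolynomial.X (Sum.inl l) := by
      simp only [Matrix.mul_apply, map_sum, Finset.sum_mul, Finset.mul_sum, map_mul]
      rw [Finset.sum_comm]
      refine Finset.sum_congr rfl fun i _ => Finset.sum_congr rfl fun j _ => by ring
    rw [h2, Matrix.nonsing_inv_mul P hP] at h1
    simpa [Matrix.one_apply] using h1
  have hε : Pr A ≤ Q.comap ε.toRingHom := by
    unfold Pr
    rw [Ideal.span_le]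
    rintro _ ⟨i, rfl⟩
    show ε (∑ j : τ, MvPolynomial.C (A i j) * MvPolynomial.X j) ∈ Q
    have h1 : ε (∑ j : τ, MvPolynomial.C (A i j) * MvPolynomial.X j) =
        ∑ j : τ, MvPolynomial.C (A i j) * MvPolynomial.X (Sum.inr j) := by
      simp [ε]
    rw [h1]
    exact hrr i
  have e : Q = (Pr A).comap ψ.toRingHom := by
    apply le_antisymm
    · rw [hQ]
      conv_lhs => unfold Pr
      rw [Ideal.span_le]
      rintro _ ⟨i, rfl⟩
      show ψ (∑ j : κ ⊕ τ, MvPolynomial.C ((Matrix.fromBlocks P 0 0 A) i j) *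
        MvPolynomial.X j) ∈ Pr A
      rw [map_sum, Fintype.sum_sum_type]
      simp only [map_mul, hψl, hψr, hψC, mul_zero, Finset.sum_const_zero, zero_add]
      rcases i with i | i
      · simp
      · simp only [Matrix.fromBlocks_apply₂₂]
        exact Ideal.subset_span ⟨i, rfl⟩
    · intro F hF
      have hF' : ψ F ∈ Pr A := hF
      have h1 : ε (ψ F) ∈ Q := hε hF'
      have h2 : ((Ideal.Quotient.mkₐ O Q).comp (ε.comp ψ)) = Ideal.Quotient.mkₐ O Q := by
        apply MvPolynomial.algHom_ext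
        rintro (j | j)
        · rw [AlgHom.comp_apply, AlgHom.comp_apply, hψl, map_zero, map_zero]
          exact (Ideal.Quotient.eq_zero_iff_mem.2 (hX j)).symm
        · rw [AlgHom.comp_apply, AlgHom.comp_apply, hψr]
          simp [ε]
      have h3 : Ideal.Quotient.mk Q (ε (ψ F)) = Ideal.Quotient.mk Q F := DFunLike.congr_fun h2 F
      rw [Ideal.Quotient.eq_zero_iff_mem.2 h1] at h3
      exact Ideal.Quotient.eq_zero_iff_mem.1 h3.symm
  rw [e]
  exact Ideal.comap_isPrime _ _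

end Pool.Agent.ALV
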