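import Pool.Agent.ALV.St

/-!
# ALV, module Bss: adapted bases of a vector space
-/

set_option autoImplicit false

noncomputable section

namespace Pool.Agent.ALV

private theorem bss_sub {V : Type} [AddCommGroup V] [Module ℂ V] [FiniteDimensional ℂ V]
    (W : Submodule ℂ V) : LinearIndependent ℂ (fun j : Fin (Module.finrank ℂ W) =>
      ((Module.finBasis ℂ W j : W) : V)) ∧
    Submodule.span ℂ (Set.range fun j : Fin (Module.finrank ℂ W) =>
      ((Module.finBasis ℂ W j : W) : V)) = W := by
  constructor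
  · exact (Module.finBasis ℂ W).linearIndependent.map' W.subtype (Submodule.ker_subtype W)
  · have h1 : (Set.range fun j : Fin (Module.finrank ℂ W) =>
        ((Module.finBasis ℂ W j : W) : V)) = W.subtype '' Set.range (Module.finBasis ℂ W) := by
      rw [← Set.range_comp]
      rfl
    rw [h1, ← Submodule.map_span, (Module.finBasis ℂ W).span_eq, Submodule.map_top,
      Submodule.range_subtype]

theorem thm_Bss : St_Bss := by
  intro V _ _ _ Z r u hu hli
  set U := Submodule.span ℂ (Set.range u) with hU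
  have hUZ : U ≤ Z := by
    rw [hU, Submodule.span_le]
    rintro _ ⟨i, rfl⟩
    exact hu i
  obtain ⟨C, hC⟩ := Submodule.exists_isCompl U
  obtain ⟨W1, hW1⟩ := Submodule.exists_isCompl Z
  set W2 : Submodule ℂ V := C ⊓ Z with hW2
  have hsum : U ⊔ W2 = Z := by
    rw [hW2, ← sup_inf_assoc_of_le C hUZ, hC.sup_eq_top, top_inf_eq]
  have hdis : Disjoint U W2 := hC.disjoint.mono_right inf_le_left
  obtain ⟨l1, s1⟩ := bss_sub W1
  obtain ⟨l2, s2⟩ := bss_sub W2
  set w1 : Fin (Module.finrank ℂ W1) → V := fun j => ((Module.finBasis ℂ W1 j : W1) : V) with hw1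
  set w2 : Fin (Module.finrank ℂ W2) → V := fun j => ((Module.finBasis ℂ W2 j : W2) : V) with hw2
  have l3 : LinearIndependent ℂ (Sum.elim u w2) := by
    refine hli.sum_type l2 ?_
    rw [s2]
    exact hdis
  have s3 : Submodule.span ℂ (Set.range (Sum.elim u w2)) = Z := by
    rw [Set.Sum.elim_range, Submodule.span_union, s2]
    exact hsum
  have l4 : LinearIndependent ℂ (Sum.elim w1 (Sum.elim u w2)) := by
    refine l1.sum_type l3 ?_
    rw [s1, s3]
    exact hW1.symm.disjoint
  have s4 : ⊤ ≤ Submodule.span ℂ (Set.range (Sum.elim w1 (Sum.elim u w2))) := by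
    rw [Set.Sum.elim_range, Submodule.span_union, s1, s3, hW1.symm.sup_eq_top]
  refine ⟨Fin (Module.finrank ℂ W1), Fin (Module.finrank ℂ W2), inferInstance, inferInstance,
    inferInstance, inferInstance, Module.Basis.mk l4 s4, fun i => ?_, fun j => ?_, ?_⟩
  · rw [Module.Basis.mk_apply]
    rfl
  · rw [Module.Basis.mk_apply, ← s3]
    exact Submodule.subset_span ⟨j, rfl⟩
  · rw [Fintype.card_fin, Submodule.finrank_add_eq_of_isCompl hW1.symm]

end Pool.Agent.ALV
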