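import Pool.Agent.ALV.St

/-!
# ALV Cle: from the local ring to the commuting scheme (helper47)
-/

set_option autoImplicit false

noncomputable section

namespace Pool.Agent.ALV

open Matrix

/-- The isomorphism: `X (inl k)` goes to the constant `X k`, `X (inr k)` to the variable `X k`. -/
private def cle_Psi (ι : Type) : MvPolynomial (ι ⊕ ι) ℂ ≃ₐ[ℂ] MvPolynomial ι (MvPolynomial ι ℂ) :=
  (MvPolynomial.renameEquiv ℂ (Equiv.sumComm ι ι)).trans (MvPolynomial.sumAlgEquiv ℂ ι ι)

private theorem cle_Psi_inl {ι : Type} (k : ι) :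
    cle_Psi ι (MvPolynomial.X (Sum.inl k)) = MvPolynomial.C (MvPolynomial.X k) := by
  unfold cle_Psi
  simp

private theorem cle_Psi_inr {ι : Type} (k : ι) :
    cle_Psi ι (MvPolynomial.X (Sum.inr k)) = MvPolynomial.X k := by
  unfold cle_Psi
  simp

private theorem cle_Psi_C {ι : Type} (c : ℂ) :
    cle_Psi ι (MvPolynomial.C c) = MvPolynomial.C (MvPolynomial.C c) := by
  unfold cle_Psi
  simp

/-- A constant is the image of a polynomial in the first variables. -/
private theorem cle_symm_C {ι : Type} (t : MvPolynomial ι ℂ) :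
    cle_Psi ι (MvPolynomial.rename Sum.inl t) = MvPolynomial.C t := by
  induction t using MvPolynomial.induction_on with
  | C a => rw [MvPolynomial.rename_C, cle_Psi_C]
  | add p q hp hq => rw [map_add, map_add, hp, hq, ← MvPolynomial.C.map_add]
  | mul_X p i hp => rw [map_mul, map_mul, hp, MvPolynomial.rename_X, cle_Psi_inl, ← MvPolynomial.C.map_mul]

/-- Clearing denominators. -/
private theorem cle_loc {ι : Type} [Fintype ι] (z : ι → ℂ) (M : Matrix ι ι (MvPolynomial ι ℂ))
    (F : MvPolynomial ι (MvPolynomial ι ℂ))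
    (hF : MvPolynomial.map (jO z) F ∈ Pr (M.map (jO z))) :
    ∃ t : MvPolynomial ι ℂ, MvPolynomial.eval z t ≠ 0 ∧ MvPolynomial.C t * F ∈ Pr M := by
  let _ : Algebra (MvPolynomial ι (MvPolynomial ι ℂ)) (MvPolynomial ι (Oz z)) :=
    MvPolynomial.algebraMvPolynomial
  have _ : IsLocalization ((mz z).primeCompl.map (MvPolynomial.C (σ := ι)))
      (MvPolynomial ι (Oz z)) := MvPolynomial.isLocalization (mz z).primeCompl (Oz z)
  have halg : ∀ G : MvPolynomial ι (MvPolynomial ι ℂ),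
      algebraMap (MvPolynomial ι (MvPolynomial ι ℂ)) (MvPolynomial ι (Oz z)) G =
        MvPolynomial.map (jO z) G := fun G => rfl
  have h1 : Pr (M.map (jO z)) ≤ Ideal.map (algebraMap (MvPolynomial ι (MvPolynomial ι ℂ))
      (MvPolynomial ι (Oz z))) (Pr M) := by
    unfold Pr
    rw [Ideal.span_le]
    rintro _ ⟨i, rfl⟩
    have h2 : (∑ j : ι, MvPolynomial.C ((M.map (jO z)) i j) * MvPolynomial.X j :
        MvPolynomial ι (Oz z)) = algebraMap (MvPolynomial ι (MvPolynomial ι ℂ))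
          (MvPolynomial ι (Oz z)) (∑ j : ι, MvPolynomial.C (M i j) * MvPolynomial.X j) := by
      rw [halg, map_sum]
      apply Finset.sum_congr rfl
      intro j _
      rw [map_mul, MvPolynomial.map_C, MvPolynomial.map_X, Matrix.map_apply]
    show (∑ j : ι, MvPolynomial.C ((M.map (jO z)) i j) * MvPolynomial.X j :
        MvPolynomial ι (Oz z)) ∈ _
    rw [h2]
    exact Ideal.mem_map_of_mem _ (Ideal.subset_span ⟨i, rfl⟩)
  have h3 := h1 hF
  rw [← halg, IsLocalization.algebraMap_mem_map_algebraMap_iff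
    ((mz z).primeCompl.map (MvPolynomial.C (σ := ι)))] at h3
  obtain ⟨m, hm, hmF⟩ := h3
  obtain ⟨t, ht, rfl⟩ := Submonoid.mem_map.mp hm
  refine ⟨t, ?_, hmF⟩
  intro h0
  exact ht (by
    show t ∈ mz z
    unfold mz
    rw [RingHom.mem_ker]
    exact h0)

private theorem cle_Psi_gen {g : Type} [LieRing g] [LieAlgebra ℂ g] {ι : Type} [Fintype ι]
    (b : Module.Basis ι ℂ g) (k : ι) :
    cle_Psi ι (∑ i : ι, ∑ j : ι, MvPolynomial.C (b.repr ⁅b i, b j⁆ k) *
      MvPolynomial.X (Sum.inl i) * MvPolynomial.X (Sum.inr j)) =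
    ∑ j : ι, MvPolynomial.C (∑ i : ι, MvPolynomial.C (b.repr ⁅b i, b j⁆ k) *
      MvPolynomial.X i) * MvPolynomial.X j := by
  rw [map_sum, Finset.sum_congr rfl (fun i _ => map_sum (cle_Psi ι) _ _), Finset.sum_comm]
  apply Finset.sum_congr rfl
  intro j _
  rw [map_sum, Finset.sum_mul]
  apply Finset.sum_congr rfl
  intro i _
  rw [map_mul, map_mul, cle_Psi_C, cle_Psi_inl, cle_Psi_inr, ← MvPolynomial.C.map_mul]

private theorem cle_sum {ι : Type} [Fintype ι] (c : ι → ℂ) (T : ι → ι → MvPolynomial ι ℂ) :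
    (∑ j : ι, MvPolynomial.C (∑ l : ι, MvPolynomial.C (c l) * T l j) * MvPolynomial.X j :
      MvPolynomial ι (MvPolynomial ι ℂ)) =
    ∑ l : ι, MvPolynomial.C (MvPolynomial.C (c l)) *
      ∑ j : ι, MvPolynomial.C (T l j) * MvPolynomial.X j := by
  have h : ∀ j : ι, (MvPolynomial.C (∑ l : ι, MvPolynomial.C (c l) * T l j) *
      MvPolynomial.X j : MvPolynomial ι (MvPolynomial ι ℂ)) =
      ∑ l : ι, MvPolynomial.C (MvPolynomial.C (c l)) *
        (MvPolynomial.C (T l j) * MvPolynomial.X j) := by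
    intro j
    rw [map_sum, Finset.sum_mul]
    apply Finset.sum_congr rfl
    intro l _
    rw [MvPolynomial.C.map_mul, mul_assoc]
  rw [Finset.sum_congr rfl (fun j _ => h j), Finset.sum_comm]
  apply Finset.sum_congr rfl
  intro l _
  rw [Finset.mul_sum]

/-- The linear forms in terms of the generators. -/
private theorem cle_E {g : Type} [LieRing g] [LieAlgebra ℂ g] {ι : Type} [Fintype ι]
    (κ : LinearMap.BilinForm ℂ g) (b : Module.Basis ι ℂ g) (hκ : Inv κ) (i : ι) :
    (∑ j : ι, MvPolynomial.C (Mx κ b b i j) * MvPolynomial.X j :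
      MvPolynomial ι (MvPolynomial ι ℂ)) =
    ∑ l : ι, MvPolynomial.C (MvPolynomial.C (-κ (b i) (b l))) *
      ∑ j : ι, MvPolynomial.C (∑ i : ι, MvPolynomial.C (b.repr ⁅b i, b j⁆ l) *
        MvPolynomial.X i) * MvPolynomial.X j := by
  have key : ∀ j k : ι, κ ⁅b k, b i⁆ (b j) =
      ∑ l : ι, (-κ (b i) (b l)) * b.repr ⁅b k, b j⁆ l := by
    intro j k
    rw [← lie_skew, map_neg, LinearMap.neg_apply, hκ.2.1]
    conv_lhs => rw [← b.sum_repr ⁅b k, b j⁆]
    rw [map_sum, ← Finset.sum_neg_distrib]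
    apply Finset.sum_congr rfl
    intro l _
    rw [map_smul, smul_eq_mul]
    ring
  have h1 : ∀ j : ι, Mx κ b b i j = ∑ l : ι, MvPolynomial.C (-κ (b i) (b l)) *
      ∑ k : ι, MvPolynomial.C (b.repr ⁅b k, b j⁆ l) * MvPolynomial.X k := by
    intro j
    unfold Mx
    simp_rw [key, Finset.mul_sum]
    rw [Finset.sum_comm]
    apply Finset.sum_congr rfl
    intro k _
    rw [map_sum, Finset.sum_mul]
    apply Finset.sum_congr rfl
    intro l _
    rw [MvPolynomial.C.map_mul, mul_assoc]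
  have h2 : (∑ j : ι, MvPolynomial.C (Mx κ b b i j) * MvPolynomial.X j :
      MvPolynomial ι (MvPolynomial ι ℂ)) = ∑ j : ι, MvPolynomial.C (∑ l : ι,
        MvPolynomial.C (-κ (b i) (b l)) * ∑ k : ι, MvPolynomial.C (b.repr ⁅b k, b j⁆ l) *
          MvPolynomial.X k) * MvPolynomial.X j :=
    Finset.sum_congr rfl (fun j _ => by rw [h1 j])
  rw [h2]
  exact cle_sum (fun l => -κ (b i) (b l)) (fun l j => ∑ k : ι,
    MvPolynomial.C (b.repr ⁅b k, b j⁆ l) * MvPolynomial.X k)

/-- The generators in terms of the linear forms, by an inverse matrix. -/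
private theorem cle_inv {A ι : Type} [CommRing A] [Fintype ι] [DecidableEq ι] (φ : ℂ →+* A)
    (G E : ι → A) (K L : ι → ι → ℂ) (hE : ∀ i, E i = ∑ l : ι, φ (-K i l) * G l)
    (hL : ∀ l l' : ι, ∑ i : ι, L l i * K i l' = if l = l' then 1 else 0) (l : ι) :
    G l = ∑ i : ι, φ (-L l i) * E i := by
  have h2 : ∀ l' : ι, ∑ i : ι, φ (-L l i) * (φ (-K i l') * G l') = if l = l' then G l' else 0 := by
    intro l'
    have h3 : ∀ i : ι, φ (-L l i) * (φ (-K i l') * G l') = φ (L l i * K i l') * G l' := by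
      intro i
      rw [map_mul, map_neg, map_neg]
      ring
    rw [Finset.sum_congr rfl (fun i _ => h3 i), ← Finset.sum_mul, ← map_sum, hL]
    split_ifs with h
    · rw [map_one, one_mul]
    · rw [map_zero, zero_mul]
  have h4 : ∀ i : ι, φ (-L l i) * E i = ∑ l' : ι, φ (-L l i) * (φ (-K i l') * G l') := by
    intro i
    rw [hE i, Finset.mul_sum]
  rw [Finset.sum_congr rfl (fun i _ => h4 i), Finset.sum_comm,
    Finset.sum_congr rfl (fun l' _ => h2 l'), Finset.sum_ite_eq, if_pos (Finset.mem_univ _)]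

theorem thm_Cle (hMxP : St_MxP) : St_Cle := by
  intro g _ _ ι _ _ κ b hκ z y hprime f hf
  obtain ⟨m, hm⟩ := hf
  set M : Matrix ι ι (MvPolynomial ι ℂ) := Mx κ b b with hM
  set G : ι → MvPolynomial ι (MvPolynomial ι ℂ) := fun l => ∑ j : ι, MvPolynomial.C
    (∑ i : ι, MvPolynomial.C (b.repr ⁅b i, b j⁆ l) * MvPolynomial.X i) * MvPolynomial.X j with hG
  set E : ι → MvPolynomial ι (MvPolynomial ι ℂ) := fun i => ∑ j : ι, MvPolynomial.C (M i j) *
    MvPolynomial.X j with hE
  have hEG : ∀ i, E i = ∑ l : ι, MvPolynomial.C (MvPolynomial.C (-κ (b i) (b l))) * G l :=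
    fun i => cle_E κ b hκ i
  have hPsiG : ∀ k, cle_Psi ι (∑ i : ι, ∑ j : ι, MvPolynomial.C (b.repr ⁅b i, b j⁆ k) *
      MvPolynomial.X (Sum.inl i) * MvPolynomial.X (Sum.inr j)) = G k := fun k => cle_Psi_gen b k
  have hEmem : ∀ i, E i ∈ Pr M := fun i => Ideal.subset_span ⟨i, rfl⟩
  -- the generators are in the ideal of the linear forms
  have hdet : ((LinearMap.BilinForm.toMatrix b) κ).det ≠ 0 :=
    (LinearMap.BilinForm.nondegenerate_iff_det_ne_zero b).mp hκ.2.2
  set K := (LinearMap.BilinForm.toMatrix b) κ with hK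
  have hKapp : ∀ i l, K i l = κ (b i) (b l) := by
    intro i l
    rw [hK, LinearMap.BilinForm.toMatrix_apply]
  have hKinv : K⁻¹ * K = 1 := Matrix.nonsing_inv_mul K (isUnit_iff_ne_zero.mpr hdet)
  obtain ⟨L, hL⟩ : ∃ L : ι → ι → ℂ, ∀ l l' : ι, ∑ i : ι, L l i * κ (b i) (b l') =
      if l = l' then 1 else 0 := by
    refine ⟨fun l i => K⁻¹ l i, ?_⟩
    intro l l'
    have h1 := congrFun (congrFun hKinv l) l'
    rw [Matrix.mul_apply, Matrix.one_apply] at h1
    rw [← h1]
    apply Finset.sum_congr rfl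
    intro i _
    rw [hKapp]
  have hGmem : ∀ l, G l ∈ Pr M := by
    intro l
    rw [cle_inv (MvPolynomial.C.comp MvPolynomial.C : ℂ →+* MvPolynomial ι (MvPolynomial ι ℂ))
      G E (fun i l => κ (b i) (b l)) L hEG hL l]
    apply Ideal.sum_mem
    intro i _
    exact Ideal.mul_mem_left _ _ (hEmem i)
  have hle : cI b ≤ Ideal.comap (cle_Psi ι) (Pr M) := by
    unfold cI
    rw [Ideal.span_le]
    rintro _ ⟨k, rfl⟩
    rw [SetLike.mem_coe, Ideal.mem_comap, hPsiG]
    exact hGmem k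
  -- conversely
  have hge : Pr M ≤ Ideal.comap (cle_Psi ι).symm (cI b) := by
    unfold Pr
    rw [Ideal.span_le]
    rintro _ ⟨i, rfl⟩
    rw [SetLike.mem_coe, Ideal.mem_comap]
    show (cle_Psi ι).symm (E i) ∈ cI b
    rw [hEG, map_sum]
    apply Ideal.sum_mem
    intro l _
    rw [map_mul]
    apply Ideal.mul_mem_left
    rw [← hPsiG l, AlgEquiv.symm_apply_apply]
    exact Ideal.subset_span ⟨l, rfl⟩
  -- the local ring
  have h1 : MvPolynomial.map (jO (b.repr z)) (cle_Psi ι f) ∈ Pr (M.map (jO (b.repr z))) := by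
    apply hprime.mem_of_pow_mem m
    rw [← map_pow, ← map_pow]
    have h2 : cle_Psi ι (f ^ m) ∈ Pr M := hle hm
    have h3 : Pr M ≤ Ideal.comap (MvPolynomial.map (jO (b.repr z)))
        (Pr (M.map (jO (b.repr z)))) := by
      conv_lhs => unfold Pr
      rw [Ideal.span_le]
      rintro _ ⟨i, rfl⟩
      rw [SetLike.mem_coe, Ideal.mem_comap, map_sum]
      apply Ideal.subset_span
      refine ⟨i, ?_⟩
      apply Finset.sum_congr rfl
      intro j _
      rw [map_mul, MvPolynomial.map_C, MvPolynomial.map_X, Matrix.map_apply]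
    exact h3 h2
  obtain ⟨t, ht, htf⟩ := cle_loc (b.repr z) M (cle_Psi ι f) h1
  refine ⟨MvPolynomial.rename Sum.inl t, ?_, ?_⟩
  · rw [MvPolynomial.eval_rename]
    have : (co b z y) ∘ Sum.inl = b.repr z := by
      funext k
      rfl
    rw [this]
    exact ht
  · rw [← cle_symm_C, ← map_mul] at htf
    have := hge htf
    rw [Ideal.mem_comap] at this
    rwa [AlgEquiv.symm_apply_apply] at this

end Pool.Agent.ALV
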