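import Pool.Agent.ALV.St

/-!
# ALV, Cng: congruent matrices (helper35)
-/

set_option autoImplicit false

noncomputable section

namespace Pool.Agent.ALV

open Matrix

theorem cng_mem {O ι κ : Type} [CommRing O] [Fintype ι] (M : Matrix ι ι O) (A : Matrix κ ι O)
    (k : κ) : (∑ j : ι, MvPolynomial.C ((A * M) k j) * MvPolynomial.X j : MvPolynomial ι O) ∈
      Pr M := by
  have e : (∑ j : ι, MvPolynomial.C ((A * M) k j) * MvPolynomial.X j : MvPolynomial ι O) =
      ∑ i : ι, MvPolynomial.C (A k i) *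
        (∑ j : ι, MvPolynomial.C (M i j) * MvPolynomial.X j) := by
    simp only [Matrix.mul_apply, map_sum, Finset.sum_mul, Finset.mul_sum, map_mul]
    rw [Finset.sum_comm]
    refine Finset.sum_congr rfl fun i _ => Finset.sum_congr rfl fun j _ => by ring
  rw [e]
  exact Ideal.sum_mem _ fun i _ => Ideal.mul_mem_left _ _ (Ideal.subset_span ⟨i, rfl⟩)

/-- the substitution `y_j ↦ ∑ C_(j j') y_j'` -/
def cng_s {O ι ι' : Type} [CommRing O] [Fintype ι'] (C : Matrix ι ι' O) :
    MvPolynomial ι O →ₐ[O] MvPolynomial ι' O :=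
  MvPolynomial.aeval fun j => ∑ j' : ι', MvPolynomial.C (C j j') * MvPolynomial.X j'

theorem cng_map {O ι ι' κ : Type} [CommRing O] [Fintype ι] [Fintype ι'] (C : Matrix ι ι' O)
    (M : Matrix κ ι O) (i : κ) :
    cng_s C (∑ j : ι, MvPolynomial.C (M i j) * MvPolynomial.X j) =
      ∑ j' : ι', MvPolynomial.C ((M * C) i j') * MvPolynomial.X j' := by
  have e : ∀ j : ι, cng_s C (MvPolynomial.C (M i j) * MvPolynomial.X j) =
      MvPolynomial.C (M i j) * ∑ j' : ι', MvPolynomial.C (C j j') * MvPolynomial.X j' := by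
    intro j
    unfold cng_s
    rw [map_mul, MvPolynomial.aeval_X, MvPolynomial.aeval_C, MvPolynomial.algebraMap_eq]
  rw [map_sum, Finset.sum_congr rfl fun j _ => e j]
  simp only [Matrix.mul_apply, map_sum, Finset.sum_mul, Finset.mul_sum, map_mul]
  rw [Finset.sum_comm]
  refine Finset.sum_congr rfl fun j' _ => Finset.sum_congr rfl fun j _ => by ring

theorem cng_inv {O ι ι' : Type} [CommRing O] [Fintype ι] [Fintype ι'] [DecidableEq ι]
    (C : Matrix ι ι' O) (C' : Matrix ι' ι O) (h : C * C' = 1) (f : MvPolynomial ι O) :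
    cng_s C' (cng_s C f) = f := by
  have e : (cng_s C').comp (cng_s C) = AlgHom.id O (MvPolynomial ι O) := by
    apply MvPolynomial.algHom_ext
    intro j
    have h1 : cng_s C (MvPolynomial.X j : MvPolynomial ι O) =
        ∑ j' : ι', MvPolynomial.C (C j j') * MvPolynomial.X j' := by
      unfold cng_s
      rw [MvPolynomial.aeval_X]
    rw [AlgHom.comp_apply, h1, cng_map, h]
    simp [Matrix.one_apply]
  exact DFunLike.congr_fun e f

theorem thm_Cng : St_Cng := by
  intro O _ ι ι' _ _ _ _ M C C' h1 h2 hp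
  have e : Pr M = (Pr (Cᵀ * M * C)).comap (cng_s C).toRingHom := by
    apply le_antisymm
    · unfold Pr
      rw [Ideal.span_le]
      rintro _ ⟨i, rfl⟩
      show cng_s C (∑ j : ι, MvPolynomial.C (M i j) * MvPolynomial.X j) ∈ Pr (Cᵀ * M * C)
      rw [cng_map]
      have h3 : M * C = C'ᵀ * (Cᵀ * M * C) := by
        rw [← Matrix.mul_assoc, ← Matrix.mul_assoc, ← Matrix.transpose_mul, h1,
          Matrix.transpose_one, Matrix.one_mul]
      rw [h3]
      exact cng_mem _ _ _
    · intro f hf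
      have hf' : cng_s C f ∈ Pr (Cᵀ * M * C) := hf
      rw [← cng_inv C C' h1 f]
      have h3 : Pr (Cᵀ * M * C) ≤ (Pr M).comap (cng_s C').toRingHom := by
        conv_lhs => unfold Pr
        rw [Ideal.span_le]
        rintro _ ⟨i, rfl⟩
        show cng_s C' (∑ j : ι', MvPolynomial.C ((Cᵀ * M * C) i j) * MvPolynomial.X j) ∈ Pr M
        rw [cng_map]
        have h4 : Cᵀ * M * C * C' = Cᵀ * M := by
          rw [Matrix.mul_assoc (Cᵀ * M), h1, Matrix.mul_one]
        rw [h4]
        exact cng_mem _ _ _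
      exact h3 hf'
  rw [e]
  exact Ideal.comap_isPrime _ _

end Pool.Agent.ALV
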