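import Pool.Agent.ALV.St

/-!
# ALV, module DmA: elements with independent linear parts
-/

set_option autoImplicit false

noncomputable section

namespace Pool.Agent.ALV

theorem dma_sub {ι : Type} (z : ι → ℂ) (p : MvPolynomial ι ℂ) :
    p - MvPolynomial.C (MvPolynomial.eval z p) ∈ Ideal.span (Set.range fun k =>
      (MvPolynomial.X k - MvPolynomial.C (z k) : MvPolynomial ι ℂ)) := by
  induction p using MvPolynomial.induction_on with
  | C a => simp
  | add p q hp hq =>
    have h : p + q - MvPolynomial.C (MvPolynomial.eval z (p + q)) =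
        (p - MvPolynomial.C (MvPolynomial.eval z p)) +
          (q - MvPolynomial.C (MvPolynomial.eval z q)) := by
      rw [map_add, map_add]
      ring
    rw [h]
    exact Ideal.add_mem _ hp hq
  | mul_X p k hp =>
    have h : p * MvPolynomial.X k - MvPolynomial.C (MvPolynomial.eval z (p * MvPolynomial.X k)) =
        (p - MvPolynomial.C (MvPolynomial.eval z p)) * MvPolynomial.X k +
          MvPolynomial.C (MvPolynomial.eval z p) *
            (MvPolynomial.X k - MvPolynomial.C (z k)) := by
      rw [map_mul, MvPolynomial.eval_X, map_mul]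
      ring
    rw [h]
    exact Ideal.add_mem _ (Ideal.mul_mem_right _ _ hp)
      (Ideal.mul_mem_left _ _ (Ideal.subset_span ⟨k, rfl⟩))

theorem dma_ker {ι : Type} (z : ι → ℂ) : mz z ≤ Ideal.span (Set.range fun k =>
    (MvPolynomial.X k - MvPolynomial.C (z k) : MvPolynomial ι ℂ)) := by
  intro p hp
  have h1 : MvPolynomial.eval z p = 0 := hp
  have h := dma_sub z p
  rw [h1, map_zero, sub_zero] at h
  exact h

/-- the linear part with the coefficients `v` -/
def dma_L {ι : Type} [Fintype ι] (z : ι → ℂ) (v : ι → ℂ) : Oz z :=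
  jO z (∑ k, MvPolynomial.C (v k) * (MvPolynomial.X k - MvPolynomial.C (z k)))

theorem dma_L_add {ι : Type} [Fintype ι] (z : ι → ℂ) (v w : ι → ℂ) :
    dma_L z (v + w) = dma_L z v + dma_L z w := by
  unfold dma_L
  rw [← map_add, ← Finset.sum_add_distrib]
  congr 1
  refine Finset.sum_congr rfl fun k _ => ?_
  rw [Pi.add_apply, map_add]
  ring

theorem dma_L_smul {ι : Type} [Fintype ι] (z : ι → ℂ) (c : ℂ) (v : ι → ℂ) :
    dma_L z (c • v) = jO z (MvPolynomial.C c) * dma_L z v := by
  unfold dma_L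
  rw [← map_mul, Finset.mul_sum]
  congr 1
  refine Finset.sum_congr rfl fun k _ => ?_
  rw [Pi.smul_apply, smul_eq_mul, map_mul]
  ring

/-- the coefficient vectors of the linear forms in an ideal -/
def dma_S {ι : Type} [Fintype ι] (z : ι → ℂ) (I : Ideal (Oz z)) : Submodule ℂ (ι → ℂ) where
  carrier := {v | dma_L z v ∈ I}
  add_mem' := by
    intro v w hv hw
    show dma_L z (v + w) ∈ I
    rw [dma_L_add]
    exact I.add_mem hv hw
  zero_mem' := by
    show dma_L z 0 ∈ I
    have h : dma_L z 0 = 0 := by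
      have h1 := dma_L_smul z 0 0
      rw [zero_smul, map_zero, map_zero, zero_mul] at h1
      exact h1
    rw [h]
    exact I.zero_mem
  smul_mem' := by
    intro c v hv
    show dma_L z (c • v) ∈ I
    rw [dma_L_smul]
    exact I.mul_mem_left _ hv

theorem dma_mem_S {ι : Type} [Fintype ι] (z : ι → ℂ) (I : Ideal (Oz z)) (v : ι → ℂ) :
    v ∈ dma_S z I ↔ dma_L z v ∈ I := Iff.rfl

theorem dma_L_single {ι : Type} [Fintype ι] [DecidableEq ι] (z : ι → ℂ) (k : ι) :
    dma_L z (Pi.single k 1) = jO z (MvPolynomial.X k - MvPolynomial.C (z k)) := by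
  unfold dma_L
  congr 1
  rw [Finset.sum_eq_single k]
  · rw [Pi.single_eq_same, map_one, one_mul]
  · intro j _ hj
    rw [Pi.single_eq_of_ne hj, map_zero, zero_mul]
  · intro h
    exact absurd (Finset.mem_univ k) h

theorem dma_map {ι : Type} (z : ι → ℂ) :
    (mz z).map (jO z) = IsLocalRing.maximalIdeal (Oz z) :=
  Localization.AtPrime.map_eq_maximalIdeal

theorem dma_L_mem {ι : Type} [Fintype ι] (z v : ι → ℂ) :
    dma_L z v ∈ IsLocalRing.maximalIdeal (Oz z) := by
  rw [← dma_map]
  unfold dma_L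
  refine Ideal.mem_map_of_mem _ ?_
  show MvPolynomial.eval z _ = 0
  rw [map_sum]
  refine Finset.sum_eq_zero fun k _ => ?_
  simp

theorem dma_le {ι : Type} [Fintype ι] (z : ι → ℂ) (I : Ideal (Oz z)) (h : dma_S z I = ⊤) :
    IsLocalRing.maximalIdeal (Oz z) ≤ I := by
  classical
  rw [← dma_map]
  refine (Ideal.map_mono (dma_ker z)).trans ?_
  rw [Ideal.map_span, Ideal.span_le]
  rintro _ ⟨_, ⟨k, rfl⟩, rfl⟩
  show jO z (MvPolynomial.X k - MvPolynomial.C (z k)) ∈ I
  rw [← dma_L_single, ← dma_mem_S, h]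
  exact Submodule.mem_top

theorem dma_dim {A : Type} [CommRing A] [IsNoetherianRing A] [IsLocalRing A] (I : Ideal A)
    (s : Finset A) (n : ℕ) (hs : s.card ≤ n) (h : IsLocalRing.maximalIdeal A ≤ I ⊔ Ideal.span s)
    (hI : I ≤ IsLocalRing.maximalIdeal A) (hsm : ∀ x ∈ s, x ∈ IsLocalRing.maximalIdeal A) :
    ringKrullDim (A ⧸ I) ≤ ((n : ℕ) : WithBot ℕ∞) := by
  classical
  have hI1 : I ≠ ⊤ := by
    intro e
    rw [e] at hI
    exact (IsLocalRing.maximalIdeal.isMaximal A).ne_top (top_le_iff.1 hI)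
  have _ : Nontrivial (A ⧸ I) := Ideal.Quotient.nontrivial_iff.2 hI1
  have h0 : ∀ m : Ideal (A ⧸ I), m.IsMaximal → m.height ≤ ((n : ℕ) : ℕ∞) := by
    intro m hm
    have hcm : (m.comap (Ideal.Quotient.mk I)).IsMaximal :=
      Ideal.comap_isMaximal_of_surjective _ Ideal.Quotient.mk_surjective
    have hcm' := IsLocalRing.eq_maximalIdeal hcm
    have hmm : m = Ideal.span ((s.image (Ideal.Quotient.mk I) : Finset (A ⧸ I)) : Set (A ⧸ I)) := by
      apply le_antisymm
      · rw [← Ideal.map_comap_of_surjective _ Ideal.Quotient.mk_surjective m, hcm']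
        refine (Ideal.map_mono h).trans ?_
        rw [Ideal.map_sup, Ideal.map_quotient_self, bot_sup_eq, Ideal.map_span, Finset.coe_image]
      · rw [Ideal.span_le]
        intro x hx
        rw [Finset.mem_coe, Finset.mem_image] at hx
        obtain ⟨y, hy, rfl⟩ := hx
        have hy' : y ∈ m.comap (Ideal.Quotient.mk I) := by
          rw [hcm']
          exact hsm y hy
        exact hy'
    have h1 := Ideal.height_le_spanFinrank m hm.ne_top
    refine h1.trans ?_
    rw [hmm]
    have h2 := Submodule.spanFinrank_span_le_encard (R := A ⧸ I)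
      ((s.image (Ideal.Quotient.mk I) : Finset (A ⧸ I)) : Set (A ⧸ I))
    refine h2.trans ?_
    rw [Set.encard_coe_eq_coe_finsetCard]
    exact_mod_cast Finset.card_image_le.trans hs
  rw [ringKrullDim_le_iff_isMaximal_height_le]
  intro m hm
  exact_mod_cast h0 m hm

theorem thm_DmA : St_DmA := by
  intro ι _ z a w hw ha
  classical
  have ham : ∀ t, a t ∈ IsLocalRing.maximalIdeal (Oz z) := by
    intro t
    have h1 := Ideal.pow_le_self (two_ne_zero) (ha t)
    have h2 := dma_L_mem z (w t)
    have h3 := Ideal.add_mem _ h1 h2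
    have e : a t = (a t - jO z (∑ k, MvPolynomial.C (w t k) *
        (MvPolynomial.X k - MvPolynomial.C (z k)))) + dma_L z (w t) := by
      unfold dma_L
      ring
    rw [e]
    exact h3
  refine ⟨ham, ?_⟩
  obtain ⟨W', hW'⟩ := Submodule.exists_isCompl (Submodule.span ℂ (Set.range w))
  have hf1 : Module.finrank ℂ (Submodule.span ℂ (Set.range w)) = 3 := by
    rw [finrank_span_eq_card hw, Fintype.card_fin]
  have hf2 : Module.finrank ℂ (Submodule.span ℂ (Set.range w)) + Module.finrank ℂ W' =
      Fintype.card ι := by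
    rw [Submodule.finrank_add_eq_of_isCompl hW', Module.finrank_fintype_fun_eq_card]
  obtain ⟨bW, -⟩ : ∃ b : Module.Basis (Fin (Module.finrank ℂ W')) ℂ W', True :=
    ⟨Module.finBasis ℂ W', trivial⟩
  obtain ⟨I, hI⟩ : ∃ I : Ideal (Oz z), I = Ideal.span {a 0, a 1, a 2} := ⟨_, rfl⟩
  obtain ⟨s, hs⟩ : ∃ s : Finset (Oz z),
      s = Finset.univ.image fun i => dma_L z (bW i : ι → ℂ) := ⟨_, rfl⟩
  have hsc : s.card ≤ Module.finrank ℂ W' := by
    rw [hs]
    refine Finset.card_image_le.trans ?_
    rw [Finset.card_univ, Fintype.card_fin]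
  have hII : ∀ t, a t ∈ I := by
    intro t
    rw [hI]
    refine Ideal.subset_span ?_
    fin_cases t <;> simp
  have hIm : I ≤ IsLocalRing.maximalIdeal (Oz z) := by
    rw [hI, Ideal.span_le]
    rintro x hx
    simp only [Set.mem_insert_iff, Set.mem_singleton_iff] at hx
    rcases hx with rfl | rfl | rfl
    · exact ham 0
    · exact ham 1
    · exact ham 2
  have hsm : ∀ x ∈ s, x ∈ IsLocalRing.maximalIdeal (Oz z) := by
    intro x hx
    rw [hs, Finset.mem_image] at hx
    obtain ⟨i, -, rfl⟩ := hx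
    exact dma_L_mem _ _
  have hsup : IsLocalRing.maximalIdeal (Oz z) ≤
      (I ⊔ Ideal.span (s : Set (Oz z))) ⊔ IsLocalRing.maximalIdeal (Oz z) ^ 2 := by
    refine dma_le z _ ?_
    rw [eq_top_iff, ← hW'.sup_eq_top]
    refine sup_le ?_ ?_
    · rw [Submodule.span_le]
      rintro _ ⟨t, rfl⟩
      rw [SetLike.mem_coe, dma_mem_S]
      have e : dma_L z (w t) = a t - (a t - jO z (∑ k, MvPolynomial.C (w t k) *
          (MvPolynomial.X k - MvPolynomial.C (z k)))) := by
        unfold dma_L
        ring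
      rw [e]
      exact Ideal.sub_mem _ (Ideal.mem_sup_left (Ideal.mem_sup_left (hII t)))
        (Ideal.mem_sup_right (ha t))
    · intro v hv
      have hv' : (⟨v, hv⟩ : W') ∈ Submodule.span ℂ (Set.range bW) := by
        rw [bW.span_eq]
        exact Submodule.mem_top
      have h5 : v ∈ Submodule.span ℂ (W'.subtype '' Set.range bW) := by
        rw [Submodule.span_image]
        exact ⟨⟨v, hv⟩, hv', rfl⟩
      refine (Submodule.span_le.2 ?_) h5
      rintro _ ⟨_, ⟨i, rfl⟩, rfl⟩
      rw [SetLike.mem_coe, Submodule.coe_subtype, dma_mem_S]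
      refine Ideal.mem_sup_left (Ideal.mem_sup_right (Ideal.subset_span ?_))
      rw [Finset.mem_coe, hs]
      exact Finset.mem_image.2 ⟨i, Finset.mem_univ _, rfl⟩
  have hnak : IsLocalRing.maximalIdeal (Oz z) ≤ I ⊔ Ideal.span (s : Set (Oz z)) := by
    have _ : IsNoetherianRing (Oz z) := IsLocalization.isNoetherianRing (mz z).primeCompl _
      inferInstance
    refine Submodule.le_of_le_smul_of_le_jacobson_bot (I := IsLocalRing.maximalIdeal (Oz z))
      ((isNoetherianRing_iff_ideal_fg _).1 inferInstance _)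
      (IsLocalRing.maximalIdeal_le_jacobson _) ?_
    rw [smul_eq_mul, ← pow_two]
    exact hsup
  have _ : IsNoetherianRing (Oz z) := IsLocalization.isNoetherianRing (mz z).primeCompl _
    inferInstance
  have hdim := dma_dim I s (Module.finrank ℂ W') hsc hnak hIm hsm
  rw [← hI]
  have hcard : Fintype.card ι = Module.finrank ℂ W' + 3 := by
    rw [← hf2, hf1, add_comm]
  rw [hcard, Nat.cast_add]
  gcongr

end Pool.Agent.ALV
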