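import Pool.Agent.ALV.St

/-!
# ALV, module DmB: an isolated point in a subspace of dimension three
-/

set_option autoImplicit false

noncomputable section

namespace Pool.Agent.ALV

/-- linear equations of a subspace -/
theorem dmb_lin (ι : Type) [Fintype ι] (E : Submodule ℂ (ι → ℂ)) (hE : Module.finrank ℂ E = 3) :
    ∃ (n : ℕ) (φ : (ι → ℂ) →ₗ[ℂ] (Fin n → ℂ)), n + 3 = Fintype.card ι ∧
      ∀ x, φ x = 0 → x ∈ E := by
  have h1 := Submodule.finrank_quotient_add_finrank E
  rw [hE, Module.finrank_fintype_fun_eq_card] at h1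
  have h2 : Module.finrank ℂ ((ι → ℂ) ⧸ E) =
      Module.finrank ℂ (Fin (Module.finrank ℂ ((ι → ℂ) ⧸ E)) → ℂ) := by
    rw [Module.finrank_fintype_fun_eq_card, Fintype.card_fin]
  refine ⟨Module.finrank ℂ ((ι → ℂ) ⧸ E),
    (LinearEquiv.ofFinrankEq _ _ h2).toLinearMap ∘ₗ E.mkQ, h1, fun x hx => ?_⟩
  have h3 : (LinearEquiv.ofFinrankEq _ _ h2) (E.mkQ x) = 0 := hx
  rw [LinearEquiv.map_eq_zero_iff] at h3
  exact (Submodule.Quotient.mk_eq_zero E).1 h3

/-- a prime which contains the `X_k - z_k` is everything below the point -/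
theorem dmb_mz {ι : Type} (z : ι → ℂ) (q : Ideal (MvPolynomial ι ℂ))
    (h : ∀ k, MvPolynomial.X k - MvPolynomial.C (z k) ∈ q) : mz z ≤ q := by
  have h1 : Ideal.Quotient.mk q = ((Ideal.Quotient.mk q).comp MvPolynomial.C).comp
      (MvPolynomial.eval z) := by
    refine MvPolynomial.ringHom_ext (fun r => ?_) fun k => ?_
    · simp
    · have h2 := Ideal.Quotient.eq_zero_iff_mem.2 (h k)
      rw [map_sub, sub_eq_zero] at h2
      rw [h2]
      simp
  intro p hp
  rw [← Ideal.Quotient.eq_zero_iff_mem, h1]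
  have h2 : MvPolynomial.eval z p = 0 := hp
  show Ideal.Quotient.mk q (MvPolynomial.C (MvPolynomial.eval z p)) = 0
  rw [h2, map_zero, map_zero]

/-- dimension drops at most by the number of equations -/
theorem dmb_dim (A : Type) [CommRing A] [IsLocalRing A] [IsNoetherianRing A] (S : Finset A)
    (hS : ∀ x ∈ S, ¬ IsUnit x) :
    ringKrullDim A ≤ ringKrullDim (A ⧸ Ideal.span (S : Set A)) + S.card := by
  refine ringKrullDim_le_ringKrullDim_quotient_add_card S fun x hx => ?_
  rw [IsLocalRing.ringJacobson_eq_maximalIdeal]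
  exact hS x (Finset.mem_coe.1 hx)

theorem dmb_main (ι : Type) [Fintype ι] (z : ι → ℂ) (E : Submodule ℂ (ι → ℂ))
    (h : MvPolynomial ι ℂ) (hE : Module.finrank ℂ E = 3) (hh : MvPolynomial.eval z h ≠ 0)
    (I : Ideal (Oz z))
    (hiso : ∀ q : Ideal (MvPolynomial ι ℂ), q.IsPrime → q ≤ mz z →
      (∀ r : MvPolynomial ι ℂ, jO z r ∈ I → r ∈ q) →
      ∀ s ∈ E, (∀ r ∈ q, MvPolynomial.eval (z + s) r = 0) →
        MvPolynomial.eval (z + s) h ≠ 0 → s = 0)
    (A : Type) [CommRing A] [Nontrivial A] (g : Oz z →+* A) (hg : Function.Surjective g)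
    (hgI : ∀ r ∈ I, g r = 0) : ringKrullDim A + ((3 : ℕ) : WithBot ℕ∞) ≤ (Fintype.card ι : ℕ) := by
  classical
  obtain ⟨n, φ, hn, hφ⟩ := dmb_lin ι E hE
  have hloc : IsLocalRing A := IsLocalRing.of_surjective' g hg
  have hnoe0 : IsNoetherianRing (Oz z) :=
    IsLocalization.isNoetherianRing (mz z).primeCompl _ inferInstance
  have hnoe : IsNoetherianRing A := isNoetherianRing_of_surjective _ _ g hg
  -- the equations
  obtain ⟨pl, hpl⟩ : ∃ pl : Fin n → MvPolynomial ι ℂ, ∀ t x, MvPolynomial.eval x (pl t) =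
      φ (x - z) t := by
    refine ⟨fun t => ∑ k, MvPolynomial.C (φ (fun l => if k = l then 1 else 0) t) *
      (MvPolynomial.X k - MvPolynomial.C (z k)), fun t x => ?_⟩
    rw [LinearMap.pi_apply_eq_sum_univ φ (x - z), map_sum, Finset.sum_apply]
    refine Finset.sum_congr rfl fun k _ => ?_
    simp [mul_comm]
  obtain ⟨S, hS⟩ : ∃ S : Finset A, S = Finset.univ.image fun t => g (jO z (pl t)) := ⟨_, rfl⟩
  have hSc : S.card ≤ n := by
    rw [hS]
    exact Finset.card_image_le.trans (by simp)
  have hker : RingHom.ker g ≤ IsLocalRing.maximalIdeal (Oz z) :=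
    IsLocalRing.le_maximalIdeal (RingHom.ker_ne_top g)
  have hSm : ∀ x ∈ S, ¬ IsUnit x := by
    intro x hx
    rw [hS] at hx
    obtain ⟨t, _, rfl⟩ := Finset.mem_image.1 hx
    have h1 : pl t ∈ mz z := by
      show MvPolynomial.eval z (pl t) = 0
      rw [hpl, sub_self, map_zero]
      rfl
    have h2 : jO z (pl t) ∈ IsLocalRing.maximalIdeal (Oz z) :=
      (IsLocalization.AtPrime.to_map_mem_maximal_iff (Oz z) (mz z) (pl t)).2 h1
    intro hu
    obtain ⟨y, hy⟩ := hu.exists_right_inv
    obtain ⟨y', rfl⟩ := hg y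
    have h3 : jO z (pl t) * y' - 1 ∈ RingHom.ker g := by
      rw [RingHom.mem_ker, map_sub, map_mul, hy, map_one, sub_self]
    have h4 : (1 : Oz z) ∈ IsLocalRing.maximalIdeal (Oz z) := by
      have h5 := Ideal.sub_mem _ (Ideal.mul_mem_right y' _ h2) (hker h3)
      rwa [sub_sub_cancel] at h5
    exact (Ideal.ne_top_iff_one _).1 (IsLocalRing.maximalIdeal.isMaximal (Oz z)).ne_top h4
  have hdim := dmb_dim A S hSm
  -- the quotient has dimension zero
  have hzero : Ring.KrullDimLE 0 (A ⧸ Ideal.span (S : Set A)) := by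
    refine Ring.KrullDimLE.mk₀ fun P hP => ?_
    obtain ⟨f, hf⟩ : ∃ f : Oz z →+* A ⧸ Ideal.span (S : Set A),
        f = (Ideal.Quotient.mk (Ideal.span (S : Set A))).comp g := ⟨_, rfl⟩
    have hfs : Function.Surjective f := by
      rw [hf]
      exact Ideal.Quotient.mk_surjective.comp hg
    have hQ : (P.comap f).IsPrime := hP.comap f
    have hq : ((P.comap f).comap (jO z)).IsPrime := hQ.comap (jO z)
    have hIQ : ∀ r ∈ I, f r = 0 := by
      intro r hr
      rw [hf]
      show Ideal.Quotient.mk _ (g r) = 0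
      rw [hgI r hr, map_zero]
    have hplq : ∀ t, pl t ∈ (P.comap f).comap (jO z) := by
      intro t
      show f (jO z (pl t)) ∈ P
      have h1 : f (jO z (pl t)) = 0 := by
        rw [hf]
        show Ideal.Quotient.mk _ (g (jO z (pl t))) = 0
        refine Ideal.Quotient.eq_zero_iff_mem.2 (Ideal.subset_span ?_)
        rw [hS]
        exact Finset.mem_coe.2 (Finset.mem_image.2 ⟨t, Finset.mem_univ _, rfl⟩)
      rw [h1]
      exact P.zero_mem
    have hqle : (P.comap f).comap (jO z) ≤ mz z := by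
      intro r hr
      have h1 : jO z r ∈ IsLocalRing.maximalIdeal (Oz z) :=
        IsLocalRing.le_maximalIdeal hQ.ne_top hr
      exact (IsLocalization.AtPrime.to_map_mem_maximal_iff (Oz z) (mz z) r).1 h1
    have hhq : h ∉ (P.comap f).comap (jO z) := fun h1 => hh (hqle h1)
    have hX : ∀ k, MvPolynomial.X k - MvPolynomial.C (z k) ∈ (P.comap f).comap (jO z) := by
      intro k
      have h1 : h * (MvPolynomial.X k - MvPolynomial.C (z k)) ∈ (P.comap f).comap (jO z) := by
        rw [← MvPolynomial.IsPrime.vanishingIdeal_zeroLocus (K := ℂ) ((P.comap f).comap (jO z))]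
        intro x hx0
        have hx : ∀ p ∈ (P.comap f).comap (jO z), MvPolynomial.eval x p = 0 := hx0
        show MvPolynomial.eval x (h * (MvPolynomial.X k - MvPolynomial.C (z k))) = 0
        have h2 : x - z ∈ E := by
          apply hφ
          funext t
          rw [← hpl]
          exact hx _ (hplq t)
        have e : z + (x - z) = x := by abel
        by_cases h3 : MvPolynomial.eval x h = 0
        · rw [map_mul, h3, zero_mul]
        · have h4 : x - z = 0 := by
            refine hiso _ hq hqle (fun r hr => ?_) (x - z) h2 (fun r hr => ?_) ?_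
            · show f (jO z r) ∈ P
              rw [hIQ _ hr]
              exact P.zero_mem
            · rw [e]
              exact hx r hr
            · rw [e]
              exact h3
          have h5 : x = z := sub_eq_zero.1 h4
          rw [h5]
          simp
      exact (hq.mem_or_mem h1).resolve_left hhq
    have hmzq := dmb_mz z _ hX
    have hQmax : P.comap f = IsLocalRing.maximalIdeal (Oz z) := by
      refine le_antisymm (IsLocalRing.le_maximalIdeal hQ.ne_top) ?_
      rw [← IsLocalization.AtPrime.map_eq_maximalIdeal (mz z) (Oz z), Ideal.map_le_iff_le_comap]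
      exact hmzq
    have hmax : (P.comap f).IsMaximal := by
      rw [hQmax]
      exact IsLocalRing.maximalIdeal.isMaximal _
    rcases Ideal.map_eq_top_or_isMaximal_of_surjective f hfs hmax with h1 | h1
    · rw [Ideal.map_comap_of_surjective f hfs] at h1
      exact absurd h1 hP.ne_top
    · rwa [Ideal.map_comap_of_surjective f hfs] at h1
  have h0 := (Ring.krullDimLE_iff).1 hzero
  have h1 : ringKrullDim A ≤ ((n : ℕ) : WithBot ℕ∞) := by
    refine hdim.trans ?_
    have h2 : ((S.card : ℕ) : WithBot ℕ∞) ≤ ((n : ℕ) : WithBot ℕ∞) := by exact_mod_cast hSc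
    have h3 := add_le_add h0 h2
    simpa using h3
  rw [← hn]
  push_cast
  gcongr

theorem thm_DmB : St_DmB := by
  intro ι _ z a b c E h hE hh ha hb hc hiso
  have hIm : Ideal.span {a, b, c} ≤ IsLocalRing.maximalIdeal (Oz z) := by
    rw [Ideal.span_le]
    rintro x (rfl | rfl | rfl)
    · exact ha
    · exact hb
    · exact hc
  have hnt : Nontrivial (Oz z ⧸ Ideal.span {a, b, c}) := Ideal.Quotient.nontrivial_iff.2 fun h1 =>
    (IsLocalRing.maximalIdeal.isMaximal (Oz z)).ne_top (top_le_iff.1 (h1 ▸ hIm))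
  exact dmb_main ι z E h hE hh (Ideal.span {a, b, c}) hiso (Oz z ⧸ Ideal.span {a, b, c})
    (Ideal.Quotient.mk _) Ideal.Quotient.mk_surjective
    fun r hr => Ideal.Quotient.eq_zero_iff_mem.2 hr

end Pool.Agent.ALV
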