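import Pool.Agent.ALV.St

/-!
# ALV, GLc: linear substitutions
-/

set_option autoImplicit false
set_option linter.unusedVariables false

noncomputable section

namespace Pool.Agent.ALV

open MvPolynomial

/-- The bilinear sum. -/
def glc_S {σ ι : Type} [Fintype ι] (s : ι → ι → ℂ) (f g : ι → MvPolynomial σ ℂ) :
    MvPolynomial σ ℂ := ∑ i, ∑ j, C (s i j) * f i * g j

theorem glc_skew {σ ι : Type} [Fintype ι] (s : ι → ι → ℂ) (hs : ∀ i j, s j i = -s i j)
    (f g : ι → MvPolynomial σ ℂ) : glc_S s f g = -glc_S s g f := by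
  unfold glc_S
  rw [Finset.sum_comm, ← Finset.sum_neg_distrib]
  refine Finset.sum_congr rfl fun j _ => ?_
  rw [← Finset.sum_neg_distrib]
  refine Finset.sum_congr rfl fun i _ => ?_
  rw [hs j i, map_neg]
  ring

theorem glc_zero {σ ι : Type} [Fintype ι] (s : ι → ι → ℂ) (hs : ∀ i j, s j i = -s i j)
    (f : ι → MvPolynomial σ ℂ) : glc_S s f f = 0 := by
  have h1 := glc_skew s hs f f
  have h2 : (2 : MvPolynomial σ ℂ) * glc_S s f f = 0 := by linear_combination h1
  exact (mul_eq_zero.1 h2).resolve_left two_ne_zero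

theorem glc_bil {σ ι : Type} [Fintype ι] (s : ι → ι → ℂ) (hs : ∀ i j, s j i = -s i j)
    (f g : ι → MvPolynomial σ ℂ) (p q c d : ℂ) :
    glc_S s (fun i => C p * f i + C q * g i) (fun i => C c * f i + C d * g i) =
      C (p * d - q * c) * glc_S s f g := by
  have h1 : glc_S s (fun i => C p * f i + C q * g i) (fun i => C c * f i + C d * g i) =
      C (p * c) * glc_S s f f + C (p * d) * glc_S s f g + C (q * c) * glc_S s g f +
        C (q * d) * glc_S s g g := by
    unfold glc_S
    simp only [Finset.mul_sum, ← Finset.sum_add_distrib]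
    refine Finset.sum_congr rfl fun i _ => Finset.sum_congr rfl fun j _ => ?_
    simp only [map_mul]
    ring
  rw [h1, glc_zero s hs f, glc_zero s hs g, glc_skew s hs g f, map_sub]
  ring

/-- The substitution. -/
def glc_a (ι : Type) (p q c d : ℂ) : MvPolynomial (ι ⊕ ι) ℂ →ₐ[ℂ] MvPolynomial (ι ⊕ ι) ℂ :=
  aeval (Sum.elim (fun i => C p * X (Sum.inl i) + C q * X (Sum.inr i))
    (fun i => C c * X (Sum.inl i) + C d * X (Sum.inr i)))

theorem glc_le {g : Type} [LieRing g] [LieAlgebra ℂ g] {ι : Type} [Fintype ι]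
    (b : Module.Basis ι ℂ g) (p q c d : ℂ) : cI b ≤ (cI b).comap (glc_a ι p q c d) := by
  unfold cI
  rw [Ideal.span_le]
  rintro _ ⟨k, rfl⟩
  show glc_a ι p q c d (∑ i : ι, ∑ j : ι, C (b.repr ⁅b i, b j⁆ k) * X (Sum.inl i) * X (Sum.inr j)) ∈
    Ideal.span (Set.range fun k : ι => ∑ i : ι, ∑ j : ι, C (b.repr ⁅b i, b j⁆ k) *
      X (Sum.inl i) * X (Sum.inr j))
  have hs : ∀ i j, b.repr ⁅b j, b i⁆ k = -b.repr ⁅b i, b j⁆ k := by
    intro i j
    rw [← lie_skew, map_neg, Finsupp.neg_apply]
  have h1 := glc_bil (fun i j => b.repr ⁅b i, b j⁆ k) hs (fun i => X (Sum.inl i) : ι → MvPolynomial (ι ⊕ ι) ℂ)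
    (fun i => X (Sum.inr i)) p q c d
  have h2 : glc_a ι p q c d (∑ i : ι, ∑ j : ι, C (b.repr ⁅b i, b j⁆ k) * X (Sum.inl i) *
      X (Sum.inr j)) = C (p * d - q * c) * ∑ i : ι, ∑ j : ι, C (b.repr ⁅b i, b j⁆ k) *
      X (Sum.inl i) * X (Sum.inr j) := by
    refine Eq.trans ?_ h1
    unfold glc_S
    rw [map_sum]
    refine Finset.sum_congr rfl fun i _ => ?_
    rw [map_sum]
    refine Finset.sum_congr rfl fun j _ => ?_
    rw [map_mul, map_mul]
    unfold glc_a
    rw [aeval_C, aeval_X, aeval_X]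
    rfl
  rw [h2]
  exact Ideal.mul_mem_left _ _ (Ideal.subset_span ⟨k, rfl⟩)

theorem thm_GLc (hTrp : St_Trp) : St_GLc := by
  intro g _ _ ι _ b x y p q c d hdet hR
  refine hTrp (ι ⊕ ι) (ι ⊕ ι) (cI b) (cI b) (co b x y) (co b (p • x + q • y) (c • x + d • y))
    (glc_a ι p q c d)
    (glc_a ι (d / (p * d - q * c)) (-q / (p * d - q * c)) (-c / (p * d - q * c))
      (p / (p * d - q * c))) ?_ (glc_le b _ _ _ _) (glc_le b _ _ _ _) ?_ hR
  · intro f
    have h1 : (glc_a ι p q c d).comp (glc_a ι (d / (p * d - q * c)) (-q / (p * d - q * c))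
        (-c / (p * d - q * c)) (p / (p * d - q * c))) = AlgHom.id ℂ _ := by
      apply MvPolynomial.algHom_ext
      intro t
      have e1 : C (d / (p * d - q * c)) * C p + C (-q / (p * d - q * c)) * C c =
          (1 : MvPolynomial (ι ⊕ ι) ℂ) := by
        rw [← map_mul, ← map_mul, ← map_add, ← C_1]
        congr 1
        rw [div_mul_eq_mul_div, div_mul_eq_mul_div, ← add_div, div_eq_one_iff_eq hdet]
        ring
      have e2 : C (d / (p * d - q * c)) * C q + C (-q / (p * d - q * c)) * C d =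
          (0 : MvPolynomial (ι ⊕ ι) ℂ) := by
        rw [← map_mul, ← map_mul, ← map_add, ← C_0]
        congr 1
        field_simp
        ring
      have e3 : C (-c / (p * d - q * c)) * C p + C (p / (p * d - q * c)) * C c =
          (0 : MvPolynomial (ι ⊕ ι) ℂ) := by
        rw [← map_mul, ← map_mul, ← map_add, ← C_0]
        congr 1
        field_simp
        ring
      have e4 : C (-c / (p * d - q * c)) * C q + C (p / (p * d - q * c)) * C d =
          (1 : MvPolynomial (ι ⊕ ι) ℂ) := by
        rw [← map_mul, ← map_mul, ← map_add, ← C_1]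
        congr 1
        rw [div_mul_eq_mul_div, div_mul_eq_mul_div, ← add_div, div_eq_one_iff_eq hdet]
        ring
      rcases t with i | i
      · rw [AlgHom.comp_apply]
        unfold glc_a
        rw [aeval_X, Sum.elim_inl, map_add, map_mul, map_mul, aeval_X, aeval_X, aeval_C, aeval_C,
          Sum.elim_inl, Sum.elim_inr, AlgHom.id_apply]
        show C (d / (p * d - q * c)) * (C p * X (Sum.inl i) + C q * X (Sum.inr i)) +
          C (-q / (p * d - q * c)) * (C c * X (Sum.inl i) + C d * X (Sum.inr i)) = X (Sum.inl i)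
        linear_combination X (Sum.inl i) * e1 + X (Sum.inr i) * e2
      · rw [AlgHom.comp_apply]
        unfold glc_a
        rw [aeval_X, Sum.elim_inr, map_add, map_mul, map_mul, aeval_X, aeval_X, aeval_C, aeval_C,
          Sum.elim_inl, Sum.elim_inr, AlgHom.id_apply]
        show C (-c / (p * d - q * c)) * (C p * X (Sum.inl i) + C q * X (Sum.inr i)) +
          C (p / (p * d - q * c)) * (C c * X (Sum.inl i) + C d * X (Sum.inr i)) = X (Sum.inr i)
        linear_combination X (Sum.inl i) * e3 + X (Sum.inr i) * e4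
    have h2 := DFunLike.congr_fun h1 f
    rw [AlgHom.comp_apply, AlgHom.id_apply] at h2
    rw [h2, sub_self]
    exact Ideal.zero_mem _
  · intro f
    have h1 : (aeval (co b x y) : MvPolynomial (ι ⊕ ι) ℂ →ₐ[ℂ] ℂ).comp (glc_a ι p q c d) =
        aeval (co b (p • x + q • y) (c • x + d • y)) := by
      apply MvPolynomial.algHom_ext
      intro t
      rcases t with i | i
      · rw [AlgHom.comp_apply, aeval_X]
        unfold glc_a
        rw [aeval_X, Sum.elim_inl, map_add, map_mul, map_mul, aeval_X, aeval_X, aeval_C, aeval_C]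
        simp [co]
      · rw [AlgHom.comp_apply, aeval_X]
        unfold glc_a
        rw [aeval_X, Sum.elim_inr, map_add, map_mul, map_mul, aeval_X, aeval_X, aeval_C, aeval_C]
        simp [co]
    have h2 := DFunLike.congr_fun h1 f
    rw [AlgHom.comp_apply] at h2
    simpa [MvPolynomial.aeval_eq_eval] using h2

end Pool.Agent.ALV
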