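import Pool.Agent.ALV.St

/-!
# ALV.Iso: independence of the basis, isomorphisms of Lie algebras (MP_c67a3f_ag)
-/

set_option autoImplicit false

noncomputable section

namespace Pool.Agent.ALV

open Matrix

section

variable {g g' : Type} [LieRing g] [LieAlgebra ℂ g] [LieRing g'] [LieAlgebra ℂ g']
  {ι ι' : Type} [Fintype ι] [Fintype ι']

/-- The generator with the index `k`. -/
private def iso_gen (b : Module.Basis ι ℂ g) (k : ι) : MvPolynomial (ι ⊕ ι) ℂ :=
  ∑ i : ι, ∑ j : ι, MvPolynomial.C (b.repr ⁅b i, b j⁆ k) *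
    MvPolynomial.X (Sum.inl i) * MvPolynomial.X (Sum.inr j)

/-- The substitution given by a homomorphism. -/
private def iso_al (b : Module.Basis ι ℂ g) (b' : Module.Basis ι' ℂ g') (e : g →ₗ⁅ℂ⁆ g') :
    MvPolynomial (ι' ⊕ ι') ℂ →ₐ[ℂ] MvPolynomial (ι ⊕ ι) ℂ :=
  MvPolynomial.aeval (Sum.elim
    (fun k' => ∑ i : ι, MvPolynomial.C (b'.repr (e (b i)) k') * MvPolynomial.X (Sum.inl i))
    (fun k' => ∑ i : ι, MvPolynomial.C (b'.repr (e (b i)) k') * MvPolynomial.X (Sum.inr i)))

private theorem iso_co (b : Module.Basis ι ℂ g) (p : ι ⊕ ι → ℂ) : ∃ x y : g, p = co b x y := by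
  refine ⟨b.equivFun.symm fun i => p (Sum.inl i), b.equivFun.symm fun i => p (Sum.inr i), ?_⟩
  funext s
  rcases s with i | i
  · have := b.equivFun.apply_symm_apply fun i => p (Sum.inl i)
    show p (Sum.inl i) = b.equivFun (b.equivFun.symm fun i => p (Sum.inl i)) i
    rw [this]
  · have := b.equivFun.apply_symm_apply fun i => p (Sum.inr i)
    show p (Sum.inr i) = b.equivFun (b.equivFun.symm fun i => p (Sum.inr i)) i
    rw [this]

private theorem iso_lin (b : Module.Basis ι ℂ g) (b' : Module.Basis ι' ℂ g') (e : g →ₗ⁅ℂ⁆ g') (z : g)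
    (k' : ι') : b'.repr (e z) k' = ∑ i : ι, b'.repr (e (b i)) k' * b.repr z i := by
  conv_lhs => rw [← b.sum_repr z]
  rw [map_sum, map_sum, Finsupp.finsetSum_apply]
  refine Finset.sum_congr rfl fun i _ => ?_
  rw [map_smul, map_smul, Finsupp.smul_apply, smul_eq_mul, mul_comm]

private theorem iso_evg (b : Module.Basis ι ℂ g) (x y : g) (k : ι) :
    MvPolynomial.eval (co b x y) (iso_gen b k) = b.repr ⁅x, y⁆ k := by
  have h : (⁅x, y⁆ : g) = ∑ i : ι, ∑ j : ι, (b.repr x i * b.repr y j) • ⁅b i, b j⁆ := by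
    conv_lhs => rw [← b.sum_repr x, ← b.sum_repr y]
    rw [sum_lie]
    refine Finset.sum_congr rfl fun i _ => ?_
    rw [lie_sum]
    refine Finset.sum_congr rfl fun j _ => ?_
    rw [smul_lie, lie_smul, smul_smul]
  rw [h]
  unfold iso_gen
  simp only [map_sum, map_mul, MvPolynomial.eval_C, MvPolynomial.eval_X, map_smul, Finsupp.finsetSum_apply,
    Finsupp.smul_apply, smul_eq_mul]
  refine Finset.sum_congr rfl fun i _ => Finset.sum_congr rfl fun j _ => ?_
  show b.repr ⁅b i, b j⁆ k * b.repr x i * b.repr y j = b.repr x i * b.repr y j * b.repr ⁅b i, b j⁆ k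
  ring

private theorem iso_eval (b : Module.Basis ι ℂ g) (b' : Module.Basis ι' ℂ g') (e : g →ₗ⁅ℂ⁆ g') (x y : g)
    (f : MvPolynomial (ι' ⊕ ι') ℂ) :
    MvPolynomial.eval (co b x y) (iso_al b b' e f) = MvPolynomial.eval (co b' (e x) (e y)) f := by
  induction f using MvPolynomial.induction_on with
  | C a => simp [iso_al]
  | add p q hp hq => rw [map_add, map_add, map_add, hp, hq]
  | mul_X p n hp =>
    rw [map_mul, map_mul, map_mul, hp]
    congr 1
    rcases n with k' | k'
    · rw [iso_al, MvPolynomial.aeval_X, MvPolynomial.eval_X]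
      show MvPolynomial.eval (co b x y) (∑ i : ι, MvPolynomial.C (b'.repr (e (b i)) k') *
        MvPolynomial.X (Sum.inl i)) = b'.repr (e x) k'
      rw [iso_lin b b' e x k', map_sum]
      refine Finset.sum_congr rfl fun i _ => ?_
      rw [map_mul, MvPolynomial.eval_C, MvPolynomial.eval_X]
      rfl
    · rw [iso_al, MvPolynomial.aeval_X, MvPolynomial.eval_X]
      show MvPolynomial.eval (co b x y) (∑ i : ι, MvPolynomial.C (b'.repr (e (b i)) k') *
        MvPolynomial.X (Sum.inr i)) = b'.repr (e y) k'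
      rw [iso_lin b b' e y k', map_sum]
      refine Finset.sum_congr rfl fun i _ => ?_
      rw [map_mul, MvPolynomial.eval_C, MvPolynomial.eval_X]
      rfl

private theorem iso_ideal (b : Module.Basis ι ℂ g) (b' : Module.Basis ι' ℂ g') (e : g →ₗ⁅ℂ⁆ g') :
    cI b' ≤ (cI b).comap (iso_al b b' e) := by
  unfold cI
  rw [Ideal.span_le]
  rintro _ ⟨k', rfl⟩
  show iso_al b b' e (iso_gen b' k') ∈ Ideal.span (Set.range (iso_gen b))
  have h : iso_al b b' e (iso_gen b' k') =
      ∑ k : ι, MvPolynomial.C (b'.repr (e (b k)) k') * iso_gen b k := by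
    refine MvPolynomial.funext fun p => ?_
    obtain ⟨x, y, rfl⟩ := iso_co b p
    rw [iso_eval, iso_evg, ← LieHom.map_lie, iso_lin b b' e _ k', map_sum]
    refine Finset.sum_congr rfl fun i _ => ?_
    rw [map_mul, MvPolynomial.eval_C, iso_evg]
  rw [h]
  exact Ideal.sum_mem _ fun k _ => Ideal.mul_mem_left _ _ (Ideal.subset_span ⟨k, rfl⟩)

end

theorem thm_Iso (hTrp : St_Trp) : St_Iso := by
  intro g g' _ _ _ _ e ι ι' _ _ b b' x y h
  refine hTrp (ι ⊕ ι) (ι' ⊕ ι') (cI b) (cI b') (co b x y) (co b' (e x) (e y))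
    (iso_al b b' e.toLieHom) (iso_al b' b e.symm.toLieHom) ?_ (iso_ideal b b' e.toLieHom)
    (iso_ideal b' b e.symm.toLieHom) ?_ h
  · intro f
    have h1 : iso_al b b' e.toLieHom (iso_al b' b e.symm.toLieHom f) = f := by
      refine MvPolynomial.funext fun p => ?_
      obtain ⟨u, v, rfl⟩ := iso_co b p
      rw [iso_eval, iso_eval]
      have h2 : ∀ w : g, e.symm.toLieHom (e.toLieHom w) = w := fun w => e.symm_apply_apply w
      rw [h2, h2]
    rw [h1, sub_self]
    exact Ideal.zero_mem _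
  · intro f
    exact iso_eval b b' e.toLieHom x y f

end Pool.Agent.ALV
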