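import Pool.Agent.ALV.St

/-!
# ALV Jac: the adjoint action preserves the ideal of the commuting scheme
-/

set_option autoImplicit false

noncomputable section

namespace Pool.Agent.ALV

open MvPolynomial

theorem jac_left {g : Type} [LieRing g] [LieAlgebra ℂ g] {ι : Type} [Fintype ι]
    (b : Module.Basis ι ℂ g) (x y : g) (k : ι) :
    b.repr ⁅x, y⁆ k = ∑ i : ι, b.repr x i * b.repr ⁅b i, y⁆ k := by
  conv_lhs => rw [← b.sum_repr x]
  rw [sum_lie, map_sum, Finsupp.coe_finsetSum, Finset.sum_apply]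
  refine Finset.sum_congr rfl fun i _ => ?_
  rw [smul_lie, map_smul, Finsupp.smul_apply, smul_eq_mul]

theorem jac_right {g : Type} [LieRing g] [LieAlgebra ℂ g] {ι : Type} [Fintype ι]
    (b : Module.Basis ι ℂ g) (x y : g) (k : ι) :
    b.repr ⁅x, y⁆ k = ∑ i : ι, b.repr y i * b.repr ⁅x, b i⁆ k := by
  conv_lhs => rw [← b.sum_repr y]
  rw [lie_sum, map_sum, Finsupp.coe_finsetSum, Finset.sum_apply]
  refine Finset.sum_congr rfl fun i _ => ?_
  rw [lie_smul, map_smul, Finsupp.smul_apply, smul_eq_mul]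

/-- the generators -/
def jac_F {g : Type} [LieRing g] [LieAlgebra ℂ g] {ι : Type} [Fintype ι]
    (b : Module.Basis ι ℂ g) (k : ι) : MvPolynomial (ι ⊕ ι) ℂ :=
  ∑ i : ι, ∑ j : ι, C (b.repr ⁅b i, b j⁆ k) * X (Sum.inl i) * X (Sum.inr j)

theorem jac_gen {g : Type} [LieRing g] [LieAlgebra ℂ g] {ι : Type} [Fintype ι]
    (b : Module.Basis ι ℂ g) (u : g) (k : ι) :
    adD b u (jac_F b k) = ∑ i : ι, C (b.repr ⁅u, b i⁆ k) * jac_F b i := by
  have h1 : adD b u (jac_F b k) = ∑ i : ι, ∑ j : ι, (C (b.repr ⁅b i, b j⁆ k) *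
      ((∑ l : ι, C (b.repr ⁅u, b l⁆ i) * X (Sum.inl l)) * X (Sum.inr j)) +
      C (b.repr ⁅b i, b j⁆ k) *
      (X (Sum.inl i) * ∑ l : ι, C (b.repr ⁅u, b l⁆ j) * X (Sum.inr l))) := by
    unfold jac_F
    rw [map_sum]
    refine Finset.sum_congr rfl fun i _ => ?_
    rw [map_sum]
    refine Finset.sum_congr rfl fun j _ => ?_
    have e1 : adD b u (X (Sum.inl i)) = ∑ l : ι, C (b.repr ⁅u, b l⁆ i) * X (Sum.inl l) := by
      unfold adD
      rw [mkDerivation_X]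
      rfl
    have e2 : adD b u (X (Sum.inr j)) = ∑ l : ι, C (b.repr ⁅u, b l⁆ j) * X (Sum.inr l) := by
      unfold adD
      rw [mkDerivation_X]
      rfl
    rw [Derivation.leibniz, Derivation.leibniz, e1, e2, MvPolynomial.derivation_C]
    simp only [smul_eq_mul]
    ring
  have h2 : ∀ l m : ι, (∑ i : ι, b.repr ⁅b i, b m⁆ k * b.repr ⁅u, b l⁆ i) +
      (∑ j : ι, b.repr ⁅b l, b j⁆ k * b.repr ⁅u, b m⁆ j)
      = ∑ i : ι, b.repr ⁅u, b i⁆ k * b.repr ⁅b l, b m⁆ i := by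
    intro l m
    have e1 : ∑ i : ι, b.repr ⁅b i, b m⁆ k * b.repr ⁅u, b l⁆ i = b.repr ⁅⁅u, b l⁆, b m⁆ k := by
      rw [jac_left b ⁅u, b l⁆ (b m) k]
      exact Finset.sum_congr rfl fun i _ => mul_comm _ _
    have e2 : ∑ j : ι, b.repr ⁅b l, b j⁆ k * b.repr ⁅u, b m⁆ j = b.repr ⁅b l, ⁅u, b m⁆⁆ k := by
      rw [jac_right b (b l) ⁅u, b m⁆ k]
      exact Finset.sum_congr rfl fun i _ => mul_comm _ _
    have e3 : ∑ i : ι, b.repr ⁅u, b i⁆ k * b.repr ⁅b l, b m⁆ i = b.repr ⁅u, ⁅b l, b m⁆⁆ k := by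
      rw [jac_right b u ⁅b l, b m⁆ k]
      exact Finset.sum_congr rfl fun i _ => mul_comm _ _
    rw [e1, e2, e3, leibniz_lie u (b l) (b m), map_add, Finsupp.add_apply]
  have h3 : ∑ i : ι, C (b.repr ⁅u, b i⁆ k) * jac_F b i
      = ∑ l : ι, ∑ m : ι, C (∑ i : ι, b.repr ⁅u, b i⁆ k * b.repr ⁅b l, b m⁆ i) *
        (X (Sum.inl l) * X (Sum.inr m) : MvPolynomial (ι ⊕ ι) ℂ) := by
    unfold jac_F
    simp only [Finset.mul_sum, map_sum, Finset.sum_mul, map_mul]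
    rw [Finset.sum_comm]
    refine Finset.sum_congr rfl fun l _ => ?_
    rw [Finset.sum_comm]
    refine Finset.sum_congr rfl fun m _ => Finset.sum_congr rfl fun i _ => ?_
    ring
  have h4 : ∑ i : ι, ∑ j : ι, C (b.repr ⁅b i, b j⁆ k) *
      ((∑ l : ι, C (b.repr ⁅u, b l⁆ i) * X (Sum.inl l)) * X (Sum.inr j))
      = ∑ l : ι, ∑ m : ι, C (∑ i : ι, b.repr ⁅b i, b m⁆ k * b.repr ⁅u, b l⁆ i) *
        (X (Sum.inl l) * X (Sum.inr m) : MvPolynomial (ι ⊕ ι) ℂ) := by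
    simp only [Finset.mul_sum, map_sum, Finset.sum_mul, map_mul]
    rw [Finset.sum_comm]
    rw [Finset.sum_comm (s := (Finset.univ : Finset ι)) (t := (Finset.univ : Finset ι))
      (f := fun l m => ∑ i : ι, C (b.repr ⁅b i, b m⁆ k) * C (b.repr ⁅u, b l⁆ i) *
        (X (Sum.inl l) * X (Sum.inr m) : MvPolynomial (ι ⊕ ι) ℂ))]
    refine Finset.sum_congr rfl fun m _ => ?_
    rw [Finset.sum_comm]
    refine Finset.sum_congr rfl fun l _ => Finset.sum_congr rfl fun i _ => ?_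
    ring
  have h5 : ∑ i : ι, ∑ j : ι, C (b.repr ⁅b i, b j⁆ k) *
      (X (Sum.inl i) * ∑ l : ι, C (b.repr ⁅u, b l⁆ j) * X (Sum.inr l))
      = ∑ l : ι, ∑ m : ι, C (∑ j : ι, b.repr ⁅b l, b j⁆ k * b.repr ⁅u, b m⁆ j) *
        (X (Sum.inl l) * X (Sum.inr m) : MvPolynomial (ι ⊕ ι) ℂ) := by
    simp only [Finset.mul_sum, map_sum, Finset.sum_mul, map_mul]
    refine Finset.sum_congr rfl fun l _ => ?_
    rw [Finset.sum_comm]
    refine Finset.sum_congr rfl fun m _ => Finset.sum_congr rfl fun i _ => ?_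
    ring
  rw [h1, h3]
  simp only [Finset.sum_add_distrib]
  rw [h4, h5, ← Finset.sum_add_distrib]
  refine Finset.sum_congr rfl fun l _ => ?_
  rw [← Finset.sum_add_distrib]
  refine Finset.sum_congr rfl fun m _ => ?_
  rw [← add_mul, ← C_add, h2 l m]

theorem thm_Jac : St_Jac := by
  intro g _ _ ι _ b u f hf
  have hmem : ∀ k, jac_F b k ∈ cI b := fun k => Ideal.subset_span ⟨k, rfl⟩
  unfold cI at hf
  refine Submodule.span_induction (p := fun f _ => adD b u f ∈ cI b) ?_ ?_ ?_ ?_ hf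
  · rintro _ ⟨k, rfl⟩
    have h := jac_gen b u k
    unfold jac_F at h
    change adD b u (∑ i : ι, ∑ j : ι, C (b.repr ⁅b i, b j⁆ k) * X (Sum.inl i) * X (Sum.inr j)) ∈ cI b
    rw [h]
    exact Ideal.sum_mem _ fun i _ => Ideal.mul_mem_left _ _ (hmem i)
  · rw [map_zero]
    exact Ideal.zero_mem _
  · intro x y _ _ hx hy
    rw [map_add]
    exact Ideal.add_mem _ hx hy
  · intro a x hx hx'
    rw [smul_eq_mul, Derivation.leibniz, smul_eq_mul, smul_eq_mul]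
    exact Ideal.add_mem _ (Ideal.mul_mem_left _ _ hx') (Ideal.mul_mem_right _ _ hx)

end Pool.Agent.ALV
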