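import Pool.Agent.ALV.St

/-!
# ALV.Krl (helper49): Krull intersection theorem at a point of affine space
-/

set_option autoImplicit false

noncomputable section

namespace Pool.Agent.ALV

theorem thm_Krl : St_Krl := by
  intro σ _ I T p hT f hf
  have hprime : (mz p).IsPrime := mz_prime p
  let A := Localization.AtPrime (mz p)
  let φ : MvPolynomial σ ℂ →+* A := algebraMap _ _
  have hnoeth : IsNoetherianRing A :=
    IsLocalization.isNoetherianRing (mz p).primeCompl A inferInstance
  have hTle : T ≤ mz p := by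
    intro t ht
    exact (RingHom.mem_ker).2 (hT t ht)
  have hTm : T.map φ ≤ IsLocalRing.maximalIdeal A := by
    refine (Ideal.map_mono hTle).trans ?_
    exact le_of_eq (Localization.AtPrime.map_eq_maximalIdeal)
  have hTne : T.map φ ≠ ⊤ := by
    intro h
    rw [h] at hTm
    exact (IsLocalRing.maximalIdeal.isMaximal A).ne_top (top_le_iff.1 hTm)
  have hkr := Ideal.iInf_pow_smul_eq_bot_of_isLocalRing (R := A) (M := A ⧸ I.map φ)
    (T.map φ) hTne
  have hmem : (Ideal.Quotient.mk (I.map φ) (φ f) : A ⧸ I.map φ) ∈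
      (⨅ i : ℕ, (T.map φ) ^ i • (⊤ : Submodule A (A ⧸ I.map φ))) := by
    rw [Submodule.mem_iInf]
    intro n
    obtain ⟨h, hh, hhf⟩ := hf n
    have hu : IsUnit (φ h) := by
      refine IsLocalization.map_units A (⟨h, ?_⟩ : (mz p).primeCompl)
      intro hc
      exact hh (RingHom.mem_ker.1 hc)
    have h1 : φ (h * f) ∈ (I ⊔ T ^ n).map φ := Ideal.mem_map_of_mem φ hhf
    rw [Ideal.map_sup, Ideal.map_pow, map_mul] at h1
    have h2 : φ f ∈ I.map φ ⊔ (T.map φ) ^ n := by
      obtain ⟨u, hu'⟩ := hu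
      have h3 := Ideal.mul_mem_left _ (↑u⁻¹ : A) h1
      rw [← hu', Units.inv_mul_cancel_left] at h3
      exact h3
    obtain ⟨a, ha, t, ht, hat⟩ := Submodule.mem_sup.1 h2
    have h4 : (Ideal.Quotient.mk (I.map φ) (φ f) : A ⧸ I.map φ) =
        t • (Ideal.Quotient.mk (I.map φ) 1 : A ⧸ I.map φ) := by
      rw [← hat, map_add, Ideal.Quotient.eq_zero_iff_mem.2 ha, zero_add]
      show Ideal.Quotient.mk (I.map φ) t = Ideal.Quotient.mk (I.map φ) (t • (1 : A))
      rw [smul_eq_mul, mul_one]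
    rw [h4]
    exact Submodule.smul_mem_smul ht Submodule.mem_top
  rw [hkr, Submodule.mem_bot] at hmem
  have h5 : φ f ∈ I.map φ := Ideal.Quotient.eq_zero_iff_mem.1 hmem
  obtain ⟨m, hm, hmf⟩ := (IsLocalization.algebraMap_mem_map_algebraMap_iff
    (mz p).primeCompl A I f).1 h5
  exact ⟨m, fun hc => hm (RingHom.mem_ker.2 hc), hmf⟩

end Pool.Agent.ALV
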