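import Pool.Agent.ALV.St

/-!
# ALV.Lev: subalgebras of Levi type (helper65)
-/

set_option autoImplicit false

noncomputable section

namespace Pool.Agent.ALV

open Matrix

theorem thm_Lev (hNil : St_Nil) (hJac : St_Jac) (hQtm : St_Qtm) (hIso : St_Iso) : St_Lev := by
  intro g _ _ l m hlm hst x y hinj ι ι' _ _ b b' hR
  have hfd : FiniteDimensional ℂ g := Module.Finite.of_basis b
  let e : l ≃ₗ[ℂ] l.toSubmodule :=
    { toFun := fun u => ⟨u, u.2⟩
      invFun := fun u => ⟨u, u.2⟩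
      map_add' := fun _ _ => rfl
      map_smul' := fun _ _ => rfl
      left_inv := fun _ => rfl
      right_inv := fun _ => rfl }
  let bm := Module.finBasis ℂ m
  let r := Module.finrank ℂ m
  let E := Submodule.prodEquivOfIsCompl l.toSubmodule m hlm
  let b₀ : Module.Basis (ι' ⊕ Fin r) ℂ g := ((b'.map e).prod bm).map E
  have hinl : ∀ i, b₀ (Sum.inl i) = (b' i : g) := by
    intro i
    simp [b₀, E, e]
  have hinr : ∀ j, b₀ (Sum.inr j) = (bm j : g) := by
    intro j
    simp [b₀, E]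
  have hEm : ∀ v : m, E.symm (v : g) = (0, v) := fun v => Submodule.prodEquivOfIsCompl_symm_apply_right _ _ hlm v
  have hEl : ∀ u : l.toSubmodule, E.symm (u : g) = (u, 0) := fun u => Submodule.prodEquivOfIsCompl_symm_apply_left _ _ hlm u
  have hm1 : ∀ (v : m) (i : ι'), b₀.repr (v : g) (Sum.inl i) = 0 := by
    intro v i
    simp [b₀, hEm]
  have hm2 : ∀ (v : m) (j : Fin r), b₀.repr (v : g) (Sum.inr j) = bm.repr v j := by
    intro v j
    simp [b₀, hEm]
  have hl2 : ∀ (u : l) (j : Fin r), b₀.repr (u : g) (Sum.inr j) = 0 := by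
    intro u j
    have h1 := hEl (e u)
    have h2 : ((e u : l.toSubmodule) : g) = (u : g) := rfl
    rw [h2] at h1
    simp [b₀, h1]
  -- the action of `x` on `m`
  let φ : m →ₗ[ℂ] m := (LieAlgebra.ad ℂ g (x : g)).restrict fun v hv => hst x x.2 v hv
  have hφ : ∀ v : m, ((φ v : m) : g) = ⁅(x : g), (v : g)⁆ := fun v => rfl
  have hφi : Function.Injective φ := by
    rw [← LinearMap.ker_eq_bot, LinearMap.ker_eq_bot']
    intro v hv
    have h1 := hφ v
    rw [hv] at h1
    exact Subtype.ext (hinj v v.2 h1.symm)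
  set N : Matrix (Fin r) (Fin r) ℂ := Matrix.of fun i j => b₀.repr ⁅(x : g), b₀ (Sum.inr j)⁆ (Sum.inr i) with hN
  have hNd : N.det ≠ 0 := by
    have h1 : N = LinearMap.toMatrix bm bm (LinearEquiv.ofInjectiveEndo φ hφi : m →ₗ[ℂ] m) := by
      ext i j
      rw [hN, Matrix.of_apply, LinearMap.toMatrix_apply, hinr, ← hφ, hm2]
      rfl
    rw [h1]
    exact (LinearEquiv.isUnit_det (LinearEquiv.ofInjectiveEndo φ hφi) bm bm).ne_zero
  have hQ := hQtm g l ι' (Fin r) b₀ b' hinl (by
    intro u j i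
    rw [hinr]
    exact hm1 ⟨_, hst u u.2 (bm j) (bm j).2⟩ i) x y hNd hR
  have hRd : RdL b₀ (x : g) (y : g) := by
    refine hNil _ (cI b₀) (co b₀ (x : g) (y : g)) r (fun j => MvPolynomial.X (Sum.inl (Sum.inr j)))
      (fun j => adD b₀ (b₀ (Sum.inr j))) (fun j f hf => hJac g _ b₀ _ f hf) ?_ ?_ hQ
    · intro j
      rw [MvPolynomial.eval_X]
      exact hl2 x j
    · have h1 : (Matrix.of fun i j : Fin r => MvPolynomial.eval (co b₀ (x : g) (y : g))
          (adD b₀ (b₀ (Sum.inr i)) (MvPolynomial.X (Sum.inl (Sum.inr j))))) = -Nᵀ := by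
        ext i j
        rw [Matrix.of_apply, Matrix.neg_apply, Matrix.transpose_apply, hN, Matrix.of_apply]
        unfold adD
        rw [MvPolynomial.mkDerivation_X, Sum.elim_inl, map_sum]
        have h2 : ⁅(x : g), b₀ (Sum.inr i)⁆ = -⁅b₀ (Sum.inr i), (x : g)⁆ := (lie_skew _ _).symm
        rw [h2, map_neg, Finsupp.neg_apply, neg_neg]
        have h3 : ⁅b₀ (Sum.inr i), (x : g)⁆ = ∑ k, b₀.repr (x : g) k • ⁅b₀ (Sum.inr i), b₀ k⁆ := by
          conv_lhs => rw [← b₀.sum_repr (x : g)]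
          rw [lie_sum]
          exact Finset.sum_congr rfl fun k _ => lie_smul _ _ _
        rw [h3, map_sum, Finsupp.finsetSum_apply]
        refine Finset.sum_congr rfl fun k _ => ?_
        rw [map_mul, MvPolynomial.eval_C, MvPolynomial.eval_X, map_smul, Finsupp.smul_apply, smul_eq_mul, mul_comm]
        rfl
      rw [h1, Matrix.det_neg, Matrix.det_transpose]
      exact mul_ne_zero (pow_ne_zero _ (neg_ne_zero.2 one_ne_zero)) hNd
  exact hIso g g LieEquiv.refl ι (ι' ⊕ Fin r) b b₀ x y hRd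

end Pool.Agent.ALV
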