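import Pool.Agent.ALV.St

/-!
# ALV, module LfA: linear parts (proved by helper27)
-/

set_option autoImplicit false

noncomputable section

namespace Pool.Agent.ALV

open Matrix

theorem lfa_exp {g : Type} [LieRing g] [LieAlgebra ℂ g] {ι : Type} [Fintype ι]
    (κ : LinearMap.BilinForm ℂ g) (b : Module.Basis ι ℂ g) (x v : g) :
    κ x v = ∑ k : ι, b.repr x k * κ (b k) v := by
  have h : κ.flip v x = κ.flip v (∑ k : ι, b.repr x k • b k) := by rw [b.sum_repr x]
  rw [map_sum] at h
  simp only [map_smul, smul_eq_mul, LinearMap.flip_apply] at h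
  exact h

theorem thm_LfA : St_LfA := by
  intro g _ _ ι _ κ b z hinv
  obtain ⟨hsym, hin, hnd⟩ := hinv
  refine ⟨?_, ?_⟩
  · intro u hu v
    have hzu : ⁅z, u⁆ = 0 := by
      have h : ⁅u, z⁆ = 0 ∨ ⁅z, u⁆ = 0 := Or.inr (by
        have h' := hu
        rw [cen, LinearMap.mem_ker, LieAlgebra.ad_apply] at h'
        exact h')
      rcases h with h | h
      · rw [← lie_skew, h, neg_zero]
      · exact h
    have h1 : ∑ k : ι, κ (b k) ⁅u, v⁆ * b.repr z k = 0 := by
      have h2 : κ z ⁅u, v⁆ = ∑ k : ι, b.repr z k * κ (b k) ⁅u, v⁆ := lfa_exp κ b z _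
      have h3 : κ z ⁅u, v⁆ = 0 := by rw [← hin, hzu]; simp
      rw [h3] at h2
      rw [h2]
      exact Finset.sum_congr rfl (fun k _ => mul_comm _ _)
    have h4 : ∑ k : ι, (MvPolynomial.C (κ (b k) ⁅u, v⁆) * MvPolynomial.C (b.repr z k) :
        MvPolynomial ι ℂ) = 0 := by
      rw [← map_zero (MvPolynomial.C : ℂ →+* MvPolynomial ι ℂ), ← h1, map_sum]
      exact Finset.sum_congr rfl (fun k _ => (map_mul _ _ _).symm)
    simp only [mul_sub, Finset.sum_sub_distrib]
    rw [h4, sub_zero]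
    exact Finset.sum_congr rfl (fun k _ => by rw [hin])
  · intro w hw
    let L : g →ₗ[ℂ] (ι → ℂ) := LinearMap.pi fun k => κ (b k)
    have hL : LinearMap.ker L = ⊥ := by
      rw [LinearMap.ker_eq_bot']
      intro v hv
      refine hnd.1 v ?_
      intro x
      have h0 : ∀ k, κ (b k) v = 0 := fun k => congrFun hv k
      rw [hsym, lfa_exp κ b x v]
      exact Finset.sum_eq_zero (fun k _ => by rw [h0 k, mul_zero])
    exact hw.map' L hL

end Pool.Agent.ALV
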