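import Pool.Agent.ALV.St

/-!
# ALV.MnB (helper49): minors of a product through fewer columns modulo an ideal
-/

set_option autoImplicit false

noncomputable section

namespace Pool.Agent.ALV

open Matrix

/-- A square matrix which factors through fewer columns has determinant zero. -/
theorem mnb_det {R : Type} [CommRing R] {κ : Type} [Fintype κ] [DecidableEq κ]
    (U : Matrix (Fin (Fintype.card κ + 1)) κ R) (V : Matrix κ (Fin (Fintype.card κ + 1)) R) :
    (U * V).det = 0 := by
  classical
  let e : κ ≃ Fin (Fintype.card κ) := Fintype.equivFin κ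
  let U' : Matrix (Fin (Fintype.card κ + 1)) (Fin (Fintype.card κ + 1)) R :=
    Matrix.of fun i j => Fin.lastCases (motive := fun _ => R) 0 (fun t => U i (e.symm t)) j
  let V' : Matrix (Fin (Fintype.card κ + 1)) (Fin (Fintype.card κ + 1)) R :=
    Matrix.of fun i j => Fin.lastCases (motive := fun _ => R) 0 (fun t => V (e.symm t) j) i
  have h1 : U * V = U' * V' := by
    ext i j
    rw [Matrix.mul_apply, Matrix.mul_apply, Fin.sum_univ_castSucc]
    simp only [U', V', Matrix.of_apply, Fin.lastCases_castSucc, Fin.lastCases_last, zero_mul,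
      add_zero]
    exact (Equiv.sum_comp e.symm (fun k => U i k * V k j)).symm
  rw [h1, Matrix.det_mul]
  have h2 : U'.det = 0 := by
    refine Matrix.det_eq_zero_of_column_eq_zero (Fin.last _) ?_
    intro i
    simp only [U', Matrix.of_apply, Fin.lastCases_last]
  rw [h2, zero_mul]

theorem thm_MnB : St_MnB := by
  intro O _ ι κ τ _ _ _ _ _ _ M C C' P A 𝔞 h1 h2 h3 h4 r c
  have hM : M = C'ᵀ * Matrix.fromBlocks P 0 0 A * C' := by
    rw [← h3]
    have h5 : C'ᵀ * Cᵀ = 1 := by rw [← Matrix.transpose_mul, h1, Matrix.transpose_one]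
    calc M = (C'ᵀ * Cᵀ) * M * (C * C') := by rw [h5, h1, Matrix.one_mul, Matrix.mul_one]
      _ = C'ᵀ * (Cᵀ * M * C) * C' := by simp only [Matrix.mul_assoc]
  rw [← Ideal.Quotient.eq_zero_iff_mem, RingHom.map_det]
  let q : O →+* O ⧸ 𝔞 := Ideal.Quotient.mk 𝔞
  have h6 : (RingHom.mapMatrix q) (M.submatrix r c) =
      ((C'.map q)ᵀ.submatrix r Sum.inl * P.map q) * ((C'.map q).submatrix Sum.inl c) := by
    ext i j
    rw [hM]
    simp only [RingHom.mapMatrix_apply, Matrix.map_apply, Matrix.submatrix_apply,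
      Matrix.mul_apply, Fintype.sum_sum_type, Matrix.transpose_apply, Matrix.fromBlocks_apply₁₁,
      Matrix.fromBlocks_apply₁₂, Matrix.fromBlocks_apply₂₁, Matrix.fromBlocks_apply₂₂,
      Matrix.zero_apply, mul_zero, Finset.sum_const_zero, add_zero, zero_add, map_add, map_sum,
      map_mul]
    have h7 : ∀ a b, q (A a b) = 0 := fun a b => Ideal.Quotient.eq_zero_iff_mem.2 (h4 a b)
    simp only [h7, mul_zero, Finset.sum_const_zero, zero_mul, add_zero]
  have h8 : (Ideal.Quotient.mk 𝔞).mapMatrix (M.submatrix r c) =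
      ((C'.map q)ᵀ.submatrix r Sum.inl * P.map q) * ((C'.map q).submatrix Sum.inl c) := h6
  rw [h8]
  exact mnb_det _ _

end Pool.Agent.ALV
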