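import Pool.Agent.ALV.St
import Pool.Agent.CTR.GL

/-!
# ALV, module MtG: all matrices, from the matrix coordinates to a basis
-/

set_option autoImplicit false

noncomputable section

namespace Pool.Agent.ALV

open Matrix Pool.Agent.CTR

section

attribute [local instance 100] LieRing.ofAssociativeRing

variable {n : ℕ} {ι : Type} [Fintype ι] {S : Type} [CommRing S] [Algebra ℂ S]

/-- The matrix with given coordinates. -/
def mtg_mat (b : Module.Basis ι ℂ (Matrix (Fin n) (Fin n) ℂ)) (v : ι → S) : Matrix (Fin n) (Fin n) S :=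
  fun p q => ∑ i, algebraMap ℂ S (b i p q) * v i

/-- The coordinates of a matrix. -/
def mtg_crd (b : Module.Basis ι ℂ (Matrix (Fin n) (Fin n) ℂ)) (M : Matrix (Fin n) (Fin n) S) : ι → S :=
  fun k => ∑ p, ∑ q, algebraMap ℂ S (b.repr (Matrix.single p q 1) k) * M p q

theorem mtg_rep (b : Module.Basis ι ℂ (Matrix (Fin n) (Fin n) ℂ)) (x : Matrix (Fin n) (Fin n) ℂ) (p q : Fin n) :
    ∑ k, algebraMap ℂ S (b k p q) * algebraMap ℂ S (b.repr x k) = algebraMap ℂ S (x p q) := by
  have h := congrFun (congrFun (b.sum_repr x) p) q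
  rw [Matrix.sum_apply] at h
  rw [← h, map_sum]
  apply Finset.sum_congr rfl
  intro k _
  rw [Matrix.smul_apply, smul_eq_mul, map_mul, mul_comm]

omit [Fintype ι] in
theorem mtg_repr (b : Module.Basis ι ℂ (Matrix (Fin n) (Fin n) ℂ)) (x : Matrix (Fin n) (Fin n) ℂ) (k : ι) :
    ∑ p, ∑ q, algebraMap ℂ S (b.repr (Matrix.single p q 1) k) * algebraMap ℂ S (x p q) =
      algebraMap ℂ S (b.repr x k) := by
  have h : x = ∑ p, ∑ q, x p q • Matrix.single p q (1 : ℂ) := by
    conv_lhs => rw [Matrix.matrix_eq_sum_single x]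
    apply Finset.sum_congr rfl
    intro p _
    apply Finset.sum_congr rfl
    intro q _
    rw [Matrix.smul_single, smul_eq_mul, mul_one]
  have h2 : b.repr x k = ∑ p, ∑ q, x p q * b.repr (Matrix.single p q 1) k := by
    conv_lhs => rw [h]
    rw [map_sum, Finsupp.finsetSum_apply]
    apply Finset.sum_congr rfl
    intro p _
    rw [map_sum, Finsupp.finsetSum_apply]
    apply Finset.sum_congr rfl
    intro q _
    rw [map_smul, Finsupp.smul_apply, smul_eq_mul]
  rw [h2, map_sum]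
  apply Finset.sum_congr rfl
  intro p _
  rw [map_sum]
  apply Finset.sum_congr rfl
  intro q _
  rw [map_mul, mul_comm]

theorem mtg_mc (b : Module.Basis ι ℂ (Matrix (Fin n) (Fin n) ℂ)) (M : Matrix (Fin n) (Fin n) S) :
    mtg_mat b (mtg_crd b M) = M := by
  ext p q
  unfold mtg_mat mtg_crd
  simp only [Finset.mul_sum]
  rw [Finset.sum_comm]
  have h1 : ∀ p' : Fin n, ∑ i : ι, ∑ q', algebraMap ℂ S (b i p q) *
      (algebraMap ℂ S (b.repr (Matrix.single p' q' 1) i) * M p' q') =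
      ∑ q', algebraMap ℂ S ((Matrix.single p' q' (1 : ℂ)) p q) * M p' q' := by
    intro p'
    rw [Finset.sum_comm]
    apply Finset.sum_congr rfl
    intro q' _
    rw [← mtg_rep b (Matrix.single p' q' 1) p q, Finset.sum_mul]
    apply Finset.sum_congr rfl
    intro i _
    rw [mul_assoc]
  rw [Finset.sum_congr rfl fun p' _ => h1 p', Finset.sum_eq_single p, Finset.sum_eq_single q]
  · rw [Matrix.single_apply_same, map_one, one_mul]
  · intro q' _ hq
    rw [Matrix.single_apply_of_ne _ _ _ _ _ (fun h => hq h.2), map_zero, zero_mul]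
  · intro h
    exact absurd (Finset.mem_univ _) h
  · intro p' _ hp
    apply Finset.sum_eq_zero
    intro q' _
    rw [Matrix.single_apply_of_ne _ _ _ _ _ (fun h => hp h.1), map_zero, zero_mul]
  · intro h
    exact absurd (Finset.mem_univ _) h

theorem mtg_cm (b : Module.Basis ι ℂ (Matrix (Fin n) (Fin n) ℂ)) (v : ι → S) :
    mtg_crd b (mtg_mat b v) = v := by
  classical
  funext k
  unfold mtg_mat mtg_crd
  simp only [Finset.mul_sum]
  have h1 : ∑ p, ∑ q, ∑ i : ι, algebraMap ℂ S (b.repr (Matrix.single p q 1) k) *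
      (algebraMap ℂ S (b i p q) * v i) =
      ∑ i : ι, ∑ p, ∑ q, algebraMap ℂ S (b.repr (Matrix.single p q 1) k) *
      (algebraMap ℂ S (b i p q) * v i) := by
    rw [Finset.sum_comm]
    rw [Finset.sum_congr rfl fun p _ => Finset.sum_comm]
    rw [Finset.sum_comm]
    apply Finset.sum_congr rfl
    intro i _
    rw [Finset.sum_comm]
  rw [h1, Finset.sum_eq_single k]
  · have h2 := mtg_repr (S := S) b (b k) k
    rw [b.repr_self, Finsupp.single_eq_same, map_one] at h2
    calc _ = (∑ p, ∑ q, algebraMap ℂ S (b.repr (Matrix.single p q 1) k) * algebraMap ℂ S (b k p q)) * v k := by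
          rw [Finset.sum_mul]
          apply Finset.sum_congr rfl
          intro p _
          rw [Finset.sum_mul]
          apply Finset.sum_congr rfl
          intro q _
          rw [mul_assoc]
      _ = v k := by rw [h2, one_mul]
  · intro i _ hik
    have h2 := mtg_repr (S := S) b (b i) k
    rw [b.repr_self, Finsupp.single_eq_of_ne' hik, map_zero] at h2
    calc _ = (∑ p, ∑ q, algebraMap ℂ S (b.repr (Matrix.single p q 1) k) * algebraMap ℂ S (b i p q)) * v i := by
          rw [Finset.sum_mul]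
          apply Finset.sum_congr rfl
          intro p _
          rw [Finset.sum_mul]
          apply Finset.sum_congr rfl
          intro q _
          rw [mul_assoc]
      _ = 0 := by rw [h2, zero_mul]
  · intro h
    exact absurd (Finset.mem_univ _) h

theorem mtg_mul (b : Module.Basis ι ℂ (Matrix (Fin n) (Fin n) ℂ)) (v w : ι → S) (p q : Fin n) :
    (mtg_mat b v * mtg_mat b w) p q = ∑ i, ∑ j, algebraMap ℂ S ((b i * b j) p q) * (v i * w j) := by
  rw [Matrix.mul_apply]
  unfold mtg_mat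
  simp only [Finset.sum_mul_sum]
  rw [Finset.sum_comm]
  apply Finset.sum_congr rfl
  intro i _
  rw [Finset.sum_comm]
  apply Finset.sum_congr rfl
  intro j _
  rw [Matrix.mul_apply, map_sum, Finset.sum_mul]
  apply Finset.sum_congr rfl
  intro r _
  rw [map_mul]
  ring

/-- The bracket in coordinates. -/
def mtg_br (b : Module.Basis ι ℂ (Matrix (Fin n) (Fin n) ℂ)) (v w : ι → S) : ι → S :=
  fun k => ∑ i, ∑ j, algebraMap ℂ S (b.repr ⁅b i, b j⁆ k) * v i * w j

theorem mtg_brk (b : Module.Basis ι ℂ (Matrix (Fin n) (Fin n) ℂ)) (v w : ι → S) :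
    mtg_mat b v * mtg_mat b w - mtg_mat b w * mtg_mat b v = mtg_mat b (mtg_br b v w) := by
  ext p q
  rw [Matrix.sub_apply, mtg_mul, mtg_mul]
  have h1 : ∑ i, ∑ j, algebraMap ℂ S ((b i * b j) p q) * (w i * v j) =
      ∑ i, ∑ j, algebraMap ℂ S ((b j * b i) p q) * (v i * w j) := by
    rw [Finset.sum_comm]
    apply Finset.sum_congr rfl
    intro i _
    apply Finset.sum_congr rfl
    intro j _
    rw [mul_comm (w j)]
  rw [h1, ← Finset.sum_sub_distrib]
  unfold mtg_mat mtg_br
  simp only [Finset.mul_sum]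
  rw [Finset.sum_comm]
  apply Finset.sum_congr rfl
  intro i _
  rw [← Finset.sum_sub_distrib, Finset.sum_comm]
  apply Finset.sum_congr rfl
  intro j _
  rw [← sub_mul, ← map_sub]
  have h2 : (b i * b j) p q - (b j * b i) p q = (⁅b i, b j⁆ : Matrix (Fin n) (Fin n) ℂ) p q := rfl
  rw [h2, ← mtg_rep b ⁅b i, b j⁆ p q, Finset.sum_mul]
  apply Finset.sum_congr rfl
  intro k _
  ring

omit [Fintype ι] in
theorem mtg_crd_sub (b : Module.Basis ι ℂ (Matrix (Fin n) (Fin n) ℂ)) (I : Ideal S) (M : Matrix (Fin n) (Fin n) S)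
    (h : ∀ p q, M p q ∈ I) (k : ι) : mtg_crd b M k ∈ I :=
  Ideal.sum_mem _ fun p _ => Ideal.sum_mem _ fun q _ => Ideal.mul_mem_left _ _ (h p q)

theorem mtg_mat_mem (b : Module.Basis ι ℂ (Matrix (Fin n) (Fin n) ℂ)) (I : Ideal S) (v : ι → S)
    (h : ∀ k, v k ∈ I) (p q : Fin n) : mtg_mat b v p q ∈ I :=
  Ideal.sum_mem _ fun k _ => Ideal.mul_mem_left _ _ (h k)

theorem mtg_mat_map (b : Module.Basis ι ℂ (Matrix (Fin n) (Fin n) ℂ)) {S' : Type} [CommRing S'] [Algebra ℂ S']
    (φ : S →ₐ[ℂ] S') (v : ι → S) (p q : Fin n) : φ (mtg_mat b v p q) = mtg_mat b (fun i => φ (v i)) p q := by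
  unfold mtg_mat
  rw [map_sum]
  apply Finset.sum_congr rfl
  intro i _
  rw [map_mul, AlgHom.commutes]

omit [Fintype ι] in
theorem mtg_crd_map (b : Module.Basis ι ℂ (Matrix (Fin n) (Fin n) ℂ)) {S' : Type} [CommRing S'] [Algebra ℂ S']
    (φ : S →ₐ[ℂ] S') (M : Matrix (Fin n) (Fin n) S) (k : ι) : φ (mtg_crd b M k) = mtg_crd b (M.map φ) k := by
  unfold mtg_crd
  rw [map_sum]
  apply Finset.sum_congr rfl
  intro p _
  rw [map_sum]
  apply Finset.sum_congr rfl
  intro q _
  rw [map_mul, AlgHom.commutes, Matrix.map_apply]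

theorem mtg_br_map (b : Module.Basis ι ℂ (Matrix (Fin n) (Fin n) ℂ)) {S' : Type} [CommRing S'] [Algebra ℂ S']
    (φ : S →ₐ[ℂ] S') (v w : ι → S) (k : ι) : φ (mtg_br b v w k) = mtg_br b (fun i => φ (v i)) (fun i => φ (w i)) k := by
  unfold mtg_br
  rw [map_sum]
  apply Finset.sum_congr rfl
  intro i _
  rw [map_sum]
  apply Finset.sum_congr rfl
  intro j _
  rw [map_mul, map_mul, AlgHom.commutes]

/-- **MtG** -/
theorem thm_MtG (hTrp : St_Trp) : St_MtG := by
  intro n A B hR ι _ b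
  let α : Rg (Fin n) ℂ →ₐ[ℂ] MvPolynomial (ι ⊕ ι) ℂ :=
    ev (mtg_mat b fun i => MvPolynomial.X (Sum.inl i)) (mtg_mat b fun i => MvPolynomial.X (Sum.inr i))
  let β : MvPolynomial (ι ⊕ ι) ℂ →ₐ[ℂ] Rg (Fin n) ℂ :=
    MvPolynomial.aeval (Sum.elim (mtg_crd b (mX (Fin n) ℂ)) (mtg_crd b (mY (Fin n) ℂ)))
  have hαX : (mX (Fin n) ℂ).map α = mtg_mat b fun i => MvPolynomial.X (Sum.inl i) := gl_ev_X _ _
  have hαY : (mY (Fin n) ℂ).map α = mtg_mat b fun i => MvPolynomial.X (Sum.inr i) := gl_ev_Y _ _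
  have hβX : ∀ i, β (MvPolynomial.X (Sum.inl i)) = mtg_crd b (mX (Fin n) ℂ) i := fun i => MvPolynomial.aeval_X _ _
  have hβY : ∀ i, β (MvPolynomial.X (Sum.inr i)) = mtg_crd b (mY (Fin n) ℂ) i := fun i => MvPolynomial.aeval_X _ _
  have hαβ : α.comp β = AlgHom.id ℂ _ := by
    apply MvPolynomial.algHom_ext
    rintro (i | i)
    · rw [AlgHom.comp_apply, hβX, mtg_crd_map, hαX, mtg_cm, AlgHom.id_apply]
    · rw [AlgHom.comp_apply, hβY, mtg_crd_map, hαY, mtg_cm, AlgHom.id_apply]
  have hgen : ∀ k, mtg_br b (fun i => (MvPolynomial.X (Sum.inl i) : MvPolynomial (ι ⊕ ι) ℂ))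
      (fun i => MvPolynomial.X (Sum.inr i)) k ∈ cI b := fun k => Ideal.subset_span ⟨k, rfl⟩
  refine hTrp (ι ⊕ ι) (Fin 2 × Fin n × Fin n) (cI b) (comI (Fin n) ℂ) (co b A B)
    (fun v => if v.1 = 0 then A v.2.1 v.2.2 else B v.2.1 v.2.2) α β ?_ ?_ ?_ ?_ ?_
  · intro f
    have h1 : α (β f) = (α.comp β) f := rfl
    rw [h1, hαβ, AlgHom.id_apply, sub_self]
    exact Ideal.zero_mem _
  · unfold comI
    rw [Ideal.span_le]
    rintro f ⟨p, q, rfl⟩
    show α _ ∈ cI b
    have h1 : α ((mX (Fin n) ℂ * mY (Fin n) ℂ - mY (Fin n) ℂ * mX (Fin n) ℂ) p q) =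
        (((mX (Fin n) ℂ).map α) * ((mY (Fin n) ℂ).map α) - ((mY (Fin n) ℂ).map α) * ((mX (Fin n) ℂ).map α)) p q := by
      rw [← Matrix.map_mul, ← Matrix.map_mul, Matrix.sub_apply, Matrix.sub_apply, map_sub]
      rfl
    rw [h1, hαX, hαY, mtg_brk]
    exact mtg_mat_mem b _ _ hgen p q
  · unfold cI
    rw [Ideal.span_le]
    rintro f ⟨k, rfl⟩
    show β (mtg_br b (fun i => MvPolynomial.X (Sum.inl i)) (fun i => MvPolynomial.X (Sum.inr i)) k) ∈ comI (Fin n) ℂ
    rw [mtg_br_map]
    simp only [hβX, hβY]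
    rw [← mtg_cm b (mtg_br b (fun i => mtg_crd b (mX (Fin n) ℂ) i) fun i => mtg_crd b (mY (Fin n) ℂ) i), ← mtg_brk]
    rw [show mtg_mat b (fun i => mtg_crd b (mX (Fin n) ℂ) i) = mX (Fin n) ℂ from mtg_mc b _,
      show mtg_mat b (fun i => mtg_crd b (mY (Fin n) ℂ) i) = mY (Fin n) ℂ from mtg_mc b _]
    exact mtg_crd_sub b (comI (Fin n) ℂ) _ (fun p q => Ideal.subset_span ⟨p, q, rfl⟩) k
  · intro f
    have h1 : (MvPolynomial.aeval (co b A B)).comp α =
        MvPolynomial.aeval (fun v : Fin 2 × Fin n × Fin n => if v.1 = 0 then A v.2.1 v.2.2 else B v.2.1 v.2.2) := by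
      apply gl_ext
      · ext i j
        have h2 : (MvPolynomial.aeval (co b A B)) (α (mX (Fin n) ℂ i j)) = A i j := by
          have h3 : α (mX (Fin n) ℂ i j) = mtg_mat b (fun i => MvPolynomial.X (Sum.inl i)) i j :=
            congrFun (congrFun hαX i) j
          rw [h3, mtg_mat_map]
          simp only [MvPolynomial.aeval_X]
          exact mtg_rep (S := ℂ) b A i j
        have h4 : (MvPolynomial.aeval (fun v : Fin 2 × Fin n × Fin n => if v.1 = 0 then A v.2.1 v.2.2 else B v.2.1 v.2.2))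
            (mX (Fin n) ℂ i j) = A i j := by
          unfold mX
          rw [MvPolynomial.aeval_X]
          simp
        exact h2.trans h4.symm
      · ext i j
        have h2 : (MvPolynomial.aeval (co b A B)) (α (mY (Fin n) ℂ i j)) = B i j := by
          have h3 : α (mY (Fin n) ℂ i j) = mtg_mat b (fun i => MvPolynomial.X (Sum.inr i)) i j :=
            congrFun (congrFun hαY i) j
          rw [h3, mtg_mat_map]
          simp only [MvPolynomial.aeval_X]
          exact mtg_rep (S := ℂ) b B i j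
        have h4 : (MvPolynomial.aeval (fun v : Fin 2 × Fin n × Fin n => if v.1 = 0 then A v.2.1 v.2.2 else B v.2.1 v.2.2))
            (mY (Fin n) ℂ i j) = B i j := by
          unfold mY
          rw [MvPolynomial.aeval_X]
          simp
        exact h2.trans h4.symm
    have h5 := DFunLike.congr_fun h1 f
    rw [AlgHom.comp_apply, MvPolynomial.aeval_eq_eval, MvPolynomial.aeval_eq_eval] at h5
    exact h5
  · intro f hf
    obtain ⟨g, hg, hgf⟩ := hR f hf
    refine ⟨g, ?_, hgf⟩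
    have h1 : MvPolynomial.eval (fun v : Fin 2 × Fin n × Fin n => if v.1 = 0 then A v.2.1 v.2.2 else B v.2.1 v.2.2) g =
        ev A B g := by
      unfold ev
      rw [MvPolynomial.aeval_eq_eval]
    rw [h1]
    exact hg

end

end Pool.Agent.ALV
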