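import Pool.Agent.ALV.St
import Pool.Agent.CTR.GL

/-!
# ALV, module MtS: traceless matrices (proved by helper12)
-/

set_option autoImplicit false

noncomputable section

namespace Pool.Agent.ALV

open Matrix Pool.Agent.CTR

/-- The traceless part. -/
def mts_pi (n : ℕ) : Matrix (Fin n) (Fin n) ℂ →ₗ[ℂ] LieAlgebra.SpecialLinear.sl (Fin n) ℂ where
  toFun M := ⟨M - (M.trace / n) • (1 : Matrix (Fin n) (Fin n) ℂ), by
    change M - (M.trace / n) • (1 : Matrix (Fin n) (Fin n) ℂ) ∈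
      LinearMap.ker (Matrix.traceLinearMap (Fin n) ℂ ℂ)
    rw [LinearMap.mem_ker, Matrix.traceLinearMap_apply, Matrix.trace_sub, Matrix.trace_smul,
      Matrix.trace_one, Fintype.card_fin, smul_eq_mul]
    rcases Nat.eq_zero_or_pos n with hn | hn
    · subst hn
      simp [Matrix.trace]
    · have h : (n : ℂ) ≠ 0 := Nat.cast_ne_zero.mpr hn.ne'
      rw [div_mul_cancel₀ _ h, sub_self]⟩
  map_add' M N := by
    apply Subtype.ext
    change M + N - ((M + N).trace / n) • (1 : Matrix (Fin n) (Fin n) ℂ) =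
      (M - (M.trace / n) • (1 : Matrix (Fin n) (Fin n) ℂ)) +
      (N - (N.trace / n) • (1 : Matrix (Fin n) (Fin n) ℂ))
    rw [Matrix.trace_add, add_div, add_smul]
    abel
  map_smul' c M := by
    apply Subtype.ext
    change c • M - ((c • M).trace / n) • (1 : Matrix (Fin n) (Fin n) ℂ) =
      c • (M - (M.trace / n) • (1 : Matrix (Fin n) (Fin n) ℂ))
    rw [Matrix.trace_smul, smul_sub, smul_eq_mul, mul_div_assoc, ← smul_smul]

theorem mts_pi_val (n : ℕ) (M : Matrix (Fin n) (Fin n) ℂ) :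
    ((mts_pi n M : LieAlgebra.SpecialLinear.sl (Fin n) ℂ) : Matrix (Fin n) (Fin n) ℂ) =
      M - (M.trace / n) • (1 : Matrix (Fin n) (Fin n) ℂ) := rfl

theorem mts_trace {n : ℕ} (A : LieAlgebra.SpecialLinear.sl (Fin n) ℂ) :
    (A : Matrix (Fin n) (Fin n) ℂ).trace = 0 := by
  have h : (A : Matrix (Fin n) (Fin n) ℂ) ∈
      LinearMap.ker (Matrix.traceLinearMap (Fin n) ℂ ℂ) := A.2
  rw [LinearMap.mem_ker] at h
  exact h

theorem mts_pi_coe {n : ℕ} (A : LieAlgebra.SpecialLinear.sl (Fin n) ℂ) :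
    mts_pi n (A : Matrix (Fin n) (Fin n) ℂ) = A := by
  apply Subtype.ext
  rw [mts_pi_val, mts_trace, zero_div, zero_smul, sub_zero]

/-- The inclusion. -/
def mts_inc (n : ℕ) : LieAlgebra.SpecialLinear.sl (Fin n) ℂ →ₗ[ℂ] Matrix (Fin n) (Fin n) ℂ where
  toFun a := a
  map_add' _ _ := rfl
  map_smul' _ _ := rfl

theorem mts_s3 {α β γ S : Type} [Fintype α] [Fintype β] [Fintype γ] [AddCommMonoid S]
    (f : α → β → γ → S) : ∑ i, ∑ p, ∑ q, f i p q = ∑ p, ∑ q, ∑ i, f i p q := by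
  rw [Finset.sum_comm]
  exact Finset.sum_congr rfl fun p _ => Finset.sum_comm

theorem mts_aeval {σ : Type} (p : σ → ℂ) (u : MvPolynomial σ ℂ) :
    MvPolynomial.aeval p u = MvPolynomial.eval p u := rfl

variable {n : ℕ} {ι : Type} [Fintype ι]
  (b : Module.Basis ι ℂ (LieAlgebra.SpecialLinear.sl (Fin n) ℂ))

/-- The matrix with the coordinates `s`. -/
def mts_E {S : Type} [CommRing S] [Algebra ℂ S] (s : ι → S) : Matrix (Fin n) (Fin n) S :=
  fun p q => ∑ i, algebraMap ℂ S ((b i : Matrix (Fin n) (Fin n) ℂ) p q) * s i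

/-- The coordinates of the traceless part. -/
def mts_C {S : Type} [CommRing S] [Algebra ℂ S] (M : Matrix (Fin n) (Fin n) S) : ι → S :=
  fun i => ∑ p, ∑ q, algebraMap ℂ S (b.repr (mts_pi n (Matrix.single p q 1)) i) * M p q

/-- The brackets in coordinates. -/
def mts_G {S : Type} [CommRing S] [Algebra ℂ S] (s t : ι → S) : ι → S :=
  fun k => ∑ i, ∑ j, algebraMap ℂ S (b.repr ⁅b i, b j⁆ k) * s i * t j

theorem mts_sum_coe (a : LieAlgebra.SpecialLinear.sl (Fin n) ℂ) (p q : Fin n) :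
    ∑ i, b.repr a i * (b i : Matrix (Fin n) (Fin n) ℂ) p q =
      (a : Matrix (Fin n) (Fin n) ℂ) p q := by
  have h2 : mts_inc n (∑ i, b.repr a i • b i) p q = (a : Matrix (Fin n) (Fin n) ℂ) p q := by
    rw [b.sum_repr]
    rfl
  rw [map_sum, Matrix.sum_apply] at h2
  rw [← h2]
  refine Finset.sum_congr rfl fun i _ => ?_
  rw [map_smul]
  rfl

theorem mts_repr_sum (M : Matrix (Fin n) (Fin n) ℂ) (i : ι) :
    ∑ p, ∑ q, b.repr (mts_pi n (Matrix.single p q 1)) i * M p q =
      b.repr (mts_pi n M) i := by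
  have h : M = ∑ p, ∑ q, M p q • Matrix.single p q (1 : ℂ) := by
    conv_lhs => rw [Matrix.matrix_eq_sum_single M]
    refine Finset.sum_congr rfl fun p _ => Finset.sum_congr rfl fun q _ => ?_
    rw [Matrix.smul_single, smul_eq_mul, mul_one]
  conv_rhs => rw [h]
  have h3 : b.repr (mts_pi n (∑ p, ∑ q, M p q • Matrix.single p q (1 : ℂ))) =
      ∑ p, ∑ q, M p q • b.repr (mts_pi n (Matrix.single p q (1 : ℂ))) := by
    simp only [map_sum, map_smul]
  rw [h3, Finsupp.finsetSum_apply]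
  refine Finset.sum_congr rfl fun p _ => ?_
  rw [Finsupp.finsetSum_apply]
  refine Finset.sum_congr rfl fun q _ => ?_
  rw [Finsupp.smul_apply, smul_eq_mul, mul_comm]

theorem mts_CE {S : Type} [CommRing S] [Algebra ℂ S] (s : ι → S) :
    mts_C b (mts_E b s) = s := by
  classical
  funext i
  have h1 : mts_C b (mts_E b s) i = ∑ j, algebraMap ℂ S (b.repr (b j) i) * s j := by
    unfold mts_C mts_E
    have h2 : ∀ j, algebraMap ℂ S (b.repr (b j) i) * s j = ∑ p, ∑ q,
        algebraMap ℂ S (b.repr (mts_pi n (Matrix.single p q 1)) i) *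
          (algebraMap ℂ S ((b j : Matrix (Fin n) (Fin n) ℂ) p q) * s j) := by
      intro j
      have h3 := mts_repr_sum b (b j : Matrix (Fin n) (Fin n) ℂ) i
      rw [mts_pi_coe] at h3
      rw [← h3, map_sum, Finset.sum_mul]
      refine Finset.sum_congr rfl fun p _ => ?_
      rw [map_sum, Finset.sum_mul]
      refine Finset.sum_congr rfl fun q _ => ?_
      rw [map_mul, mul_assoc]
    rw [Finset.sum_congr rfl fun j _ => h2 j, mts_s3]
    refine Finset.sum_congr rfl fun p _ => ?_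
    refine Finset.sum_congr rfl fun q _ => ?_
    rw [Finset.mul_sum]
  rw [h1]
  have h4 : ∀ j, algebraMap ℂ S (b.repr (b j) i) * s j = if j = i then s j else 0 := by
    intro j
    rw [b.repr_self, Finsupp.single_apply]
    by_cases h : j = i
    · rw [if_pos h, if_pos h, map_one, one_mul]
    · rw [if_neg h, if_neg h, map_zero, zero_mul]
  rw [Finset.sum_congr rfl fun j _ => h4 j, Finset.sum_ite_eq' Finset.univ i s,
    if_pos (Finset.mem_univ i)]

theorem mts_EC {S : Type} [CommRing S] [Algebra ℂ S] (M : Matrix (Fin n) (Fin n) S) :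
    ∃ c : S, mts_E b (mts_C b M) = M - c • (1 : Matrix (Fin n) (Fin n) S) := by
  refine ⟨algebraMap ℂ S (1 / n) * M.trace, ?_⟩
  ext p q
  have h1 : mts_E b (mts_C b M) p q = ∑ p', ∑ q', algebraMap ℂ S
      ((mts_pi n (Matrix.single p' q' 1) : Matrix (Fin n) (Fin n) ℂ) p q) * M p' q' := by
    unfold mts_E mts_C
    have h2 : ∀ p' q', algebraMap ℂ S
        ((mts_pi n (Matrix.single p' q' 1) : Matrix (Fin n) (Fin n) ℂ) p q) * M p' q' =
        ∑ i, algebraMap ℂ S ((b i : Matrix (Fin n) (Fin n) ℂ) p q) *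
          (algebraMap ℂ S (b.repr (mts_pi n (Matrix.single p' q' 1)) i) * M p' q') := by
      intro p' q'
      rw [← mts_sum_coe b, map_sum, Finset.sum_mul]
      refine Finset.sum_congr rfl fun i _ => ?_
      rw [map_mul]
      ring
    rw [Finset.sum_congr rfl fun p' _ => Finset.sum_congr rfl fun q' _ => h2 p' q', ← mts_s3]
    refine Finset.sum_congr rfl fun i _ => ?_
    rw [Finset.mul_sum]
    refine Finset.sum_congr rfl fun p' _ => ?_
    rw [Finset.mul_sum]
  rw [h1]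
  have h3 : ∀ p' q', algebraMap ℂ S
      ((mts_pi n (Matrix.single p' q' 1) : Matrix (Fin n) (Fin n) ℂ) p q) * M p' q' =
      (if p' = p then (if q' = q then M p' q' else 0) else 0) -
      (if q' = p' then algebraMap ℂ S (1 / n) * M p' q' * (1 : Matrix (Fin n) (Fin n) S) p q
        else 0) := by
    intro p' q'
    rw [mts_pi_val, Matrix.sub_apply, Matrix.smul_apply, map_sub, sub_mul]
    congr 1
    · rw [Matrix.single_apply]
      by_cases hp : p' = p
      · by_cases hq : q' = q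
        · rw [if_pos ⟨hp, hq⟩, if_pos hp, if_pos hq, map_one, one_mul]
        · rw [if_neg (fun h => hq h.2), if_pos hp, if_neg hq, map_zero, zero_mul]
      · rw [if_neg (fun h => hp h.1), if_neg hp, map_zero, zero_mul]
    · have h5 : algebraMap ℂ S ((1 : Matrix (Fin n) (Fin n) ℂ) p q) =
          (1 : Matrix (Fin n) (Fin n) S) p q := by
        rw [Matrix.one_apply, Matrix.one_apply]
        split_ifs
        · exact map_one _
        · exact map_zero _
      rw [smul_eq_mul, map_mul, h5]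
      by_cases h6 : q' = p'
      · subst h6
        rw [if_pos rfl, Matrix.trace_single_eq_same]
        ring
      · rw [if_neg h6, Matrix.trace_single_eq_of_ne _ _ _ (fun h => h6 h.symm), zero_div,
          map_zero]
        ring
  rw [Finset.sum_congr rfl fun p' _ => Finset.sum_congr rfl fun q' _ => h3 p' q']
  simp only [Finset.sum_sub_distrib, Finset.sum_ite_eq', Finset.mem_univ, if_true,
    Matrix.sub_apply, Matrix.smul_apply, smul_eq_mul]
  congr 1
  · rw [Finset.sum_eq_single p]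
    · simp
    · intro p' _ hp'
      simp [hp']
    · intro h
      exact absurd (Finset.mem_univ p) h
  · rw [Matrix.trace, Finset.mul_sum, Finset.sum_mul]
    rfl

theorem mts_bra {S : Type} [CommRing S] [Algebra ℂ S] (s t : ι → S) :
    mts_E b s * mts_E b t - mts_E b t * mts_E b s = mts_E b (mts_G b s t) := by
  ext p q
  rw [Matrix.sub_apply, Matrix.mul_apply, Matrix.mul_apply]
  have h1 : ∀ i j, ∑ k, b.repr ⁅b i, b j⁆ k * (b k : Matrix (Fin n) (Fin n) ℂ) p q =
      ∑ r, (b i : Matrix (Fin n) (Fin n) ℂ) p r * (b j : Matrix (Fin n) (Fin n) ℂ) r q -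
      ∑ r, (b j : Matrix (Fin n) (Fin n) ℂ) p r * (b i : Matrix (Fin n) (Fin n) ℂ) r q := by
    intro i j
    rw [mts_sum_coe]
    rfl
  have h2 : mts_E b (mts_G b s t) p q = ∑ i, ∑ j, (algebraMap ℂ S
      (∑ k, b.repr ⁅b i, b j⁆ k * (b k : Matrix (Fin n) (Fin n) ℂ) p q)) * s i * t j := by
    unfold mts_E mts_G
    have h3 : ∀ i j, (algebraMap ℂ S
        (∑ k, b.repr ⁅b i, b j⁆ k * (b k : Matrix (Fin n) (Fin n) ℂ) p q)) * s i * t j =
        ∑ k, algebraMap ℂ S ((b k : Matrix (Fin n) (Fin n) ℂ) p q) *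
          (algebraMap ℂ S (b.repr ⁅b i, b j⁆ k) * s i * t j) := by
      intro i j
      rw [map_sum, Finset.sum_mul, Finset.sum_mul]
      refine Finset.sum_congr rfl fun k _ => ?_
      rw [map_mul]
      ring
    rw [Finset.sum_congr rfl fun i _ => Finset.sum_congr rfl fun j _ => h3 i j, ← mts_s3]
    refine Finset.sum_congr rfl fun k _ => ?_
    rw [Finset.mul_sum]
    refine Finset.sum_congr rfl fun i _ => ?_
    rw [Finset.mul_sum]
  rw [h2]
  have h4 : ∀ u v : ι → S, ∑ r, mts_E b u p r * mts_E b v r q = ∑ i, ∑ j,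
      algebraMap ℂ S (∑ r, (b i : Matrix (Fin n) (Fin n) ℂ) p r *
        (b j : Matrix (Fin n) (Fin n) ℂ) r q) * u i * v j := by
    intro u v
    unfold mts_E
    have h5 : ∀ i j, algebraMap ℂ S (∑ r, (b i : Matrix (Fin n) (Fin n) ℂ) p r *
        (b j : Matrix (Fin n) (Fin n) ℂ) r q) * u i * v j = ∑ r,
        (algebraMap ℂ S ((b i : Matrix (Fin n) (Fin n) ℂ) p r) * u i) *
        (algebraMap ℂ S ((b j : Matrix (Fin n) (Fin n) ℂ) r q) * v j) := by
      intro i j
      rw [map_sum, Finset.sum_mul, Finset.sum_mul]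
      refine Finset.sum_congr rfl fun r _ => ?_
      rw [map_mul]
      ring
    rw [Finset.sum_congr rfl fun i _ => Finset.sum_congr rfl fun j _ => h5 i j, ← mts_s3]
    refine Finset.sum_congr rfl fun r _ => ?_
    rw [Finset.sum_mul_sum]
  rw [h4, h4]
  have h6 : ∑ i, ∑ j, algebraMap ℂ S (∑ r, (b i : Matrix (Fin n) (Fin n) ℂ) p r *
      (b j : Matrix (Fin n) (Fin n) ℂ) r q) * t i * s j = ∑ i, ∑ j,
      algebraMap ℂ S (∑ r, (b j : Matrix (Fin n) (Fin n) ℂ) p r *
      (b i : Matrix (Fin n) (Fin n) ℂ) r q) * t j * s i := Finset.sum_comm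
  rw [h6, ← Finset.sum_sub_distrib]
  refine Finset.sum_congr rfl fun i _ => ?_
  rw [← Finset.sum_sub_distrib]
  refine Finset.sum_congr rfl fun j _ => ?_
  rw [h1, map_sub]
  ring

theorem mts_E_map {S T : Type} [CommRing S] [Algebra ℂ S] [CommRing T] [Algebra ℂ T]
    (φ : S →ₐ[ℂ] T) (s : ι → S) : (mts_E b s).map φ = mts_E b (fun i => φ (s i)) := by
  ext p q
  rw [Matrix.map_apply]
  unfold mts_E
  rw [map_sum]
  refine Finset.sum_congr rfl fun i _ => ?_
  rw [map_mul, AlgHom.commutes]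

theorem mts_C_map {S T : Type} [CommRing S] [Algebra ℂ S] [CommRing T] [Algebra ℂ T]
    (φ : S →ₐ[ℂ] T) (M : Matrix (Fin n) (Fin n) S) (i : ι) :
    φ (mts_C b M i) = mts_C b (M.map φ) i := by
  unfold mts_C
  rw [map_sum]
  refine Finset.sum_congr rfl fun p _ => ?_
  rw [map_sum]
  refine Finset.sum_congr rfl fun q _ => ?_
  rw [map_mul, AlgHom.commutes, Matrix.map_apply]

theorem mts_G_map {S T : Type} [CommRing S] [Algebra ℂ S] [CommRing T] [Algebra ℂ T]
    (φ : S →ₐ[ℂ] T) (s t : ι → S) (k : ι) :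
    φ (mts_G b s t k) = mts_G b (fun i => φ (s i)) (fun i => φ (t i)) k := by
  unfold mts_G
  rw [map_sum]
  refine Finset.sum_congr rfl fun i _ => ?_
  rw [map_sum]
  refine Finset.sum_congr rfl fun j _ => ?_
  rw [map_mul, map_mul, AlgHom.commutes]

/-- The generators of the ideal of the commuting scheme. -/
theorem mts_gen (k : ι) : mts_G b (fun i => (MvPolynomial.X (Sum.inl i) :
    MvPolynomial (ι ⊕ ι) ℂ)) (fun i => MvPolynomial.X (Sum.inr i)) k ∈ cI b := by
  unfold cI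
  exact Ideal.subset_span ⟨k, rfl⟩

theorem thm_MtS (hTrp : St_Trp) : St_MtS := by
  intro n A B hRd ι _ b
  let α : Rg (Fin n) ℂ →ₐ[ℂ] MvPolynomial (ι ⊕ ι) ℂ :=
    ev (mts_E b fun i => MvPolynomial.X (Sum.inl i)) (mts_E b fun i => MvPolynomial.X (Sum.inr i))
  have hαX : (mX (Fin n) ℂ).map α = mts_E b fun i => MvPolynomial.X (Sum.inl i) := gl_ev_X _ _
  have hαY : (mY (Fin n) ℂ).map α = mts_E b fun i => MvPolynomial.X (Sum.inr i) := gl_ev_Y _ _
  let β : MvPolynomial (ι ⊕ ι) ℂ →ₐ[ℂ] Rg (Fin n) ℂ :=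
    MvPolynomial.aeval (Sum.elim (mts_C b (mX (Fin n) ℂ)) (mts_C b (mY (Fin n) ℂ)))
  have hβX : ∀ i, β (MvPolynomial.X (Sum.inl i)) = mts_C b (mX (Fin n) ℂ) i := by
    intro i
    simp [β]
  have hβY : ∀ i, β (MvPolynomial.X (Sum.inr i)) = mts_C b (mY (Fin n) ℂ) i := by
    intro i
    simp [β]
  refine hTrp (ι ⊕ ι) (Fin 2 × Fin n × Fin n) (cI b) (comI (Fin n) ℂ) (co b A B)
    (fun v => if v.1 = 0 then (A : Matrix (Fin n) (Fin n) ℂ) v.2.1 v.2.2 else
      (B : Matrix (Fin n) (Fin n) ℂ) v.2.1 v.2.2) α β ?_ ?_ ?_ ?_ ?_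
  · -- `α ∘ β = id`
    have hc : α.comp β = AlgHom.id ℂ _ := by
      apply MvPolynomial.algHom_ext
      rintro (i | i)
      · rw [AlgHom.comp_apply, hβX, mts_C_map, hαX, mts_CE]
        rfl
      · rw [AlgHom.comp_apply, hβY, mts_C_map, hαY, mts_CE]
        rfl
    intro f
    have h1 : α (β f) = f := congrFun (congrArg DFunLike.coe hc) f
    rw [h1, sub_self]
    exact zero_mem _
  · -- `comI` is mapped into `cI b`
    unfold comI
    rw [Ideal.span_le]
    rintro f ⟨p, q, rfl⟩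
    have h1 : α ((mX (Fin n) ℂ * mY (Fin n) ℂ - mY (Fin n) ℂ * mX (Fin n) ℂ) p q) =
        ((mX (Fin n) ℂ).map α * (mY (Fin n) ℂ).map α -
          (mY (Fin n) ℂ).map α * (mX (Fin n) ℂ).map α) p q := by
      rw [← Matrix.map_mul, ← Matrix.map_mul, Matrix.sub_apply, map_sub]
      rfl
    change α ((mX (Fin n) ℂ * mY (Fin n) ℂ - mY (Fin n) ℂ * mX (Fin n) ℂ) p q) ∈ cI b
    rw [h1, hαX, hαY, mts_bra]
    unfold mts_E
    exact Ideal.sum_mem _ fun k _ => Ideal.mul_mem_left _ _ (mts_gen b k)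
  · -- `cI b` is mapped into `comI`
    unfold cI
    rw [Ideal.span_le]
    rintro f ⟨k, rfl⟩
    have h1 : β (mts_G b (fun i => (MvPolynomial.X (Sum.inl i) :
        MvPolynomial (ι ⊕ ι) ℂ)) (fun i => MvPolynomial.X (Sum.inr i)) k) =
        mts_G b (mts_C b (mX (Fin n) ℂ)) (mts_C b (mY (Fin n) ℂ)) k := by
      rw [mts_G_map]
      simp only [hβX, hβY]
    change β (mts_G b (fun i => (MvPolynomial.X (Sum.inl i) :
        MvPolynomial (ι ⊕ ι) ℂ)) (fun i => MvPolynomial.X (Sum.inr i)) k) ∈ comI (Fin n) ℂ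
    rw [h1, ← mts_CE b (mts_G b (mts_C b (mX (Fin n) ℂ)) (mts_C b (mY (Fin n) ℂ))), ← mts_bra]
    obtain ⟨c, hc⟩ := mts_EC b (mX (Fin n) ℂ)
    obtain ⟨d, hd⟩ := mts_EC b (mY (Fin n) ℂ)
    have h2 : mts_E b (mts_C b (mX (Fin n) ℂ)) * mts_E b (mts_C b (mY (Fin n) ℂ)) -
        mts_E b (mts_C b (mY (Fin n) ℂ)) * mts_E b (mts_C b (mX (Fin n) ℂ)) =
        mX (Fin n) ℂ * mY (Fin n) ℂ - mY (Fin n) ℂ * mX (Fin n) ℂ := by
      rw [hc, hd]
      simp only [sub_mul, mul_sub, smul_mul_assoc, mul_smul_comm, one_mul, mul_one, smul_sub]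
      rw [smul_comm d c (1 : Matrix (Fin n) (Fin n) (Rg (Fin n) ℂ))]
      abel
    rw [h2]
    unfold mts_C
    refine Ideal.sum_mem _ fun p _ => Ideal.sum_mem _ fun q _ => Ideal.mul_mem_left _ _ ?_
    unfold comI
    exact Ideal.subset_span ⟨p, q, rfl⟩
  · -- evaluation
    intro f
    have h1 : (MvPolynomial.aeval (co b A B) : MvPolynomial (ι ⊕ ι) ℂ →ₐ[ℂ] ℂ).comp α =
        ev (A : Matrix (Fin n) (Fin n) ℂ) (B : Matrix (Fin n) (Fin n) ℂ) := by
      apply gl_ext
      · have h2 : (mX (Fin n) ℂ).map ((MvPolynomial.aeval (co b A B) :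
            MvPolynomial (ι ⊕ ι) ℂ →ₐ[ℂ] ℂ).comp α) = ((mX (Fin n) ℂ).map α).map
            (MvPolynomial.aeval (co b A B) : MvPolynomial (ι ⊕ ι) ℂ →ₐ[ℂ] ℂ) := rfl
        rw [h2, hαX, gl_ev_X, mts_E_map]
        ext p q
        unfold mts_E
        rw [← mts_sum_coe b A p q]
        refine Finset.sum_congr rfl fun i _ => ?_
        simp only [MvPolynomial.aeval_X]
        rw [mul_comm]
        rfl
      · have h2 : (mY (Fin n) ℂ).map ((MvPolynomial.aeval (co b A B) :
            MvPolynomial (ι ⊕ ι) ℂ →ₐ[ℂ] ℂ).comp α) = ((mY (Fin n) ℂ).map α).map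
            (MvPolynomial.aeval (co b A B) : MvPolynomial (ι ⊕ ι) ℂ →ₐ[ℂ] ℂ) := rfl
        rw [h2, hαY, gl_ev_Y, mts_E_map]
        ext p q
        unfold mts_E
        rw [← mts_sum_coe b B p q]
        refine Finset.sum_congr rfl fun i _ => ?_
        simp only [MvPolynomial.aeval_X]
        rw [mul_comm]
        rfl
    have h3 := congrFun (congrArg DFunLike.coe h1) f
    rw [AlgHom.comp_apply] at h3
    rw [mts_aeval] at h3
    rw [h3]
    unfold ev
    rw [mts_aeval]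
  · -- the hypothesis
    intro f hf
    obtain ⟨g, hg, hgf⟩ := hRd f hf
    refine ⟨g, ?_, hgf⟩
    unfold ev at hg
    rw [mts_aeval] at hg
    exact hg

end Pool.Agent.ALV
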