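import Pool.Agent.ALV.St

/-!
# ALV, module MxP (MP_c67a3f_ag): properties of the matrix of the form
-/

set_option autoImplicit false

noncomputable section

namespace Pool.Agent.ALV

open Matrix

private theorem mxp_skew {g : Type} [LieRing g] [LieAlgebra ℂ g] {κ : LinearMap.BilinForm ℂ g} (h : Inv κ)
    (x y z : g) : κ ⁅x, y⁆ z = -κ ⁅x, z⁆ y := by
  rw [h.2.1, h.2.1, ← lie_skew z y, map_neg, neg_neg]

private theorem mxp_exp {g : Type} [LieRing g] [LieAlgebra ℂ g] {ι : Type} [Fintype ι]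
    (κ : LinearMap.BilinForm ℂ g) (b : Module.Basis ι ℂ g) (s x y : g) :
    κ ⁅s, x⁆ y = ∑ q : ι, (∑ p : ι, b.repr x p * κ ⁅s, b p⁆ (b q)) * b.repr y q := by
  conv_lhs => rw [← b.sum_repr x, ← b.sum_repr y]
  rw [lie_sum, map_sum, map_sum]
  refine Finset.sum_congr rfl fun q _ => ?_
  rw [LinearMap.sum_apply, Finset.sum_mul]
  refine Finset.sum_congr rfl fun p _ => ?_
  rw [lie_smul, map_smul, map_smul, LinearMap.smul_apply, smul_eq_mul, smul_eq_mul]
  ring

theorem thm_MxP : St_MxP := by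
  intro g _ _ ι τ _ _ κ b v hκ
  have h1 : ∀ (τ' : Type) (v' : τ' → g) (s : g) (i j : τ'),
      MvPolynomial.eval (b.repr s) (Mx κ b v' i j) = κ ⁅s, v' i⁆ (v' j) := by
    intro τ' v' s i j
    unfold Mx
    rw [map_sum]
    conv_rhs => rw [← b.sum_repr s]
    rw [sum_lie, map_sum, LinearMap.sum_apply]
    refine Finset.sum_congr rfl fun k _ => ?_
    rw [map_mul, MvPolynomial.eval_C, MvPolynomial.eval_X, smul_lie, map_smul,
      LinearMap.smul_apply, smul_eq_mul, mul_comm]
  refine ⟨h1 τ v, ?_, ?_, ?_⟩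
  · ext1 i j
    rw [Matrix.transpose_apply, Matrix.neg_apply]
    unfold Mx
    rw [← Finset.sum_neg_distrib]
    refine Finset.sum_congr rfl fun k _ => ?_
    rw [mxp_skew hκ, map_neg, neg_mul]
  · intro i
    unfold Mx
    refine Finset.sum_eq_zero fun k _ => ?_
    rw [hκ.2.1, lie_self, map_zero, map_zero, zero_mul]
  · ext1 i j
    apply MvPolynomial.funext
    intro z
    obtain ⟨s, rfl⟩ : ∃ s : g, (b.repr s : ι → ℂ) = z :=
      ⟨b.equivFun.symm z, b.equivFun.apply_symm_apply z⟩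
    rw [h1 τ v, Matrix.mul_apply, map_sum, mxp_exp κ b s (v i) (v j)]
    refine Finset.sum_congr rfl fun q _ => ?_
    rw [Matrix.mul_apply, map_mul, map_sum]
    congr 1
    · refine Finset.sum_congr rfl fun p _ => ?_
      rw [map_mul, h1 ι b, Matrix.transpose_apply]
      unfold cof
      rw [MvPolynomial.eval_C]
    · unfold cof
      rw [MvPolynomial.eval_C]

end Pool.Agent.ALV
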