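import Pool.Agent.ALV.St

/-!
# ALV Nil (helper66): reducedness can be checked on a transversal slice
-/

set_option autoImplicit false

noncomputable section

namespace Pool.Agent.ALV

open Matrix

theorem nil_sum {R : Type} [CommRing R] [Algebra ℂ R] {r : ℕ} (s : Fin r → R)
    (D : Fin r → Derivation ℂ R R) (c : R) : (∑ i, s i • D i) c = ∑ i, s i * D i c := by
  have h1 := congrFun (map_sum (Derivation.coeFnAddMonoidHom (R := ℂ) (A := R) (M := R))
    (fun i => s i • D i) Finset.univ) c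
  rw [Finset.sum_apply] at h1
  exact h1

theorem nil_one {R : Type} [CommRing R] [Algebra ℂ R] {r : ℕ} (t : Fin r → R)
    (E : Derivation ℂ R R) (Δ : R) (hE : ∀ j, E (t j) = Δ * t j)
    (hT : ∀ c, E c ∈ Ideal.span (Set.range t)) (b : R) (hb : b ∈ Ideal.span (Set.range t)) :
    E b - Δ * b ∈ Ideal.span (Set.range t) ^ 2 := by
  induction hb using Submodule.span_induction with
  | mem x hx =>
    obtain ⟨j, rfl⟩ := hx
    rw [hE, sub_self]
    exact Ideal.zero_mem _
  | zero => simp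
  | add x y _ _ h1 h2 =>
    have : E (x + y) - Δ * (x + y) = (E x - Δ * x) + (E y - Δ * y) := by
      rw [map_add]; ring
    rw [this]
    exact Ideal.add_mem _ h1 h2
  | smul c x hx h1 =>
    have : E (c • x) - Δ * (c • x) = c * (E x - Δ * x) + x * E c := by
      rw [smul_eq_mul, Derivation.leibniz, smul_eq_mul, smul_eq_mul]; ring
    rw [this]
    refine Ideal.add_mem _ (Ideal.mul_mem_left _ _ h1) ?_
    rw [pow_two]
    exact Ideal.mul_mem_mul hx (hT c)

theorem nil_pow {R : Type} [CommRing R] [Algebra ℂ R] {r : ℕ} (t : Fin r → R)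
    (E : Derivation ℂ R R) (Δ : R) (hE : ∀ j, E (t j) = Δ * t j)
    (hT : ∀ c, E c ∈ Ideal.span (Set.range t)) (n : ℕ) :
    ∀ u ∈ Ideal.span (Set.range t) ^ n,
      E u - (n : R) * Δ * u ∈ Ideal.span (Set.range t) ^ (n + 1) := by
  induction n with
  | zero =>
    intro u _
    simpa using hT u
  | succ n ih =>
    intro u hu
    rw [pow_succ] at hu
    induction hu using Submodule.mul_induction_on' with
    | mem_mul_mem a ha b hb =>
      have : E (a * b) - ((n + 1 : ℕ) : R) * Δ * (a * b) =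
          a * (E b - Δ * b) + (E a - (n : R) * Δ * a) * b := by
        rw [Derivation.leibniz, smul_eq_mul, smul_eq_mul]
        push_cast
        ring
      rw [this]
      refine Ideal.add_mem _ ?_ ?_
      · have h1 := Ideal.mul_mem_mul ha (nil_one t E Δ hE hT b hb)
        rw [← pow_add] at h1
        exact h1
      · have h1 := Ideal.mul_mem_mul (ih a ha) hb
        rw [← pow_succ] at h1
        exact h1
    | add x _ y _ h1 h2 =>
      have : E (x + y) - ((n + 1 : ℕ) : R) * Δ * (x + y) =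
          (E x - ((n + 1 : ℕ) : R) * Δ * x) + (E y - ((n + 1 : ℕ) : R) * Δ * y) := by
        rw [map_add]; ring
      rw [this]
      exact Ideal.add_mem _ h1 h2

theorem nil_step (hRad : St_Rad) {σ : Type} (I : Ideal (MvPolynomial σ ℂ)) (p : σ → ℂ) {r : ℕ}
    (t : Fin r → MvPolynomial σ ℂ)
    (D' : Fin r → Derivation ℂ (MvPolynomial σ ℂ) (MvPolynomial σ ℂ)) (Δ : MvPolynomial σ ℂ)
    (hΔ : MvPolynomial.eval p Δ ≠ 0)
    (hD : ∀ i, ∀ f ∈ I, D' i f ∈ I) (hDt : ∀ i j, D' i (t j) = if i = j then Δ else 0)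
    (n : ℕ) (hn : 1 ≤ n)
    (ih : ∀ f : MvPolynomial σ ℂ, (∃ m : ℕ, f ^ m ∈ I) →
      ∃ h, MvPolynomial.eval p h ≠ 0 ∧ h * f ∈ I ⊔ Ideal.span (Set.range t) ^ n)
    (f : MvPolynomial σ ℂ) (hf : ∃ m : ℕ, f ^ m ∈ I) :
    ∃ h, MvPolynomial.eval p h ≠ 0 ∧ h * f ∈ I ⊔ Ideal.span (Set.range t) ^ (n + 1) := by
  classical
  set T := Ideal.span (Set.range t) with hTdef
  set E : Derivation ℂ (MvPolynomial σ ℂ) (MvPolynomial σ ℂ) := ∑ i, t i • D' i with hEdef
  have hEa : ∀ c, E c = ∑ i, t i * D' i c := by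
    intro c
    rw [hEdef, nil_sum]
  have htT : ∀ i, t i ∈ T := fun i => Ideal.subset_span ⟨i, rfl⟩
  have hEt : ∀ j, E (t j) = Δ * t j := by
    intro j
    rw [hEa]
    simp only [hDt, mul_ite, mul_zero]
    rw [Finset.sum_ite_eq' Finset.univ j]
    simp [mul_comm]
  have hET : ∀ c, E c ∈ T := by
    intro c
    rw [hEa]
    exact Ideal.sum_mem _ fun i _ => Ideal.mul_mem_right _ _ (htT i)
  have hEI : ∀ c ∈ I, E c ∈ I := by
    intro c hc
    rw [hEa]
    exact Ideal.sum_mem _ fun i _ => Ideal.mul_mem_left _ _ (hD i c hc)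
  obtain ⟨h, hh, hhf⟩ := ih f hf
  obtain ⟨m, hm⟩ := hf
  have hm' : (h * f) ^ m ∈ I := by
    rw [mul_pow]
    exact Ideal.mul_mem_left _ _ hm
  have hex : ∀ j, ∃ H, MvPolynomial.eval p H ≠ 0 ∧ H * D' j (h * f) ∈ I ⊔ T ^ n := fun j =>
    ih _ (hRad _ I (D' j) (hD j) (h * f) m hm')
  choose H hH1 hH2 using hex
  refine ⟨(∏ j, H j) * Δ * h, ?_, ?_⟩
  · rw [map_mul, map_mul, map_prod]
    exact mul_ne_zero (mul_ne_zero (Finset.prod_ne_zero_iff.2 fun j _ => hH1 j) hΔ) hh
  · have h1 : (∏ j, H j) * E (h * f) ∈ I ⊔ T ^ (n + 1) := by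
      rw [hEa, Finset.mul_sum]
      refine Ideal.sum_mem _ fun j _ => ?_
      have h2 : (∏ j, H j) * D' j (h * f) ∈ I ⊔ T ^ n := by
        rw [← Finset.mul_prod_erase Finset.univ H (Finset.mem_univ j), mul_comm (H j), mul_assoc]
        exact Ideal.mul_mem_left _ _ (hH2 j)
      have h3 : t j * ((∏ j, H j) * D' j (h * f)) ∈ T * (I ⊔ T ^ n) := Ideal.mul_mem_mul (htT j) h2
      have h4 : T * (I ⊔ T ^ n) ≤ I ⊔ T ^ (n + 1) := by
        rw [Ideal.mul_sup, pow_succ']
        exact sup_le_sup Ideal.mul_le_right le_rfl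
      have h5 := h4 h3
      have h6 : (∏ j, H j) * (t j * D' j (h * f)) = t j * ((∏ j, H j) * D' j (h * f)) := by ring
      rw [h6]
      exact h5
    obtain ⟨i, hi, u, hu, hiu⟩ := Submodule.mem_sup.1 hhf
    have h2 : E (h * f) - (n : MvPolynomial σ ℂ) * Δ * (h * f) ∈ I ⊔ T ^ (n + 1) := by
      have h3 : E (h * f) - (n : MvPolynomial σ ℂ) * Δ * (h * f) =
          (E i - (n : MvPolynomial σ ℂ) * Δ * i) + (E u - (n : MvPolynomial σ ℂ) * Δ * u) := by
        rw [← hiu, map_add]; ring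
      rw [h3]
      exact Submodule.add_mem_sup (Ideal.sub_mem _ (hEI i hi) (Ideal.mul_mem_left _ _ hi))
        (nil_pow t E Δ hEt hET n u hu)
    have h3 : (n : MvPolynomial σ ℂ) * ((∏ j, H j) * Δ * h * f) ∈ I ⊔ T ^ (n + 1) := by
      have h4 : (n : MvPolynomial σ ℂ) * ((∏ j, H j) * Δ * h * f) =
          (∏ j, H j) * E (h * f) -
            (∏ j, H j) * (E (h * f) - (n : MvPolynomial σ ℂ) * Δ * (h * f)) := by ring
      rw [h4]
      exact Ideal.sub_mem _ h1 (Ideal.mul_mem_left _ _ h2)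
    have h4 : MvPolynomial.C ((n : ℂ)⁻¹) * ((n : MvPolynomial σ ℂ) * ((∏ j, H j) * Δ * h * f)) =
        (∏ j, H j) * Δ * h * f := by
      have h5 : (n : MvPolynomial σ ℂ) = MvPolynomial.C (n : ℂ) := by simp
      rw [h5, ← mul_assoc, ← map_mul, inv_mul_cancel₀ (by exact_mod_cast (by omega : n ≠ 0)),
        map_one, one_mul]
    rw [← h4]
    exact Ideal.mul_mem_left _ _ h3

/-- **Nil.** -/
theorem thm_Nil (hRad : St_Rad) (hKrl : St_Krl) : St_Nil := by
  intro σ _ I p r t D hD ht hdet hsl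
  classical
  set T := Ideal.span (Set.range t) with hTdef
  set W : Matrix (Fin r) (Fin r) (MvPolynomial σ ℂ) := Matrix.of fun i j => D i (t j) with hW
  have hΔ : MvPolynomial.eval p W.det ≠ 0 := by
    rw [RingHom.map_det]
    exact hdet
  have hadj : ∀ i j, ∑ k, W.adjugate i k * D k (t j) = if i = j then W.det else 0 := by
    intro i j
    have h1 := congrFun (congrFun (Matrix.adjugate_mul W) i) j
    rw [Matrix.mul_apply, Matrix.smul_apply, Matrix.one_apply] at h1
    simp only [hW, Matrix.of_apply] at h1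
    rw [hW]
    rw [h1]
    simp
  have hD' : ∀ i, ∀ c, (∑ k, W.adjugate i k • D k) c = ∑ k, W.adjugate i k * D k c := by
    intro i c
    rw [nil_sum]
  have key : ∀ n : ℕ, 1 ≤ n → ∀ f : MvPolynomial σ ℂ, (∃ m : ℕ, f ^ m ∈ I) →
      ∃ h, MvPolynomial.eval p h ≠ 0 ∧ h * f ∈ I ⊔ T ^ n := by
    intro n hn
    induction n, hn using Nat.le_induction with
    | base =>
      intro f hf
      rw [pow_one]
      exact hsl f hf
    | succ n hn ih =>
      intro f hf
      refine nil_step hRad I p t (fun i => ∑ k, W.adjugate i k • D k) W.det hΔ ?_ ?_ n hn ih f hf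
      · intro i c hc
        rw [hD']
        exact Ideal.sum_mem _ fun k _ => Ideal.mul_mem_left _ _ (hD k c hc)
      · intro i j
        rw [hD']
        exact hadj i j
  intro f hf
  refine hKrl σ I T p ?_ f ?_
  · intro c hc
    have h1 : T ≤ RingHom.ker (MvPolynomial.eval p) := by
      rw [hTdef, Ideal.span_le]
      rintro _ ⟨j, rfl⟩
      exact ht j
    exact h1 hc
  · intro n
    rcases Nat.eq_zero_or_pos n with rfl | hn
    · exact ⟨1, by simp, by simp⟩
    · exact key n hn f hf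

end Pool.Agent.ALV
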