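import Pool.Agent.ALV.St

/-!
# ALV, module PIn (MP_c67a3f_ag): the invertible block
-/

set_option autoImplicit false

noncomputable section

namespace Pool.Agent.ALV

open Matrix

theorem thm_PIn : St_PIn := by
  classical
  intro g _ _ κ₁ τ _ _ _ κ c z hκ hc hcard hdet
  obtain ⟨a, ha, ha2⟩ := Matrix.exists_mulVec_eq_zero_iff.2 hdet
  apply ha
  have : Module.Finite ℂ g := Module.Finite.of_basis c
  obtain ⟨w, hw⟩ : ∃ w : g, w = ∑ j, a j • c (Sum.inl j) := ⟨_, rfl⟩
  have h1 : ∀ i, κ ⁅z, c i⁆ w = 0 := by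
    intro i
    rcases i with i | j
    · have h2 := congrFun ha2 i
      rw [Matrix.mulVec, dotProduct] at h2
      rw [hw, map_sum]
      simp only [map_smul, smul_eq_mul]
      rw [Pi.zero_apply] at h2
      rw [← h2]
      refine Finset.sum_congr rfl fun j _ => ?_
      rw [Matrix.of_apply, mul_comm]
    · have h2 : ⁅z, c (Sum.inr j)⁆ = 0 := hc j
      rw [h2, map_zero, LinearMap.zero_apply]
  have h2 : ∀ v : g, κ ⁅z, v⁆ w = 0 := by
    intro v
    rw [← c.sum_repr v, lie_sum, map_sum, LinearMap.sum_apply]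
    refine Finset.sum_eq_zero fun i _ => ?_
    rw [lie_smul, map_smul, LinearMap.smul_apply, h1, smul_zero]
  have h3 : ⁅z, w⁆ = 0 := by
    have h4 : ∀ v : g, κ ⁅z, w⁆ v = 0 := by
      intro v
      rw [hκ.1, ← hκ.2.1, ← lie_skew v z, map_neg, LinearMap.neg_apply, h2, neg_zero]
    exact hκ.2.2.1 _ h4
  have hw2 : w ∈ cen z := h3
  have hle : Submodule.span ℂ (Set.range fun j : τ => c (Sum.inr j)) ≤ cen z := by
    rw [Submodule.span_le]
    rintro _ ⟨j, rfl⟩
    exact hc j
  have hli : LinearIndependent ℂ fun j : τ => c (Sum.inr j) :=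
    c.linearIndependent.comp Sum.inr Sum.inr_injective
  have hfr : Module.finrank ℂ (Submodule.span ℂ (Set.range fun j : τ => c (Sum.inr j))) =
      Fintype.card τ := finrank_span_eq_card hli
  have hfg : Module.finrank ℂ g = Fintype.card κ₁ + Fintype.card τ := by
    rw [Module.finrank_eq_card_basis c, Fintype.card_sum]
  have heq : Submodule.span ℂ (Set.range fun j : τ => c (Sum.inr j)) = cen z := by
    apply Submodule.eq_of_le_of_finrank_eq hle
    omega
  rw [← heq] at hw2
  funext i
  have h5 : Submodule.span ℂ (Set.range fun j : τ => c (Sum.inr j)) ≤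
      LinearMap.ker (c.coord (Sum.inl i)) := by
    rw [Submodule.span_le]
    rintro _ ⟨j, rfl⟩
    show c.coord (Sum.inl i) (c (Sum.inr j)) = 0
    rw [Module.Basis.coord_apply, Module.Basis.repr_self, Finsupp.single_apply, if_neg (by simp)]
  have h6 : c.coord (Sum.inl i) w = 0 := h5 hw2
  rw [hw, map_sum] at h6
  rw [Finset.sum_eq_single i] at h6
  · rw [map_smul, Module.Basis.coord_apply, Module.Basis.repr_self, Finsupp.single_eq_same, smul_eq_mul,
      mul_one] at h6
    exact h6
  · intro j _ hj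
    rw [map_smul, Module.Basis.coord_apply, Module.Basis.repr_self, Finsupp.single_apply,
      if_neg (fun h => hj (Sum.inl_injective h)), smul_zero]
  · intro h
    exact absurd (Finset.mem_univ i) h

end Pool.Agent.ALV
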