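import Pool.Agent.ALV.St

/-!
Commuting schemes of Lie algebras (MP_c67a3f_ag), module Pff: Pfaffians of size four of the Schur complement vanish
if the rank is at most the size of the invertible block plus two.
-/

set_option autoImplicit false

namespace Pool.Agent.ALV

open Matrix

private theorem pff_rank_submatrix {K m n m' n' : Type} [Field K] [Fintype m] [Fintype n]
    [Fintype m'] [Fintype n'] [DecidableEq m] [DecidableEq n]
    (M : Matrix m n K) (r : m' → m) (c : n' → n) :
    (M.submatrix r c).rank ≤ M.rank := by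
  have h : M.submatrix r c = ((1 : Matrix m m K).submatrix r id) * M *
      ((1 : Matrix n n K).submatrix id c) := by
    ext i j
    simp [Matrix.mul_apply, Matrix.one_apply]
  rw [h]
  exact (Matrix.rank_mul_le_left _ _).trans (Matrix.rank_mul_le_right _ _)

private theorem pff_rank {O κ τ n : Type} [CommRing O] [IsDomain O] [Fintype κ] [Fintype τ]
    [Fintype n] [DecidableEq κ] [DecidableEq τ] [DecidableEq n] (P : Matrix κ κ O)
    (Q : Matrix κ τ O) (S : Matrix τ τ O) (hP : IsUnit P.det)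
    {K : Type} [Field K] (f : O →+* K) (hf : Function.Injective f) (r c : n → τ)
    (h : ((S + Qᵀ * P⁻¹ * Q).submatrix r c).det ≠ 0) :
    Fintype.card κ + Fintype.card n ≤ ((Matrix.fromBlocks P Q (-Qᵀ) S).map f).rank := by
  have hsub : ((Matrix.fromBlocks P Q (-Qᵀ) S).map f).submatrix (Sum.map id r) (Sum.map id c) =
      (Matrix.fromBlocks P (Q.submatrix id c) ((-Qᵀ).submatrix r id) (S.submatrix r c)).map f := by
    ext i j
    rcases i with i | i <;> rcases j with j | j <;> simp
  have hdet : (Matrix.fromBlocks P (Q.submatrix id c) ((-Qᵀ).submatrix r id)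
      (S.submatrix r c)).det = P.det * ((S + Qᵀ * P⁻¹ * Q).submatrix r c).det := by
    have : Invertible P := Matrix.invertibleOfIsUnitDet P hP
    rw [Matrix.det_fromBlocks₁₁]
    congr 2
    rw [Matrix.invOf_eq_nonsing_inv]
    ext i j
    simp [Matrix.mul_apply, Matrix.sub_apply, Matrix.add_apply]
  have hne : ((Matrix.fromBlocks P (Q.submatrix id c) ((-Qᵀ).submatrix r id)
      (S.submatrix r c)).map f).det ≠ 0 := by
    have h1 := RingHom.map_det f (Matrix.fromBlocks P (Q.submatrix id c) ((-Qᵀ).submatrix r id)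
      (S.submatrix r c))
    rw [RingHom.mapMatrix_apply] at h1
    rw [← h1, hdet]
    intro h0
    have h2 := hf (h0.trans (map_zero f).symm)
    rcases mul_eq_zero.mp h2 with h3 | h3
    · exact hP.ne_zero h3
    · exact h h3
  have hr := Matrix.rank_of_isUnit _ ((Matrix.isUnit_iff_isUnit_det _).mpr (isUnit_iff_ne_zero.mpr hne))
  rw [Fintype.card_sum] at hr
  rw [← hr, ← hsub]
  exact pff_rank_submatrix _ _ _

private theorem pff_det {O : Type} [CommRing O] (B : Matrix (Fin 4) (Fin 4) O)
    (h0 : ∀ i, B i i = 0) (h1 : ∀ i j, B i j = - B j i) :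
    B.det = (B 0 1 * B 2 3 - B 0 2 * B 1 3 + B 0 3 * B 1 2) ^ 2 := by
  have e10 := h1 1 0
  have e20 := h1 2 0
  have e30 := h1 3 0
  have e21 := h1 2 1
  have e31 := h1 3 1
  have e32 := h1 3 2
  have hB : B = !![0, B 0 1, B 0 2, B 0 3; -(B 0 1), 0, B 1 2, B 1 3;
      -(B 0 2), -(B 1 2), 0, B 2 3; -(B 0 3), -(B 1 3), -(B 2 3), 0] := by
    ext i j
    fin_cases i <;> fin_cases j <;> simp [h0, e10, e20, e30, e21, e31, e32]
  rw [hB]
  simp [Matrix.det_succ_row_zero, Fin.sum_univ_succ, Fin.succAbove, Matrix.submatrix]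
  ring

theorem thm_Pff : St_Pff := by
  intro O _ _ _ κ τ _ _ _ _ P Q S hPs hSs hP K _ f hf
  have hinv : (P⁻¹)ᵀ = -P⁻¹ := by
    rw [Matrix.transpose_nonsing_inv, hPs]
    apply Matrix.inv_eq_right_inv
    rw [neg_mul_neg, Matrix.mul_nonsing_inv _ hP]
  have hA : (S + Qᵀ * P⁻¹ * Q)ᵀ = -(S + Qᵀ * P⁻¹ * Q) := by
    rw [Matrix.transpose_add, hSs, Matrix.transpose_mul, Matrix.transpose_mul,
      Matrix.transpose_transpose, hinv, neg_add, ← Matrix.mul_assoc]
    simp
  have hskew : ∀ i j, (S + Qᵀ * P⁻¹ * Q) i j = -(S + Qᵀ * P⁻¹ * Q) j i := by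
    intro i j
    have := congrFun (congrFun hA j) i
    rw [Matrix.transpose_apply, Matrix.neg_apply] at this
    exact this
  have hdiag : ∀ i, (S + Qᵀ * P⁻¹ * Q) i i = 0 := by
    intro i
    exact self_eq_neg.mp (hskew i i)
  refine ⟨fun hr i j k l => ?_, fun hr => ?_⟩
  · by_contra hne
    have hd := pff_det ((S + Qᵀ * P⁻¹ * Q).submatrix ![i, j, k, l] ![i, j, k, l])
      (fun a => hdiag _) (fun a b => hskew _ _)
    have h2 := pff_rank P Q S hP f hf ![i, j, k, l] ![i, j, k, l] (by
      rw [hd]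
      exact pow_ne_zero 2 hne)
    rw [Fintype.card_fin] at h2
    omega
  · ext i j
    by_contra hne
    have h2 := pff_rank P Q S hP f hf (fun _ : Fin 1 => i) (fun _ : Fin 1 => j) (by
      rw [Matrix.det_fin_one]
      exact hne)
    rw [Fintype.card_fin] at h2
    omega

end Pool.Agent.ALV
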