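import Pool.Agent.ALV.St
import Pool.Agent.ANC.PrT

/-!
# ALV: PrL (products of Lie algebras)
-/

set_option autoImplicit false

noncomputable section

namespace Pool.Agent.ALV

open MvPolynomial

/-- the generator with the index `k` -/
def prl_gen {g : Type} [LieRing g] [LieAlgebra ℂ g] {ι : Type} [Fintype ι]
    (b : Module.Basis ι ℂ g) (k : ι) : MvPolynomial (ι ⊕ ι) ℂ :=
  ∑ i : ι, ∑ j : ι, MvPolynomial.C (b.repr ⁅b i, b j⁆ k) *
    MvPolynomial.X (Sum.inl i) * MvPolynomial.X (Sum.inr j)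

theorem prl_cI {g : Type} [LieRing g] [LieAlgebra ℂ g] {ι : Type} [Fintype ι]
    (b : Module.Basis ι ℂ g) : cI b = Ideal.span (Set.range (prl_gen b)) := rfl

theorem prl_genl {g g' : Type} [LieRing g] [LieAlgebra ℂ g] [LieRing g'] [LieAlgebra ℂ g']
    {ι ι' : Type} [Fintype ι] [Fintype ι'] (b : Module.Basis ι ℂ g) (b' : Module.Basis ι' ℂ g')
    (k : ι) : prl_gen (b.prod b') (Sum.inl k) =
      rename (Sum.map Sum.inl Sum.inl) (prl_gen b k) := by
  have h1 : ∀ i j : ι ⊕ ι', (b.prod b').repr ⁅(b.prod b') i, (b.prod b') j⁆ (Sum.inl k) =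
      b.repr ⁅((b.prod b') i).1, ((b.prod b') j).1⁆ k := by
    intro i j
    rw [Module.Basis.prod_repr_inl]
    rfl
  unfold prl_gen
  simp only [h1, Fintype.sum_sum_type, Module.Basis.prod_apply_inl_fst,
    Module.Basis.prod_apply_inr_fst, lie_zero, zero_lie, map_zero, Finsupp.zero_apply, zero_mul,
    Finset.sum_const_zero, add_zero, map_sum, map_mul, rename_C, rename_X, Sum.map_inl,
    Sum.map_inr]

theorem prl_genr {g g' : Type} [LieRing g] [LieAlgebra ℂ g] [LieRing g'] [LieAlgebra ℂ g']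
    {ι ι' : Type} [Fintype ι] [Fintype ι'] (b : Module.Basis ι ℂ g) (b' : Module.Basis ι' ℂ g')
    (k : ι') : prl_gen (b.prod b') (Sum.inr k) =
      rename (Sum.map Sum.inr Sum.inr) (prl_gen b' k) := by
  have h1 : ∀ i j : ι ⊕ ι', (b.prod b').repr ⁅(b.prod b') i, (b.prod b') j⁆ (Sum.inr k) =
      b'.repr ⁅((b.prod b') i).2, ((b.prod b') j).2⁆ k := by
    intro i j
    rw [Module.Basis.prod_repr_inr]
    rfl
  unfold prl_gen
  simp only [h1, Fintype.sum_sum_type, Module.Basis.prod_apply_inl_snd,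
    Module.Basis.prod_apply_inr_snd, lie_zero, zero_lie, map_zero, Finsupp.zero_apply, zero_mul,
    Finset.sum_const_zero, zero_add, map_sum, map_mul, rename_C, rename_X, Sum.map_inl,
    Sum.map_inr]

/-- the bijection of the variables -/
def prl_e (ι ι' : Type) : (ι ⊕ ι') ⊕ (ι ⊕ ι') → Empty ⊕ ((ι ⊕ ι) ⊕ (ι' ⊕ ι'))
  | Sum.inl (Sum.inl i) => Sum.inr (Sum.inl (Sum.inl i))
  | Sum.inl (Sum.inr j) => Sum.inr (Sum.inr (Sum.inl j))
  | Sum.inr (Sum.inl i) => Sum.inr (Sum.inl (Sum.inr i))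
  | Sum.inr (Sum.inr j) => Sum.inr (Sum.inr (Sum.inr j))

/-- its inverse -/
def prl_f (ι ι' : Type) : Empty ⊕ ((ι ⊕ ι) ⊕ (ι' ⊕ ι')) → (ι ⊕ ι') ⊕ (ι ⊕ ι')
  | Sum.inl t => t.elim
  | Sum.inr (Sum.inl (Sum.inl i)) => Sum.inl (Sum.inl i)
  | Sum.inr (Sum.inl (Sum.inr i)) => Sum.inr (Sum.inl i)
  | Sum.inr (Sum.inr (Sum.inl j)) => Sum.inl (Sum.inr j)
  | Sum.inr (Sum.inr (Sum.inr j)) => Sum.inr (Sum.inr j)

theorem thm_PrL (hTrp : St_Trp) : St_PrL := by
  intro g g' _ _ _ _ ι ι' _ _ b b' x y x' y' h h'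
  have hfe : prl_f ι ι' ∘ prl_e ι ι' = id := by
    funext s
    rcases s with (i | i) | (i | i) <;> rfl
  have hf1 : prl_f ι ι' ∘ (fun s : ι ⊕ ι => Sum.inr (Sum.inl s)) = Sum.map Sum.inl Sum.inl := by
    funext s
    rcases s with i | i <;> rfl
  have hf2 : prl_f ι ι' ∘ (fun s : ι' ⊕ ι' => Sum.inr (Sum.inr s)) = Sum.map Sum.inr Sum.inr := by
    funext s
    rcases s with i | i <;> rfl
  have he1 : prl_e ι ι' ∘ Sum.map Sum.inl Sum.inl = fun s : ι ⊕ ι => Sum.inr (Sum.inl s) := by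
    funext s
    rcases s with i | i <;> rfl
  have he2 : prl_e ι ι' ∘ Sum.map Sum.inr Sum.inr = fun s : ι' ⊕ ι' => Sum.inr (Sum.inr s) := by
    funext s
    rcases s with i | i <;> rfl
  have key := Pool.Agent.ANC.thm_PrT Empty (ι ⊕ ι) (ι' ⊕ ι') (cI b) (cI b') (co b x y)
    (co b' x' y') h h'
  have q1 : ∀ f : MvPolynomial (ι ⊕ ι) ℂ,
      eval (Sum.elim Empty.elim (Sum.elim (co b x y) (co b' x' y')) :
        Empty ⊕ ((ι ⊕ ι) ⊕ (ι' ⊕ ι')) → ℂ)
        (rename (fun s : ι ⊕ ι => Sum.inr (Sum.inl s)) f) = eval (co b x y) f := by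
    intro f
    rw [eval_rename]
    rfl
  have q2 : ∀ f : MvPolynomial (ι' ⊕ ι') ℂ,
      eval (Sum.elim Empty.elim (Sum.elim (co b x y) (co b' x' y')) :
        Empty ⊕ ((ι ⊕ ι) ⊕ (ι' ⊕ ι')) → ℂ)
        (rename (fun s : ι' ⊕ ι' => Sum.inr (Sum.inr s)) f) = eval (co b' x' y') f := by
    intro f
    rw [eval_rename]
    rfl
  have hq : co (b.prod b') (x, x') (y, y') ∘ prl_f ι ι' =
      (Sum.elim Empty.elim (Sum.elim (co b x y) (co b' x' y')) :
        Empty ⊕ ((ι ⊕ ι) ⊕ (ι' ⊕ ι')) → ℂ) := by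
    funext s
    rcases s with s | (i | i) | (i | i)
    · exact s.elim
    · exact Module.Basis.prod_repr_inl b b' (x, x') i
    · exact Module.Basis.prod_repr_inl b b' (y, y') i
    · exact Module.Basis.prod_repr_inr b b' (x, x') i
    · exact Module.Basis.prod_repr_inr b b' (y, y') i
  refine hTrp _ _ (cI (b.prod b')) ((cI b).map
      (MvPolynomial.rename (fun s => Sum.inr (Sum.inl s)) :
        MvPolynomial (ι ⊕ ι) ℂ →ₐ[ℂ] MvPolynomial (Empty ⊕ ((ι ⊕ ι) ⊕ (ι' ⊕ ι'))) ℂ) ⊔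
      (cI b').map (MvPolynomial.rename (fun s => Sum.inr (Sum.inr s)) :
        MvPolynomial (ι' ⊕ ι') ℂ →ₐ[ℂ] MvPolynomial (Empty ⊕ ((ι ⊕ ι) ⊕ (ι' ⊕ ι'))) ℂ))
    (co (b.prod b') (x, x') (y, y'))
    (Sum.elim Empty.elim (Sum.elim (co b x y) (co b' x' y'))) (rename (prl_f ι ι'))
    (rename (prl_e ι ι')) ?_ ?_ ?_ ?_ ?_
  · intro f
    rw [rename_rename, hfe, rename_id_apply, sub_self]
    exact zero_mem _
  · refine sup_le ?_ ?_
    · rw [Ideal.map_le_iff_le_comap, prl_cI, Ideal.span_le]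
      rintro _ ⟨k, rfl⟩
      show rename (prl_f ι ι') (rename _ (prl_gen b k)) ∈ cI (b.prod b')
      rw [rename_rename, hf1, ← prl_genl b b' k, prl_cI]
      exact Ideal.subset_span ⟨_, rfl⟩
    · rw [Ideal.map_le_iff_le_comap, prl_cI, Ideal.span_le]
      rintro _ ⟨k, rfl⟩
      show rename (prl_f ι ι') (rename _ (prl_gen b' k)) ∈ cI (b.prod b')
      rw [rename_rename, hf2, ← prl_genr b b' k, prl_cI]
      exact Ideal.subset_span ⟨_, rfl⟩
  · rw [prl_cI, Ideal.span_le]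
    rintro _ ⟨k | k, rfl⟩
    · rw [SetLike.mem_coe, Ideal.mem_comap, prl_genl, rename_rename, he1]
      refine Ideal.mem_sup_left (Ideal.mem_map_of_mem _ ?_)
      rw [prl_cI]
      exact Ideal.subset_span ⟨_, rfl⟩
    · rw [SetLike.mem_coe, Ideal.mem_comap, prl_genr, rename_rename, he2]
      refine Ideal.mem_sup_right (Ideal.mem_map_of_mem _ ?_)
      rw [prl_cI]
      exact Ideal.subset_span ⟨_, rfl⟩
  · intro f
    rw [eval_rename, hq]
  · intro F hF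
    obtain ⟨G, H, hG, hH, hGH⟩ := key F hF
    refine ⟨_, ?_, hGH⟩
    rw [map_mul, q1, q2]
    exact mul_ne_zero hG hH

end Pool.Agent.ALV
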