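import Pool.Agent.ALV.St

/-!
# ALV: the slice of a Levi type subalgebra (helper2)

`thm_Qtm : St_Qtm`, the statement Qtm of `Pool/Agent/ALV/St.lean`.
-/

set_option autoImplicit false

noncomputable section

namespace Pool.Agent.ALV

open Matrix

/-- An element of the subalgebra in terms of the basis of the algebra. -/
theorem qtm_sum {g : Type} [LieRing g] [LieAlgebra ℂ g] {l : LieSubalgebra ℂ g}
    {ι₁ ι₂ : Type} [Fintype ι₁] (b : Module.Basis (ι₁ ⊕ ι₂) ℂ g)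
    (b' : Module.Basis ι₁ ℂ l) (hb : ∀ i, b (Sum.inl i) = (b' i : g)) (u : l) :
    (u : g) = ∑ i, b'.repr u i • b (Sum.inl i) := by
  have h2 : l.incl (∑ i, b'.repr u i • b' i) = l.incl u := by rw [b'.sum_repr u]
  rw [map_sum] at h2
  simp only [map_smul, LieSubalgebra.coe_incl, ← hb] at h2
  exact h2.symm

/-- The coordinates of an element of the subalgebra. -/
theorem qtm_inl {g : Type} [LieRing g] [LieAlgebra ℂ g] {l : LieSubalgebra ℂ g}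
    {ι₁ ι₂ : Type} [Fintype ι₁] (b : Module.Basis (ι₁ ⊕ ι₂) ℂ g)
    (b' : Module.Basis ι₁ ℂ l) (hb : ∀ i, b (Sum.inl i) = (b' i : g)) (u : l) (i : ι₁) :
    b.repr (u : g) (Sum.inl i) = b'.repr u i := by
  classical
  rw [qtm_sum b b' hb u, map_sum, Finsupp.finsetSum_apply]
  simp [Finsupp.single_apply]

/-- The other coordinates of an element of the subalgebra. -/
theorem qtm_inr {g : Type} [LieRing g] [LieAlgebra ℂ g] {l : LieSubalgebra ℂ g}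
    {ι₁ ι₂ : Type} [Fintype ι₁] (b : Module.Basis (ι₁ ⊕ ι₂) ℂ g)
    (b' : Module.Basis ι₁ ℂ l) (hb : ∀ i, b (Sum.inl i) = (b' i : g)) (u : l) (i : ι₂) :
    b.repr (u : g) (Sum.inr i) = 0 := by
  rw [qtm_sum b b' hb u, map_sum, Finsupp.finsetSum_apply]
  simp

/-- The generator with the index `k`. -/
def qtm_G {g : Type} [LieRing g] [LieAlgebra ℂ g] {ι : Type} [Fintype ι]
    (b : Module.Basis ι ℂ g) (k : ι) : MvPolynomial (ι ⊕ ι) ℂ :=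
  ∑ i : ι, ∑ j : ι, MvPolynomial.C (b.repr ⁅b i, b j⁆ k) *
    MvPolynomial.X (Sum.inl i) * MvPolynomial.X (Sum.inr j)

theorem qtm_cI {g : Type} [LieRing g] [LieAlgebra ℂ g] {ι : Type} [Fintype ι]
    (b : Module.Basis ι ℂ g) : cI b = Ideal.span (Set.range (qtm_G b)) := rfl

/-- Set the variables outside the subalgebra to zero. -/
def qtm_r (ι₁ ι₂ : Type) :
    MvPolynomial ((ι₁ ⊕ ι₂) ⊕ (ι₁ ⊕ ι₂)) ℂ →ₐ[ℂ] MvPolynomial (ι₁ ⊕ ι₁) ℂ :=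
  MvPolynomial.aeval (Sum.elim
    (Sum.elim (fun i => MvPolynomial.X (Sum.inl i)) (fun _ => 0))
    (Sum.elim (fun i => MvPolynomial.X (Sum.inr i)) (fun _ => 0)))

/-- The inclusion of the polynomial rings. -/
def qtm_e (ι₁ ι₂ : Type) :
    MvPolynomial (ι₁ ⊕ ι₁) ℂ →ₐ[ℂ] MvPolynomial ((ι₁ ⊕ ι₂) ⊕ (ι₁ ⊕ ι₂)) ℂ :=
  MvPolynomial.rename (Sum.elim (fun i => Sum.inl (Sum.inl i)) (fun i => Sum.inr (Sum.inl i)))

/-- The ideal of the variables `x` outside the subalgebra. -/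
def qtm_T (ι₁ ι₂ : Type) : Ideal (MvPolynomial ((ι₁ ⊕ ι₂) ⊕ (ι₁ ⊕ ι₂)) ℂ) :=
  Ideal.span (Set.range fun j : ι₂ => MvPolynomial.X (Sum.inl (Sum.inr j)))

/-- The ideal of the variables `y` outside the subalgebra. -/
def qtm_V (ι₁ ι₂ : Type) : Ideal (MvPolynomial ((ι₁ ⊕ ι₂) ⊕ (ι₁ ⊕ ι₂)) ℂ) :=
  Ideal.span (Set.range fun j : ι₂ => MvPolynomial.X (Sum.inr (Sum.inr j)))

/-- Modulo the variables outside the subalgebra nothing changes. -/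
theorem qtm_sub (ι₁ ι₂ : Type) (f : MvPolynomial ((ι₁ ⊕ ι₂) ⊕ (ι₁ ⊕ ι₂)) ℂ) :
    f - qtm_e ι₁ ι₂ (qtm_r ι₁ ι₂ f) ∈ qtm_T ι₁ ι₂ ⊔ qtm_V ι₁ ι₂ := by
  rw [← Ideal.Quotient.eq]
  have key : Ideal.Quotient.mkₐ ℂ (qtm_T ι₁ ι₂ ⊔ qtm_V ι₁ ι₂) =
      (Ideal.Quotient.mkₐ ℂ (qtm_T ι₁ ι₂ ⊔ qtm_V ι₁ ι₂)).comp
        ((qtm_e ι₁ ι₂).comp (qtm_r ι₁ ι₂)) := by
    refine MvPolynomial.algHom_ext ?_
    rintro ((i | i) | (i | i))
    · simp [qtm_e, qtm_r]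
    · have h : (Ideal.Quotient.mkₐ ℂ (qtm_T ι₁ ι₂ ⊔ qtm_V ι₁ ι₂))
          (MvPolynomial.X (Sum.inl (Sum.inr i))) = 0 := by
        refine Ideal.Quotient.eq_zero_iff_mem.2 ?_
        exact Ideal.mem_sup_left (Ideal.subset_span ⟨i, rfl⟩)
      refine h.trans ?_
      simp [qtm_r]
    · simp [qtm_e, qtm_r]
    · have h : (Ideal.Quotient.mkₐ ℂ (qtm_T ι₁ ι₂ ⊔ qtm_V ι₁ ι₂))
          (MvPolynomial.X (Sum.inr (Sum.inr i))) = 0 := by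
        refine Ideal.Quotient.eq_zero_iff_mem.2 ?_
        exact Ideal.mem_sup_right (Ideal.subset_span ⟨i, rfl⟩)
      refine h.trans ?_
      simp [qtm_r]
  exact congrArg (fun φ => φ f) key

theorem qtm_rG {g : Type} [LieRing g] [LieAlgebra ℂ g] {l : LieSubalgebra ℂ g}
    {ι₁ ι₂ : Type} [Fintype ι₁] [Fintype ι₂] (b : Module.Basis (ι₁ ⊕ ι₂) ℂ g)
    (b' : Module.Basis ι₁ ℂ l) (hb : ∀ i, b (Sum.inl i) = (b' i : g)) (k : ι₁) :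
    qtm_r ι₁ ι₂ (qtm_G b (Sum.inl k)) = qtm_G b' k := by
  have h : ∀ i j : ι₁, b.repr ⁅b (Sum.inl i), b (Sum.inl j)⁆ (Sum.inl k) =
      b'.repr ⁅b' i, b' j⁆ k := by
    intro i j
    rw [hb, hb, ← LieSubalgebra.coe_bracket]
    exact qtm_inl b b' hb _ k
  simp [qtm_r, qtm_G, h, MvPolynomial.algebraMap_eq]

theorem qtm_rG0 {g : Type} [LieRing g] [LieAlgebra ℂ g] {l : LieSubalgebra ℂ g}
    {ι₁ ι₂ : Type} [Fintype ι₁] [Fintype ι₂] (b : Module.Basis (ι₁ ⊕ ι₂) ℂ g)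
    (b' : Module.Basis ι₁ ℂ l) (hb : ∀ i, b (Sum.inl i) = (b' i : g)) (k : ι₂) :
    qtm_r ι₁ ι₂ (qtm_G b (Sum.inr k)) = 0 := by
  have h : ∀ i j : ι₁, b.repr ⁅b (Sum.inl i), b (Sum.inl j)⁆ (Sum.inr k) = 0 := by
    intro i j
    rw [hb, hb, ← LieSubalgebra.coe_bracket]
    exact qtm_inr b b' hb _ k
  simp [qtm_r, qtm_G, h]

/-- The matrix of the slice. -/
def qtm_N {g : Type} [LieRing g] [LieAlgebra ℂ g] {ι₁ ι₂ : Type} [Fintype ι₁]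
    (b : Module.Basis (ι₁ ⊕ ι₂) ℂ g) :
    Matrix ι₂ ι₂ (MvPolynomial ((ι₁ ⊕ ι₂) ⊕ (ι₁ ⊕ ι₂)) ℂ) :=
  fun k j => ∑ i : ι₁, MvPolynomial.C (b.repr ⁅b (Sum.inl i), b (Sum.inr j)⁆ (Sum.inr k)) *
    MvPolynomial.X (Sum.inl (Sum.inl i))

/-- The equations modulo the ideal `T`. -/
theorem qtm_row {g : Type} [LieRing g] [LieAlgebra ℂ g] {l : LieSubalgebra ℂ g}
    {ι₁ ι₂ : Type} [Fintype ι₁] [Fintype ι₂] (b : Module.Basis (ι₁ ⊕ ι₂) ℂ g)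
    (b' : Module.Basis ι₁ ℂ l) (hb : ∀ i, b (Sum.inl i) = (b' i : g)) (k : ι₂) :
    ∑ j : ι₂, qtm_N b k j * MvPolynomial.X (Sum.inr (Sum.inr j)) ∈ cI b ⊔ qtm_T ι₁ ι₂ := by
  have h : ∀ i j : ι₁, b.repr ⁅b (Sum.inl i), b (Sum.inl j)⁆ (Sum.inr k) = 0 := by
    intro i j
    rw [hb, hb, ← LieSubalgebra.coe_bracket]
    exact qtm_inr b b' hb _ k
  have hG : qtm_G b (Sum.inr k) ∈ cI b ⊔ qtm_T ι₁ ι₂ :=
    Ideal.mem_sup_left (Ideal.subset_span ⟨_, rfl⟩)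
  have hR : ∑ i : ι₂, ∑ j : ι₁ ⊕ ι₂, MvPolynomial.C (b.repr ⁅b (Sum.inr i), b j⁆ (Sum.inr k)) *
      MvPolynomial.X (Sum.inl (Sum.inr i)) * MvPolynomial.X (Sum.inr j) ∈
        cI b ⊔ qtm_T ι₁ ι₂ := by
    refine Ideal.sum_mem _ fun i _ => Ideal.sum_mem _ fun j _ => ?_
    refine Ideal.mul_mem_right _ _ (Ideal.mul_mem_left _ _ ?_)
    exact Ideal.mem_sup_right (Ideal.subset_span ⟨i, rfl⟩)
  have e : ∑ j : ι₂, qtm_N b k j * MvPolynomial.X (Sum.inr (Sum.inr j)) =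
      qtm_G b (Sum.inr k) - ∑ i : ι₂, ∑ j : ι₁ ⊕ ι₂,
        MvPolynomial.C (b.repr ⁅b (Sum.inr i), b j⁆ (Sum.inr k)) *
        MvPolynomial.X (Sum.inl (Sum.inr i)) * MvPolynomial.X (Sum.inr j) := by
    rw [eq_sub_iff_add_eq]
    unfold qtm_G qtm_N
    rw [Fintype.sum_sum_type (fun i : ι₁ ⊕ ι₂ => ∑ j : ι₁ ⊕ ι₂,
      MvPolynomial.C (b.repr ⁅b i, b j⁆ (Sum.inr k)) *
        MvPolynomial.X (Sum.inl i) * MvPolynomial.X (Sum.inr j))]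
    congr 1
    simp only [Finset.sum_mul]
    rw [Finset.sum_comm]
    refine Finset.sum_congr rfl fun i _ => ?_
    rw [Fintype.sum_sum_type]
    rw [Finset.sum_eq_zero (s := Finset.univ) (f := fun j : ι₁ =>
      MvPolynomial.C (b.repr ⁅b (Sum.inl i), b (Sum.inl j)⁆ (Sum.inr k)) *
        MvPolynomial.X (Sum.inl (Sum.inl i)) *
          MvPolynomial.X (R := ℂ) (σ := (ι₁ ⊕ ι₂) ⊕ (ι₁ ⊕ ι₂)) (Sum.inr (Sum.inl j)))
      (fun j _ => by rw [h, MvPolynomial.C_0, zero_mul, zero_mul]), zero_add]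
  rw [e]
  exact Ideal.sub_mem _ hG hR

theorem thm_Qtm : St_Qtm := by
  intro g _ _ l ι₁ ι₂ _ _ _ b b' hb _ x y hdet hRd f hf
  obtain ⟨m, hm⟩ := hf
  -- the slice
  have hmap : cI b ≤ (cI b').comap (qtm_r ι₁ ι₂) := by
    rw [qtm_cI, Ideal.span_le]
    rintro _ ⟨k | k, rfl⟩
    · change qtm_r ι₁ ι₂ (qtm_G b (Sum.inl k)) ∈ cI b'
      rw [qtm_rG b b' hb k]
      exact Ideal.subset_span ⟨k, rfl⟩
    · change qtm_r ι₁ ι₂ (qtm_G b (Sum.inr k)) ∈ cI b'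
      rw [qtm_rG0 b b' hb k]
      exact Ideal.zero_mem _
  have hrm : (qtm_r ι₁ ι₂ f) ^ m ∈ cI b' := by
    rw [← map_pow]
    exact hmap hm
  obtain ⟨h₀, hh₀, hh₀f⟩ := hRd (qtm_r ι₁ ι₂ f) ⟨m, hrm⟩
  -- the inclusion
  have hinc : cI b' ≤ (cI b ⊔ (qtm_T ι₁ ι₂ ⊔ qtm_V ι₁ ι₂)).comap (qtm_e ι₁ ι₂) := by
    rw [qtm_cI, Ideal.span_le]
    rintro _ ⟨k, rfl⟩
    change qtm_e ι₁ ι₂ (qtm_G b' k) ∈ cI b ⊔ (qtm_T ι₁ ι₂ ⊔ qtm_V ι₁ ι₂)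
    have h1 := qtm_sub ι₁ ι₂ (qtm_G b (Sum.inl k))
    rw [qtm_rG b b' hb k] at h1
    have h2 : qtm_G b (Sum.inl k) ∈ cI b ⊔ (qtm_T ι₁ ι₂ ⊔ qtm_V ι₁ ι₂) :=
      Ideal.mem_sup_left (Ideal.subset_span ⟨_, rfl⟩)
    have h3 := Ideal.sub_mem _ h2 (Ideal.mem_sup_right h1 :
      qtm_G b (Sum.inl k) - qtm_e ι₁ ι₂ (qtm_G b' k) ∈
        cI b ⊔ (qtm_T ι₁ ι₂ ⊔ qtm_V ι₁ ι₂))
    rwa [sub_sub_cancel] at h3
  have hef : qtm_e ι₁ ι₂ h₀ * f ∈ cI b ⊔ (qtm_T ι₁ ι₂ ⊔ qtm_V ι₁ ι₂) := by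
    have e1 : qtm_e ι₁ ι₂ h₀ * f = qtm_e ι₁ ι₂ h₀ * (f - qtm_e ι₁ ι₂ (qtm_r ι₁ ι₂ f)) +
        qtm_e ι₁ ι₂ (h₀ * qtm_r ι₁ ι₂ f) := by
      rw [map_mul]
      ring
    rw [e1]
    exact Ideal.add_mem _ (Ideal.mul_mem_left _ _ (Ideal.mem_sup_right (qtm_sub ι₁ ι₂ f)))
      (hinc hh₀f)
  -- the determinant
  have hV : ∀ j : ι₂, (qtm_N b).det * MvPolynomial.X (Sum.inr (Sum.inr j)) ∈
      cI b ⊔ qtm_T ι₁ ι₂ := by
    intro j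
    have h1 : (qtm_N b).det * MvPolynomial.X (Sum.inr (Sum.inr j)) =
        ∑ k, (qtm_N b).adjugate j k *
          ∑ j' : ι₂, qtm_N b k j' * MvPolynomial.X (Sum.inr (Sum.inr j')) := by
      have h2 := congrArg (fun M : Matrix ι₂ ι₂ _ => M.mulVec
        (fun j' => MvPolynomial.X (Sum.inr (Sum.inr j'))) j) (Matrix.adjugate_mul (qtm_N b))
      simp only [← Matrix.mulVec_mulVec, Matrix.smul_mulVec, Matrix.one_mulVec,
        Pi.smul_apply, smul_eq_mul] at h2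
      rw [← h2]
      rfl
    rw [h1]
    exact Ideal.sum_mem _ fun k _ => Ideal.mul_mem_left _ _ (qtm_row b b' hb k)
  have hK : cI b ⊔ (qtm_T ι₁ ι₂ ⊔ qtm_V ι₁ ι₂) ≤
      Submodule.comap (LinearMap.mulLeft _ (qtm_N b).det) (cI b ⊔ qtm_T ι₁ ι₂) := by
    refine sup_le ?_ (sup_le ?_ ?_)
    · intro z hz
      exact Ideal.mul_mem_left _ _ (Ideal.mem_sup_left hz)
    · intro z hz
      exact Ideal.mul_mem_left _ _ (Ideal.mem_sup_right hz)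
    · refine Ideal.span_le.2 ?_
      rintro _ ⟨j, rfl⟩
      exact hV j
  have hfin : (qtm_N b).det * (qtm_e ι₁ ι₂ h₀ * f) ∈ cI b ⊔ qtm_T ι₁ ι₂ := hK hef
  -- the values
  have hcomp : (co b (x : g) (y : g)) ∘ (Sum.elim (fun i => Sum.inl (Sum.inl i))
      (fun i => Sum.inr (Sum.inl i))) = co b' x y := by
    funext s
    rcases s with i | i
    · exact qtm_inl b b' hb x i
    · exact qtm_inl b b' hb y i
  have hev : MvPolynomial.eval (co b (x : g) (y : g)) (qtm_e ι₁ ι₂ h₀) ≠ 0 := by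
    unfold qtm_e
    rw [MvPolynomial.eval_rename, hcomp]
    exact hh₀
  have hdt : MvPolynomial.eval (co b (x : g) (y : g)) (qtm_N b).det ≠ 0 := by
    rw [RingHom.map_det]
    have e2 : (MvPolynomial.eval (co b (x : g) (y : g))).mapMatrix (qtm_N b) =
        Matrix.of fun i j : ι₂ => b.repr ⁅(x : g), b (Sum.inr j)⁆ (Sum.inr i) := by
      ext k j
      rw [Matrix.of_apply, RingHom.mapMatrix_apply, Matrix.map_apply]
      unfold qtm_N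
      rw [map_sum]
      have e3 : b.repr ⁅(x : g), b (Sum.inr j)⁆ (Sum.inr k) =
          ∑ i, b'.repr x i * b.repr ⁅b (Sum.inl i), b (Sum.inr j)⁆ (Sum.inr k) := by
        conv_lhs => rw [qtm_sum b b' hb x]
        rw [sum_lie]
        simp
      rw [e3]
      refine Finset.sum_congr rfl fun i _ => ?_
      rw [map_mul, MvPolynomial.eval_C, MvPolynomial.eval_X, mul_comm]
      congr 1
      exact qtm_inl b b' hb x i
    rw [e2]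
    exact hdet
  refine ⟨(qtm_N b).det * qtm_e ι₁ ι₂ h₀, ?_, ?_⟩
  · rw [map_mul]
    exact mul_ne_zero hdt hev
  · rw [mul_assoc]
    exact hfin

end Pool.Agent.ALV
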