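import Pool.Agent.ALV.St

/-!
Commuting schemes of Lie algebras (MP_c67a3f_ag), module Rad: the radical of an ideal stable under a derivation.
-/

set_option autoImplicit false

namespace Pool.Agent.ALV

private theorem rad_pow {A : Type} [CommRing A] [Algebra ℂ A] (D : Derivation ℂ A A) (g : A) (n : ℕ) :
    D (g ^ n) * g = n * g ^ n * D g := by
  induction n with
  | zero => simp
  | succ n ih =>
    rw [pow_succ, Derivation.leibniz, smul_eq_mul, smul_eq_mul, add_mul]
    have : g * D (g ^ n) * g = g * (D (g ^ n) * g) := by ring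
    rw [this, ih]
    push_cast
    ring

private theorem rad_aux {A : Type} [CommRing A] [Algebra ℂ A] (I : Ideal A) (D : Derivation ℂ A A)
    (hD : ∀ f ∈ I, D f ∈ I) (f : A) (a : ℕ) : ∀ b : ℕ, f ^ a * (D f) ^ b ∈ I → ∃ k : ℕ, (D f) ^ k ∈ I := by
  induction a with
  | zero =>
    intro b hb
    exact ⟨b, by simpa using hb⟩
  | succ a ih =>
    intro b hb
    refine ih (b + 2) ?_
    have h1 : D (f ^ (a + 1) * (D f) ^ b) * D f ∈ I := I.mul_mem_right _ (hD _ hb)
    have h2 : D (f ^ (a + 1) * (D f) ^ b) * D f =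
        (b : A) * D (D f) * (f ^ (a + 1) * (D f) ^ b) + ((a : A) + 1) * (f ^ a * (D f) ^ (b + 2)) := by
      rw [Derivation.leibniz, smul_eq_mul, smul_eq_mul, add_mul]
      have h3 : f ^ (a + 1) * D ((D f) ^ b) * D f = f ^ (a + 1) * (D ((D f) ^ b) * D f) := by ring
      have h4 : D (f ^ (a + 1)) = ((a : A) + 1) * f ^ a * D f := by
        rw [Derivation.leibniz_pow]
        simp [nsmul_eq_mul]
        ring
      rw [h3, rad_pow, h4]
      ring
    rw [h2] at h1
    have h5 : ((a : A) + 1) * (f ^ a * (D f) ^ (b + 2)) ∈ I := by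
      have h6 := I.sub_mem h1 (I.mul_mem_left ((b : A) * D (D f)) hb)
      simpa using h6
    have h7 : algebraMap ℂ A (((a : ℂ) + 1)⁻¹) * (((a : A) + 1) * (f ^ a * (D f) ^ (b + 2))) =
        f ^ a * (D f) ^ (b + 2) := by
      have h8 : ((a : A) + 1) = algebraMap ℂ A ((a : ℂ) + 1) := by simp
      rw [h8, ← mul_assoc, ← map_mul, inv_mul_cancel₀ (Nat.cast_add_one_ne_zero a), map_one, one_mul]
    rw [← h7]
    exact I.mul_mem_left _ h5

theorem thm_Rad : St_Rad := by
  intro A _ _ I D hD f m hm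
  exact rad_aux I D hD f m 0 (by simpa using hm)

end Pool.Agent.ALV
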