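import Pool.Agent.ALV.St

/-!
Commuting schemes of Lie algebras (MP_c67a3f_ag), module Ree: the ideal of the maximal minors of a matrix with two
rows and three columns.
-/

set_option autoImplicit false

namespace Pool.Agent.ALV

open MvPolynomial

/-- The syzygies. -/
private theorem ree_syz {S : Type} [CommRing S] (a b c y0 y1 y2 F : S)
    (H0 : ∀ g : S, a * g = 0 → g = 0)
    (H1 : ∀ g : S, b * g ∈ Ideal.span {a} → g ∈ Ideal.span {a})
    (H2 : ∀ g : S, c * g ∈ Ideal.span {a, b} → g ∈ Ideal.span {a, b})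
    (H3 : ∀ g : S, y2 * g ∈ Ideal.span {a} → g ∈ Ideal.span {a})
    (H4 : ∀ g : S, (b * y0 + c * y1) * g ∈ Ideal.span {a, y2} → g ∈ Ideal.span {a, y2})
    (hF : ∃ l0 l1 l2 : S, a * F = l0 * (a * y1 + b * y2) + l1 * (-a * y0 + c * y2) + l2 * (-b * y0 - c * y1)) :
    ∃ l0 l1 l2 : S, F = l0 * (a * y1 + b * y2) + l1 * (-a * y0 + c * y2) + l2 * (-b * y0 - c * y1) := by
  obtain ⟨l0, l1, l2, h⟩ := hF
  have h4 : l2 ∈ Ideal.span {a, y2} := by
    apply H4
    rw [Ideal.mem_span_pair]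
    exact ⟨l0 * y1 - l1 * y0 - F, b * l0 + c * l1, by linear_combination -h⟩
  rw [Ideal.mem_span_pair] at h4
  obtain ⟨r2, mu, h2⟩ := h4
  have h3 : b * l0 + c * l1 - mu * (b * y0 + c * y1) ∈ Ideal.span {a} := by
    apply H3
    rw [Ideal.mem_span_singleton']
    exact ⟨F - l0 * y1 + l1 * y0 + r2 * (b * y0 + c * y1), by rw [← h2] at h; linear_combination h⟩
  rw [Ideal.mem_span_singleton'] at h3
  obtain ⟨ka, hk⟩ := h3
  have h5 : l1 - mu * y1 ∈ Ideal.span {a, b} := by
    apply H2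
    rw [Ideal.mem_span_pair]
    exact ⟨ka, -(l0 - mu * y0), by linear_combination hk⟩
  rw [Ideal.mem_span_pair] at h5
  obtain ⟨r1, nu, h6⟩ := h5
  have h7 : l0 - mu * y0 + c * nu ∈ Ideal.span {a} := by
    apply H1
    rw [Ideal.mem_span_singleton']
    exact ⟨ka - c * r1, by linear_combination hk - c * h6⟩
  rw [Ideal.mem_span_singleton'] at h7
  obtain ⟨r0, h8⟩ := h7
  refine ⟨r0, r1, nu + r2, ?_⟩
  have h9 : a * (F - (r0 * (a * y1 + b * y2) + r1 * (-a * y0 + c * y2) + (nu + r2) * (-b * y0 - c * y1))) = 0 := by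
    linear_combination h - (a * y1 + b * y2) * h8 - (-a * y0 + c * y2) * h6 - (-b * y0 - c * y1) * h2
  exact sub_eq_zero.1 (H0 _ h9)

section
variable {O : Type} [CommRing O] {σ : Type}

private theorem ree_C (a : O) (g : MvPolynomial σ O) :
    g ∈ Ideal.span {(C a : MvPolynomial σ O)} ↔ ∀ m, a ∣ coeff m g := by
  rw [Ideal.mem_span_singleton, C_dvd_iff_dvd_coeff]

private theorem ree_H1 (a b : O) (h : ∀ g, b * g ∈ Ideal.span {a} → g ∈ Ideal.span {a}) (g : MvPolynomial σ O)
    (hg : C b * g ∈ Ideal.span {(C a : MvPolynomial σ O)}) : g ∈ Ideal.span {(C a : MvPolynomial σ O)} := by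
  rw [ree_C] at hg ⊢
  intro m
  have h1 := hg m
  rw [coeff_C_mul] at h1
  exact Ideal.mem_span_singleton.1 (h _ (Ideal.mem_span_singleton.2 h1))

private theorem ree_H2 (a b c : O) (h : ∀ g, c * g ∈ Ideal.span {a, b} → g ∈ Ideal.span {a, b})
    (g : MvPolynomial σ O) (hg : C c * g ∈ Ideal.span {(C a : MvPolynomial σ O), C b}) :
    g ∈ Ideal.span {(C a : MvPolynomial σ O), C b} := by
  have h1 : Ideal.span {(C a : MvPolynomial σ O), C b} = (Ideal.span {a, b}).map C := by
    rw [Ideal.map_span, Set.image_pair]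
  rw [h1, mem_map_C_iff] at hg ⊢
  intro m
  have h2 := hg m
  rw [coeff_C_mul] at h2
  exact h _ h2

private theorem ree_H3 (a : O) (i : σ) (g : MvPolynomial σ O)
    (hg : X i * g ∈ Ideal.span {(C a : MvPolynomial σ O)}) : g ∈ Ideal.span {(C a : MvPolynomial σ O)} := by
  rw [ree_C] at hg ⊢
  intro m
  have h1 := hg (Finsupp.single i 1 + m)
  rwa [coeff_X_mul] at h1

private theorem ree_span (a : O) (i : σ) (g : MvPolynomial σ O) :
    g ∈ Ideal.span {(C a : MvPolynomial σ O), X i} ↔ ∀ m : σ →₀ ℕ, m i = 0 → a ∣ coeff m g := by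
  classical
  constructor
  · intro hg m hm
    rw [Ideal.mem_span_pair] at hg
    obtain ⟨u, v, rfl⟩ := hg
    rw [coeff_add, mul_comm u, coeff_C_mul, coeff_mul_X', if_neg (by simp [hm]), add_zero]
    exact dvd_mul_right _ _
  · intro h
    have h1 := divMonomial_add_modMonomial_single g i
    rw [← h1]
    refine add_mem (Ideal.mul_mem_right _ _ (Ideal.subset_span (by simp))) ?_
    have h2 : modMonomial g (Finsupp.single i 1) ∈ Ideal.span {(C a : MvPolynomial σ O)} := by
      rw [ree_C]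
      intro m
      by_cases hm : Finsupp.single i 1 ≤ m
      · rw [coeff_modMonomial_of_le _ hm]
        exact dvd_zero a
      · rw [coeff_modMonomial_of_not_le _ hm]
        refine h m ?_
        by_contra hne
        exact hm (Finsupp.single_le_iff.2 (Nat.one_le_iff_ne_zero.2 hne))
    exact Ideal.span_mono (by simp) h2

private theorem ree_H4 (a b c : O) (h : ∀ g, b * g ∈ Ideal.span {a} → g ∈ Ideal.span {a}) (i j k : σ)
    (hik : i ≠ k) (hij : i ≠ j) (g : MvPolynomial σ O)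
    (hg : (C b * X i + C c * X j) * g ∈ Ideal.span {(C a : MvPolynomial σ O), X k}) :
    g ∈ Ideal.span {(C a : MvPolynomial σ O), X k} := by
  classical
  rw [ree_span] at hg ⊢
  have key : ∀ n : ℕ, ∀ m : σ →₀ ℕ, m k = 0 → degreeOf i g + 1 ≤ m i + n → a ∣ coeff m g := by
    intro n
    induction n with
    | zero =>
      intro m _ hm
      have h0 : coeff m g = 0 := by
        by_contra hne
        have h1 := monomial_le_degreeOf i (mem_support_iff.2 hne)
        omega
      rw [h0]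
      exact dvd_zero a
    | succ n ih =>
      intro m hmk hm
      have h1 := hg (Finsupp.single i 1 + m) (by simp [hmk, hik])
      have h2 : coeff (Finsupp.single i 1 + m) ((C b * X i + C c * X j) * g) =
          b * coeff m g + c * (if j ∈ (Finsupp.single i 1 + m).support then
            coeff (Finsupp.single i 1 + m - Finsupp.single j 1) g else 0) := by
        rw [add_mul, coeff_add, mul_assoc, mul_assoc, coeff_C_mul, coeff_C_mul, coeff_X_mul, coeff_X_mul']
      rw [h2] at h1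
      have h3 : a ∣ c * (if j ∈ (Finsupp.single i 1 + m).support then
            coeff (Finsupp.single i 1 + m - Finsupp.single j 1) g else 0) := by
        split_ifs with hj
        · refine Dvd.dvd.mul_left (ih _ ?_ ?_) c
          · simp [hmk, hik]
          · have : (Finsupp.single i 1 + m - Finsupp.single j 1 : σ →₀ ℕ) i = 1 + m i := by
              simp [Ne.symm hij]
            rw [this]
            omega
        · simp
      have h4 : a ∣ b * coeff m g := (dvd_add_left h3).1 h1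
      exact Ideal.mem_span_singleton.1 (h _ (Ideal.mem_span_singleton.2 h4))
  intro m hm
  exact key (degreeOf i g + 1) m hm (by omega)

end

/-- The parametrisation. -/
private noncomputable def reeTh {O : Type} [CommRing O] (κ : Type) (a b c : O) :
    MvPolynomial (Fin 3 ⊕ κ) O →+* MvPolynomial (Unit ⊕ κ) O :=
  eval₂Hom C (Sum.elim ![C c * X (Sum.inl ()), -(C b * X (Sum.inl ())), C a * X (Sum.inl ())]
    fun k => X (Sum.inr k))

private theorem ree_mem {O : Type} [CommRing O] (κ : Type) [Fintype κ] (a b c : O) (F : MvPolynomial (Fin 3 ⊕ κ) O) :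
    F ∈ Pr (Matrix.fromBlocks (Bm a b c) 0 0 0 : Matrix (Fin 3 ⊕ κ) (Fin 3 ⊕ κ) O) ↔
    ∃ l0 l1 l2 : MvPolynomial (Fin 3 ⊕ κ) O, F = l0 * (C a * X (Sum.inl 1) + C b * X (Sum.inl 2)) +
      l1 * (-C a * X (Sum.inl 0) + C c * X (Sum.inl 2)) + l2 * (-C b * X (Sum.inl 0) - C c * X (Sum.inl 1)) := by
  have hr : ∀ i : Fin 3 ⊕ κ, (∑ j : Fin 3 ⊕ κ, C ((Matrix.fromBlocks (Bm a b c) 0 0 0 :
      Matrix (Fin 3 ⊕ κ) (Fin 3 ⊕ κ) O) i j) * X j : MvPolynomial (Fin 3 ⊕ κ) O) =
      Sum.elim ![C a * X (Sum.inl 1) + C b * X (Sum.inl 2), -C a * X (Sum.inl 0) + C c * X (Sum.inl 2),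
        -C b * X (Sum.inl 0) - C c * X (Sum.inl 1)] (fun _ => 0) i := by
    rintro (i | i)
    · rw [Fintype.sum_sum_type]
      fin_cases i <;> simp [Bm, Fin.sum_univ_three] <;> ring
    · rw [Fintype.sum_sum_type]
      simp
  constructor
  · intro hF
    unfold Pr at hF
    refine Submodule.span_induction (p := fun F _ => ∃ l0 l1 l2 : MvPolynomial (Fin 3 ⊕ κ) O,
      F = l0 * (C a * X (Sum.inl 1) + C b * X (Sum.inl 2)) + l1 * (-C a * X (Sum.inl 0) + C c * X (Sum.inl 2)) +
        l2 * (-C b * X (Sum.inl 0) - C c * X (Sum.inl 1))) ?_ ?_ ?_ ?_ hF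
    · rintro x ⟨i, rfl⟩
      simp only [hr]
      rcases i with i | i
      · fin_cases i
        · exact ⟨1, 0, 0, by simp⟩
        · exact ⟨0, 1, 0, by simp⟩
        · exact ⟨0, 0, 1, by simp⟩
      · exact ⟨0, 0, 0, by simp⟩
    · exact ⟨0, 0, 0, by simp⟩
    · rintro x y _ _ ⟨l0, l1, l2, hx⟩ ⟨k0, k1, k2, hy⟩
      exact ⟨l0 + k0, l1 + k1, l2 + k2, by rw [hx, hy]; ring⟩
    · rintro r x _ ⟨l0, l1, l2, hx⟩
      exact ⟨r * l0, r * l1, r * l2, by rw [smul_eq_mul, hx]; ring⟩
  · rintro ⟨l0, l1, l2, rfl⟩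
    have hg : ∀ i : Fin 3, (![C a * X (Sum.inl 1) + C b * X (Sum.inl 2), -C a * X (Sum.inl 0) + C c * X (Sum.inl 2),
        -C b * X (Sum.inl 0) - C c * X (Sum.inl 1)] : Fin 3 → MvPolynomial (Fin 3 ⊕ κ) O) i ∈
        Pr (Matrix.fromBlocks (Bm a b c) 0 0 0 : Matrix (Fin 3 ⊕ κ) (Fin 3 ⊕ κ) O) := by
      intro i
      refine Ideal.subset_span ⟨Sum.inl i, ?_⟩
      simp only [hr]
      rfl
    exact add_mem (add_mem (Ideal.mul_mem_left _ _ (hg 0)) (Ideal.mul_mem_left _ _ (hg 1)))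
      (Ideal.mul_mem_left _ _ (hg 2))

/-- `a` is not a zero divisor modulo the ideal. -/
private theorem ree_reg {O : Type} [CommRing O] [IsDomain O] (κ : Type) [Fintype κ] (a b c : O) (h : Rg3 a b c)
    (F : MvPolynomial (Fin 3 ⊕ κ) O)
    (hF : C a * F ∈ Pr (Matrix.fromBlocks (Bm a b c) 0 0 0 : Matrix (Fin 3 ⊕ κ) (Fin 3 ⊕ κ) O)) :
    F ∈ Pr (Matrix.fromBlocks (Bm a b c) 0 0 0 : Matrix (Fin 3 ⊕ κ) (Fin 3 ⊕ κ) O) := by
  rw [ree_mem] at hF ⊢
  refine ree_syz (C a) (C b) (C c) (X (Sum.inl 0)) (X (Sum.inl 1)) (X (Sum.inl 2)) F ?_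
    (fun g => ree_H1 a b h.2.1 g) (fun g => ree_H2 a b c h.2.2 g) (fun g => ree_H3 a _ g)
    (fun g => ree_H4 a b c h.2.1 _ _ _ (by simp) (by simp) g) hF
  intro g hg
  have ha : a ≠ 0 := by
    rintro rfl
    exact one_ne_zero (h.1 1 (zero_mul 1))
  have hC : (C a : MvPolynomial (Fin 3 ⊕ κ) O) ≠ 0 := by
    rwa [Ne, C_eq_zero]
  exact (mul_eq_zero.1 hg).resolve_left hC

private theorem ree_reg_pow {O : Type} [CommRing O] [IsDomain O] (κ : Type) [Fintype κ] (a b c : O) (h : Rg3 a b c)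
    (n : ℕ) : ∀ F : MvPolynomial (Fin 3 ⊕ κ) O,
    C a ^ n * F ∈ Pr (Matrix.fromBlocks (Bm a b c) 0 0 0 : Matrix (Fin 3 ⊕ κ) (Fin 3 ⊕ κ) O) →
    F ∈ Pr (Matrix.fromBlocks (Bm a b c) 0 0 0 : Matrix (Fin 3 ⊕ κ) (Fin 3 ⊕ κ) O) := by
  induction n with
  | zero =>
    intro F hF
    simpa using hF
  | succ n ih =>
    intro F hF
    refine ree_reg κ a b c h F (ih _ ?_)
    rw [pow_succ, mul_assoc] at hF
    exact hF

theorem thm_Ree : St_Ree := by
  intro O _ _ κ _ a b c h
  classical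
  set J : Ideal (MvPolynomial (Fin 3 ⊕ κ) O) :=
    Pr (Matrix.fromBlocks (Bm a b c) 0 0 0 : Matrix (Fin 3 ⊕ κ) (Fin 3 ⊕ κ) O) with hJ
  have hle : J ≤ RingHom.ker (reeTh κ a b c) := by
    intro F hF
    rw [hJ, ree_mem] at hF
    obtain ⟨l0, l1, l2, rfl⟩ := hF
    rw [RingHom.mem_ker]
    simp only [map_add, map_mul, map_sub, map_neg, reeTh, coe_eval₂Hom, eval₂_X, eval₂_C, Sum.elim_inl,
      Matrix.cons_val_zero, Matrix.cons_val_one, Matrix.cons_val]
    ring
  have hge : RingHom.ker (reeTh κ a b c) ≤ J := by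
    intro F hF
    rw [RingHom.mem_ker] at hF
    let Q := MvPolynomial (Fin 3 ⊕ κ) O ⧸ J
    let qa : Q := Ideal.Quotient.mk J (C a)
    let L := Localization.Away qa
    let f : Q →+* L := algebraMap Q L
    let u : L := IsLocalization.Away.invSelf qa
    have hu : f qa * u = 1 := IsLocalization.Away.mul_invSelf qa
    let η : MvPolynomial (Unit ⊕ κ) O →+* L :=
      eval₂Hom ((f.comp (Ideal.Quotient.mk J)).comp C)
        (Sum.elim (fun _ => f (Ideal.Quotient.mk J (X (Sum.inl 2))) * u)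
          fun k => f (Ideal.Quotient.mk J (X (Sum.inr k))))
    have hm1 : Ideal.Quotient.mk J (-C a * X (Sum.inl 0) + C c * X (Sum.inl 2)) = 0 := by
      rw [Ideal.Quotient.eq_zero_iff_mem, hJ, ree_mem]
      exact ⟨0, 1, 0, by ring⟩
    have hm0 : Ideal.Quotient.mk J (C a * X (Sum.inl 1) + C b * X (Sum.inl 2)) = 0 := by
      rw [Ideal.Quotient.eq_zero_iff_mem, hJ, ree_mem]
      exact ⟨1, 0, 0, by ring⟩
    have e1 : f qa * f (Ideal.Quotient.mk J (X (Sum.inl 0))) =
        f (Ideal.Quotient.mk J (C c)) * f (Ideal.Quotient.mk J (X (Sum.inl 2))) := by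
      have e := congrArg f hm1
      simp only [map_add, map_mul, map_neg, map_zero] at e
      linear_combination -e
    have e0 : f qa * f (Ideal.Quotient.mk J (X (Sum.inl 1))) =
        -(f (Ideal.Quotient.mk J (C b)) * f (Ideal.Quotient.mk J (X (Sum.inl 2)))) := by
      have e := congrArg f hm0
      simp only [map_add, map_mul, map_zero] at e
      linear_combination e
    have hη : η.comp (reeTh κ a b c) = f.comp (Ideal.Quotient.mk J) := by
      apply MvPolynomial.ringHom_ext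
      · intro r
        simp [η, reeTh]
      · rintro (i | k)
        · fin_cases i
          · simp [η, reeTh]
            linear_combination -u * e1 + f (Ideal.Quotient.mk J (X (Sum.inl 0))) * hu
          · simp [η, reeTh]
            linear_combination -u * e0 + f (Ideal.Quotient.mk J (X (Sum.inl 1))) * hu
          · simp [η, reeTh]
            linear_combination f (Ideal.Quotient.mk J (X (Sum.inl 2))) * hu
        · simp [η, reeTh]
    have h1 : f (Ideal.Quotient.mk J F) = 0 := by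
      have := congrArg (fun φ : MvPolynomial (Fin 3 ⊕ κ) O →+* L => φ F) hη
      simp only [RingHom.comp_apply] at this
      rw [← this, hF, map_zero]
    rw [IsLocalization.map_eq_zero_iff (Submonoid.powers qa) L] at h1
    obtain ⟨⟨m, n, rfl⟩, hm⟩ := h1
    refine ree_reg_pow κ a b c h n F ?_
    rw [← hJ, ← Ideal.Quotient.eq_zero_iff_mem, map_mul, map_pow]
    exact hm
  rw [le_antisymm hle hge]
  exact RingHom.ker_isPrime _

end Pool.Agent.ALV
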