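import Pool.Agent.ALV.St
import Pool.Agent.ACV.CI
import Pool.Agent.ACV.CMl
import Pool.Agent.ACV.Ass

/-!
# ALV, module Rgs: regular sequences and dimension
-/

set_option autoImplicit false

noncomputable section

namespace Pool.Agent.ALV

open MvPolynomial RingTheory.Sequence CategoryTheory CategoryTheory.Abelian
open Pool.Agent.Helper40.Licci (kk subsingleton_ext_of_weaklyRegular)

/-- the translation to the point `a` -/
private def rgs_tr {σ : Type} (a : σ → ℂ) : MvPolynomial σ ℂ ≃ₐ[ℂ] MvPolynomial σ ℂ :=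
  AlgEquiv.ofAlgHom (aeval fun i => X i - C (a i)) (aeval fun i => X i + C (a i))
    (by ext i; simp) (by ext i; simp)

private theorem rgs_weak {σ : Type} {c : ℕ} (e : Fin c ≃ σ) (a : σ → ℂ) :
    IsWeaklyRegular (MvPolynomial σ ℂ)
      (List.ofFn fun i => (X (e i) - C (a (e i)) : MvPolynomial σ ℂ)) := by
  have h := (rgs_tr a).toLinearEquiv.toAddEquiv.isWeaklyRegular_congr
    (as := List.ofFn fun i => (X (e i) : MvPolynomial σ ℂ))
    (bs := List.ofFn fun i => (X (e i) - C (a (e i)) : MvPolynomial σ ℂ)) (by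
      rw [List.forall₂_iff_get]
      refine ⟨by simp, ?_⟩
      intro i h1 h2 x
      simp only [List.get_eq_getElem, List.getElem_ofFn, smul_eq_mul]
      show rgs_tr a (X _ * x) = _ * rgs_tr a x
      rw [map_mul]
      congr 1
      simp [rgs_tr])
  exact h.1 (Pool.Agent.ACV.ci_weak e)

private theorem rgs_last {R : Type} [CommRing R] (L : List R) (D : R)
    (hw : IsWeaklyRegular R (L ++ [D])) (g : R) (hg : D * g ∈ Ideal.ofList L) :
    g ∈ Ideal.ofList L := by
  rw [isWeaklyRegular_append_iff] at hw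
  have h1 := hw.2
  rw [isWeaklyRegular_singleton_iff] at h1
  have e4 : (Ideal.ofList L • (⊤ : Submodule R R)) = Ideal.ofList L := by
    rw [smul_eq_mul, Ideal.mul_top]
  have h2 : (Submodule.Quotient.mk g : R ⧸ (Ideal.ofList L • (⊤ : Submodule R R))) = 0 := by
    apply h1
    show D • (Submodule.Quotient.mk g : R ⧸ (Ideal.ofList L • (⊤ : Submodule R R))) = D • 0
    rw [smul_zero, ← Submodule.Quotient.mk_smul, Submodule.Quotient.mk_eq_zero, e4]
    exact hg
  rw [Submodule.Quotient.mk_eq_zero, e4] at h2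
  exact h2

theorem thm_Rgs : St_Rgs := by
  classical
  intro ι _ z a b c ha hb hc hdim
  have mem_O : ∀ u : MvPolynomial ι ℂ, u ∈ mz z ↔ eval z u = 0 := fun u => RingHom.mem_ker
  have hmaxR : ∀ u : MvPolynomial ι ℂ, eval z u = 0 →
      algebraMap (MvPolynomial ι ℂ) (Oz z) u ∈ IsLocalRing.maximalIdeal (Oz z) := fun u hu =>
    (IsLocalization.AtPrime.to_map_mem_maximal_iff (Oz z) (mz z) u).2 ((mem_O u).2 hu)
  let e : Fin (Fintype.card ι) ≃ ι := (Fintype.equivFin ι).symm
  have hreg : IsRegular (Oz z) ((List.ofFn fun i => (X (e i) - C (z (e i)) : MvPolynomial ι ℂ)).map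
      (algebraMap (MvPolynomial ι ℂ) (Oz z))) := by
    refine (rgs_weak e z).isRegular_of_isLocalization_of_mem (S := Oz z) (mz z) ?_
    intro r hr
    rw [List.mem_ofFn] at hr
    obtain ⟨v, rfl⟩ := hr
    rw [mem_O]
    simp
  have hmem : ∀ r ∈ ((List.ofFn fun i => (X (e i) - C (z (e i)) : MvPolynomial ι ℂ)).map
      (algebraMap (MvPolynomial ι ℂ) (Oz z))), r ∈ IsLocalRing.maximalIdeal (Oz z) := by
    intro r hr
    rw [List.mem_map] at hr
    obtain ⟨u, hu, rfl⟩ := hr
    rw [List.mem_ofFn] at hu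
    obtain ⟨v, rfl⟩ := hu
    exact hmaxR _ (by simp)
  have hE : ∀ i < Fintype.card ι, Subsingleton (Ext (kk (Oz z)) (ModuleCat.of (Oz z) (Oz z)) i) := by
    intro i hi
    refine subsingleton_ext_of_weaklyRegular _ hmem (ModuleCat.of (Oz z) (Oz z)) hreg.toIsWeaklyRegular i ?_
    simpa using hi
  have h3 : Ideal.ofList [a, b, c] = Ideal.span {a, b, c} := by
    unfold Ideal.ofList
    congr 1
    ext r
    simp
  have h2 : Ideal.ofList [a, b] = Ideal.span {a, b} := by
    unfold Ideal.ofList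
    congr 1
    ext r
    simp
  have h1 : Ideal.ofList [a] = Ideal.span {a} := Ideal.ofList_singleton a
  have hw : IsWeaklyRegular (Oz z) ([a, b] ++ [c]) := by
    refine Pool.Agent.ACV.cml_main Pool.Agent.ACV.thm_Ass [a, b, c] (Oz z) (Fintype.card ι) ?_ hE ?_
    · intro r hr
      simp only [List.mem_cons, List.not_mem_nil, or_false] at hr
      rcases hr with rfl | rfl | rfl
      · exact ha
      · exact hb
      · exact hc
    · have e3 : (Ideal.ofList [a, b, c] • (⊤ : Submodule (Oz z) (Oz z))) = Ideal.span {a, b, c} := by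
        rw [h3, smul_eq_mul, Ideal.mul_top]
      rw [e3, Module.supportDim_quotient_eq_ringKrullDim]
      exact hdim
  have hw2 : IsWeaklyRegular (Oz z) ([a] ++ [b]) := ((isWeaklyRegular_append_iff _ _ _).1 hw).1
  have hw1 : IsWeaklyRegular (Oz z) ([] ++ [a]) := ((isWeaklyRegular_append_iff _ _ _).1 hw2).1
  refine ⟨fun g hg => ?_, fun g hg => ?_, fun g hg => ?_⟩
  · have h4 := rgs_last [] a hw1 g (by rw [hg]; exact Ideal.zero_mem _)
    rw [Ideal.ofList_nil] at h4
    exact h4
  · rw [← h1] at hg ⊢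
    exact rgs_last [a] b hw2 g hg
  · rw [← h2] at hg ⊢
    exact rgs_last [a, b] c hw g hg

end Pool.Agent.ALV
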