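import Pool.Agent.ALV.St

/-!
ALV (MP_c67a3f_ag), module Rkm: the rank of a matrix of polynomials is at most the maximal rank at
points.
-/

set_option autoImplicit false

namespace Pool.Agent.ALV

open Matrix Module

theorem rkm_cols {K : Type} [Field K] {m n : Type} [Fintype m] [Fintype n] (A : Matrix m n K)
    (k : ℕ) (hk : A.rank = k) :
    ∃ c : Fin k → n, LinearIndependent K (A.submatrix id c)ᵀ.row := by
  subst hk
  rw [A.rank_eq_finrank_span_cols]
  obtain ⟨f, hf, -, hli⟩ := Submodule.exists_fun_fin_finrank_span_eq K (Set.range A.col)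
  choose c hc using hf
  refine ⟨c, ?_⟩
  have h1 : (A.submatrix id c)ᵀ.row = f := by
    funext i
    rw [← hc i]
    rfl
  rw [h1]
  exact hli

/-- An invertible square submatrix of size `rank A`. -/
theorem rkm_minor {K : Type} [Field K] {ι : Type} [Fintype ι] (A : Matrix ι ι K) :
    ∃ r c : Fin A.rank → ι, (A.submatrix r c).det ≠ 0 := by
  obtain ⟨c, hc⟩ := rkm_cols A A.rank rfl
  have h1 : (A.submatrix id c)ᵀ.rank = A.rank := by
    rw [hc.rank_matrix, Fintype.card_fin]
  obtain ⟨r, hr⟩ := rkm_cols (A.submatrix id c)ᵀ A.rank h1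
  refine ⟨r, c, ?_⟩
  have h2 : ((A.submatrix id c)ᵀ.submatrix id r)ᵀ = A.submatrix r c := rfl
  rw [h2] at hr
  exact isUnit_iff_ne_zero.1 ((Matrix.isUnit_iff_isUnit_det _).1
    (Matrix.linearIndependent_rows_iff_isUnit.1 hr))

theorem thm_Rkm : St_Rkm := by
  intro σ _ ι _ _ M ρ hM K _ f hf
  obtain ⟨r, c, hrc⟩ := rkm_minor (M.map f)
  have h1 : ((M.submatrix r c).map f).det ≠ 0 := hrc
  have h2 : (M.submatrix r c).det ≠ 0 := by
    intro h
    apply h1
    have h0 := RingHom.map_det f (M.submatrix r c)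
    rw [h, map_zero] at h0
    exact h0.symm
  obtain ⟨s, hs⟩ : ∃ s : σ → ℂ, MvPolynomial.eval s (M.submatrix r c).det ≠ 0 := by
    by_contra hcon
    push Not at hcon
    exact h2 (MvPolynomial.funext fun s => by rw [hcon s, map_zero])
  have h3 : ((M.map (MvPolynomial.eval s)).submatrix r c).det ≠ 0 := by
    rw [RingHom.map_det] at hs
    exact hs
  have h4 := rank_submatrix_le (M.map (MvPolynomial.eval s)) r c
  have h5 : ((M.map (MvPolynomial.eval s)).submatrix r c).rank = (M.map f).rank := by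
    rw [rank_of_isUnit _ ((Matrix.isUnit_iff_isUnit_det _).2 (isUnit_iff_ne_zero.2 h3)),
      Fintype.card_fin]
  rw [h5] at h4
  exact h4.trans (hM s)

end Pool.Agent.ALV
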