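import Pool.Agent.ALV.St

/-!
# ALV.Rks: the rank of the matrix of the form at a point (helper65)
-/

set_option autoImplicit false

noncomputable section

namespace Pool.Agent.ALV

open Matrix

theorem thm_Rks (hMxP : St_MxP) : St_Rks := by
  intro g _ _ ι _ _ κ b hκ s
  have hm := (hMxP g ι ι κ b b hκ).1
  have hfd : FiniteDimensional ℂ g := Module.Finite.of_basis b
  have h1 : (Mx κ b b).map (MvPolynomial.eval (b.repr s)) =
      (LinearMap.toMatrix b b (LieAlgebra.ad ℂ g s))ᵀ * LinearMap.BilinForm.toMatrix b κ := by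
    ext i j
    rw [Matrix.map_apply, hm s i j, Matrix.mul_apply]
    have h2 : κ ⁅s, b i⁆ (b j) = ∑ k, b.repr ⁅s, b i⁆ k * κ (b k) (b j) := by
      conv_lhs => rw [← b.sum_repr ⁅s, b i⁆]
      rw [map_sum, LinearMap.sum_apply]
      refine Finset.sum_congr rfl fun k _ => ?_
      rw [map_smul, LinearMap.smul_apply, smul_eq_mul]
    rw [h2]
    refine Finset.sum_congr rfl fun k _ => ?_
    rw [Matrix.transpose_apply, LinearMap.toMatrix_apply, LinearMap.BilinForm.toMatrix_apply, LieAlgebra.ad_apply]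
  have hdet : IsUnit (LinearMap.BilinForm.toMatrix b κ).det :=
    isUnit_iff_ne_zero.2 ((LinearMap.BilinForm.nondegenerate_iff_det_ne_zero b).1 hκ.2.2)
  rw [h1, Matrix.rank_mul_eq_left_of_isUnit_det _ _ hdet, Matrix.rank_transpose,
    Matrix.rank_eq_finrank_range_toLin _ b b, Matrix.toLin_toMatrix]
  unfold cen
  rw [LinearMap.finrank_range_add_finrank_ker, Module.finrank_eq_card_basis b]

end Pool.Agent.ALV
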