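import Pool.Agent.ALV.St

/-!
# ALV: the first condition (SAm)
-/

set_option autoImplicit false

noncomputable section

namespace Pool.Agent.ALV

open Matrix

theorem sam_inj {ι : Type} (z : ι → ℂ) : Function.Injective (jO z) := by
  have h : Function.Injective (algebraMap (MvPolynomial ι ℂ) (Oz z)) :=
    IsLocalization.injective (Oz z) (mz z).primeCompl_le_nonZeroDivisors
  exact h

theorem sam_dom {ι : Type} (z : ι → ℂ) : IsDomain (Oz z) :=
  IsLocalization.isDomain_of_le_nonZeroDivisors (Oz z) (mz z).primeCompl_le_nonZeroDivisors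

theorem sam_char {ι : Type} (z : ι → ℂ) : CharZero (Oz z) :=
  charZero_of_injective_algebraMap (R := MvPolynomial ι ℂ) (sam_inj z)

/-- a polynomial which vanishes at `z` is in the maximal ideal -/
theorem sam_max {ι : Type} (z : ι → ℂ) (p : MvPolynomial ι ℂ) (h : MvPolynomial.eval z p = 0) :
    jO z p ∈ IsLocalRing.maximalIdeal (Oz z) := by
  have h1 : p ∈ mz z := RingHom.mem_ker.2 h
  exact (IsLocalization.AtPrime.to_map_mem_maximal_iff (Oz z) (mz z) p).2 h1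

/-- a polynomial which does not vanish at `z` is a unit -/
theorem sam_unit {ι : Type} (z : ι → ℂ) (p : MvPolynomial ι ℂ) (h : MvPolynomial.eval z p ≠ 0) :
    IsUnit (jO z p) := by
  have h1 : p ∉ mz z := fun h2 => h (RingHom.mem_ker.1 h2)
  exact IsLocalization.map_units (Oz z) (⟨p, h1⟩ : (mz z).primeCompl)

section

variable {g : Type} [LieRing g] [LieAlgebra ℂ g] {ι : Type} [Fintype ι] [DecidableEq ι]
  {κ : LinearMap.BilinForm ℂ g} (b : Module.Basis ι ℂ g)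

/-- change of the basis -/
theorem sam_cng (hCng : St_Cng) (hMxP : St_MxP) (hκ : Inv κ) {τ : Type} [Fintype τ]
    [DecidableEq τ] (c : Module.Basis τ ℂ g) {O : Type} [CommRing O]
    (f : MvPolynomial ι ℂ →+* O) (h : (Pr ((Mx κ b c).map f)).IsPrime) :
    (Pr ((Mx κ b b).map f)).IsPrime := by
  have e1 : (Mx κ b c).map f = ((cof b c).map f)ᵀ * (Mx κ b b).map f * (cof b c).map f := by
    rw [(hMxP g ι τ κ b c hκ).2.2.2]
    rw [Matrix.map_mul, Matrix.map_mul, Matrix.transpose_map]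
  have e2 : (cof b c).map f = ((b.toMatrix c).map MvPolynomial.C).map f := by
    ext i j
    rfl
  refine hCng O ι τ _ ((cof b c).map f) (((c.toMatrix b).map MvPolynomial.C).map f) ?_ ?_ ?_
  · rw [e2, ← Matrix.map_mul, ← Matrix.map_mul, Module.Basis.toMatrix_mul_toMatrix_flip]
    rw [Matrix.map_one _ (map_zero _) (map_one _), Matrix.map_one _ (map_zero _) (map_one _)]
  · rw [e2, ← Matrix.map_mul, ← Matrix.map_mul, Module.Basis.toMatrix_mul_toMatrix_flip]
    rw [Matrix.map_one _ (map_zero _) (map_one _), Matrix.map_one _ (map_zero _) (map_one _)]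
  · rw [← e1]
    exact h

/-- the rank at a point -/
theorem sam_rk (hMxP : St_MxP) (hRks : St_Rks) (hκ : Inv κ) {τ : Type} [Fintype τ]
    (c : Module.Basis τ ℂ g) (s : ι → ℂ) :
    ((Mx κ b c).map (MvPolynomial.eval s)).rank +
      Module.finrank ℂ (cen (b.equivFun.symm s)) ≤ Fintype.card ι := by
  have e1 : (Mx κ b c).map (MvPolynomial.eval s) = ((cof b c).map (MvPolynomial.eval s))ᵀ *
      (Mx κ b b).map (MvPolynomial.eval s) * (cof b c).map (MvPolynomial.eval s) := by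
    rw [(hMxP g ι τ κ b c hκ).2.2.2]
    rw [Matrix.map_mul, Matrix.map_mul, Matrix.transpose_map]
  have e2 : ((b.repr (b.equivFun.symm s) : ι →₀ ℂ) : ι → ℂ) = s := by
    rw [← Module.Basis.equivFun_apply, LinearEquiv.apply_symm_apply]
  have h1 := hRks g ι κ b hκ (b.equivFun.symm s)
  rw [e2] at h1
  have h2 : ((Mx κ b c).map (MvPolynomial.eval s)).rank ≤
      ((Mx κ b b).map (MvPolynomial.eval s)).rank := by
    rw [e1]
    exact (Matrix.rank_mul_le_left _ _).trans (Matrix.rank_mul_le_right _ _)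
  omega

/-- the value of `κ ⁅z, x⁆ y` for `y` in the centralizer -/
theorem sam_zero {κ : LinearMap.BilinForm ℂ g} (hκ : Inv κ) (z x y : g) (hy : y ∈ cen z) :
    κ ⁅z, x⁆ y = 0 := by
  have h1 : ⁅z, y⁆ = 0 := by
    have h2 := LinearMap.mem_ker.1 hy
    rwa [LieAlgebra.ad_apply] at h2
  have h3 := hκ.2.1 z y x
  rw [h1, map_zero, LinearMap.zero_apply] at h3
  rw [hκ.2.1 z x y, ← lie_skew, map_neg, ← h3, neg_zero]

omit [DecidableEq ι] in
/-- Pfaffians of the Schur complement -/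
theorem sam_pf (hPff : St_Pff) {O κ₁ τ : Type} [CommRing O] [IsDomain O] [CharZero O]
    [Fintype κ₁] [Fintype τ] [DecidableEq κ₁] [DecidableEq τ] (P : Matrix κ₁ κ₁ O)
    (Q : Matrix κ₁ τ O) (S : Matrix τ τ O) (hP : Pᵀ = -P) (hS : Sᵀ = -S) (hd : IsUnit P.det)
    (hrk : ∀ ρ : ℕ, ∀ (K : Type) [Field K] (f : O →+* K), Function.Injective f →
      (∀ s : g, Fintype.card ι ≤ ρ + Module.finrank ℂ (cen s)) →
      ((Matrix.fromBlocks P Q (-Qᵀ) S).map f).rank ≤ ρ) :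
    ((∀ s : g, Fintype.card ι ≤ Fintype.card κ₁ + 2 + Module.finrank ℂ (cen s)) →
      ∀ i j k l, pf (S + Qᵀ * P⁻¹ * Q) i j k l = 0) ∧
    ((∀ s : g, Fintype.card ι ≤ Fintype.card κ₁ + Module.finrank ℂ (cen s)) →
      S + Qᵀ * P⁻¹ * Q = 0) := by
  have h := hPff O κ₁ τ P Q S hP hS hd (FractionRing O) (algebraMap O (FractionRing O))
    (IsFractionRing.injective O (FractionRing O))
  exact ⟨fun h1 => h.1 (hrk _ (FractionRing O) (algebraMap O (FractionRing O))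
      (IsFractionRing.injective O (FractionRing O)) h1),
    fun h1 => h.2 (hrk _ (FractionRing O) (algebraMap O (FractionRing O))
      (IsFractionRing.injective O (FractionRing O)) h1)⟩

/-- the case of both kinds: a block decomposition of the matrix -/
theorem sam_blk (hCng : St_Cng) (hSch : St_Sch) (hRkm : St_Rkm) (hPff : St_Pff)
    (hMxP : St_MxP) (hRks : St_Rks) (hPIn : St_PIn) (hκ : Inv κ) (z : g)
    (κ₁ τ : Type) [Fintype κ₁] [Fintype τ] [DecidableEq κ₁] [DecidableEq τ]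
    (c : Module.Basis (κ₁ ⊕ τ) ℂ g) (hc : ∀ j, c (Sum.inr j) ∈ cen z)
    (hcard : Fintype.card κ₁ + Module.finrank ℂ (cen z) = Module.finrank ℂ g)
    (P : Matrix κ₁ κ₁ (Oz (b.repr z))) (Q : Matrix κ₁ τ (Oz (b.repr z)))
    (S : Matrix τ τ (Oz (b.repr z)))
    (hP : P = Matrix.of fun i j => jO (b.repr z) (Mx κ b c (Sum.inl i) (Sum.inl j)))
    (hQ : Q = Matrix.of fun i j => jO (b.repr z) (Mx κ b c (Sum.inl i) (Sum.inr j)))
    (hS : S = Matrix.of fun i j => jO (b.repr z) (Mx κ b c (Sum.inr i) (Sum.inr j))) :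
    Pᵀ = -P ∧ Sᵀ = -S ∧ IsUnit P.det ∧
    ((∀ s : g, Module.finrank ℂ (cen z) ≤ Module.finrank ℂ (cen s) + 2) →
      ∀ i j k l, pf (S + Qᵀ * P⁻¹ * Q) i j k l = 0) ∧
    ((∀ s : g, Module.finrank ℂ (cen z) ≤ Module.finrank ℂ (cen s)) →
      S + Qᵀ * P⁻¹ * Q = 0) ∧
    ((Pr (S + Qᵀ * P⁻¹ * Q)).IsPrime → (Pr ((Mx κ b b).map (jO (b.repr z)))).IsPrime) := by
  have _ := sam_dom (b.repr z : ι → ℂ)
  have _ := sam_char (b.repr z : ι → ℂ)
  obtain ⟨m1, m2, m3, m4⟩ := hMxP g ι (κ₁ ⊕ τ) κ b c hκ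
  have hsk : ∀ i j, Mx κ b c i j = -Mx κ b c j i := by
    intro i j
    have h := congrFun (congrFun m2 j) i
    simpa using h
  have hPt : Pᵀ = -P := by
    subst hP
    ext i j
    simp only [Matrix.transpose_apply, Matrix.of_apply, Matrix.neg_apply]
    rw [hsk, map_neg]
  have hSt : Sᵀ = -S := by
    subst hS
    ext i j
    simp only [Matrix.transpose_apply, Matrix.of_apply, Matrix.neg_apply]
    rw [hsk, map_neg]
  have hM : (Mx κ b c).map (jO (b.repr z)) = Matrix.fromBlocks P Q (-Qᵀ) S := by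
    subst hP hQ hS
    ext i j
    rcases i with i | i <;> rcases j with j | j
    · rfl
    · rfl
    · simp only [Matrix.map_apply, Matrix.fromBlocks_apply₂₁, Matrix.neg_apply,
        Matrix.transpose_apply, Matrix.of_apply]
      rw [hsk, map_neg]
    · rfl
  have hdet : IsUnit P.det := by
    have h1 : P = (Matrix.of fun i j => Mx κ b c (Sum.inl i) (Sum.inl j)).map
        (jO (b.repr z)) := by
      subst hP
      rfl
    have h2 : P.det = jO (b.repr z)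
        (Matrix.of fun i j => Mx κ b c (Sum.inl i) (Sum.inl j)).det := by
      rw [h1, RingHom.map_det]
      rfl
    rw [h2]
    refine sam_unit _ _ ?_
    have h3 := hPIn g κ₁ τ κ c z hκ hc hcard
    have h4 : MvPolynomial.eval (b.repr z : ι → ℂ)
        (Matrix.of fun i j => Mx κ b c (Sum.inl i) (Sum.inl j)).det =
        (Matrix.of fun i j : κ₁ => κ ⁅z, c (Sum.inl i)⁆ (c (Sum.inl j))).det := by
      rw [RingHom.map_det]
      congr 1
      ext i j
      exact m1 z (Sum.inl i) (Sum.inl j)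
    rw [h4]
    exact h3
  have hfr : Module.finrank ℂ g = Fintype.card ι := Module.finrank_eq_card_basis b
  have hrk : ∀ ρ : ℕ, ∀ (K : Type) [Field K] (f : Oz (b.repr z) →+* K), Function.Injective f →
      (∀ s : g, Fintype.card ι ≤ ρ + Module.finrank ℂ (cen s)) →
      ((Matrix.fromBlocks P Q (-Qᵀ) S).map f).rank ≤ ρ := by
    intro ρ K _ f hf hρ
    rw [← hM, Matrix.map_map]
    refine hRkm ι (κ₁ ⊕ τ) (Mx κ b c) ρ (fun s => ?_) K (f.comp (jO (b.repr z)))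
      (hf.comp (sam_inj _))
    have h1 := sam_rk b hMxP hRks hκ c s
    have h2 := hρ (b.equivFun.symm s)
    omega
  have hpf := sam_pf hPff P Q S hPt hSt hdet hrk
  refine ⟨hPt, hSt, hdet, fun h => hpf.1 fun s => ?_, fun h => hpf.2 fun s => ?_,
    fun h => ?_⟩
  · have := h s
    omega
  · have := h s
    omega
  · refine sam_cng b hCng hMxP hκ c (jO (b.repr z)) ?_
    rw [hM]
    exact hSch (Oz (b.repr z)) κ₁ τ P Q S hPt hdet h

end

/-- three elements with independent brackets are independent -/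
theorem sam_li {g : Type} [LieRing g] [LieAlgebra ℂ g] (u v w : g)
    (h : LinearIndependent ℂ ![⁅u, v⁆, ⁅u, w⁆, ⁅v, w⁆]) : LinearIndependent ℂ ![u, v, w] := by
  rw [Fintype.linearIndependent_iff] at h ⊢
  intro f hf
  rw [Fin.sum_univ_three] at hf
  simp only [Matrix.cons_val_zero, Matrix.cons_val_one, Matrix.cons_val] at hf
  have h1 : f 1 • ⁅u, v⁆ + f 2 • ⁅u, w⁆ = 0 := by
    have e := congrArg (fun x => ⁅u, x⁆) hf
    simpa [lie_add] using e
  have h2 := h ![f 1, f 2, 0] (by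
    rw [Fin.sum_univ_three]
    simpa using h1)
  have h3 : f 1 = 0 := h2 0
  have h4 : f 2 = 0 := h2 1
  have h5 : f 0 • ⁅u, v⁆ = 0 := by
    have e := congrArg (fun x => ⁅x, v⁆) hf
    simpa [h3, h4] using e
  have h6 := h ![f 0, 0, 0] (by
    rw [Fin.sum_univ_three]
    simpa using h5)
  have h7 : f 0 = 0 := h6 0
  intro i
  fin_cases i
  · exact h7
  · exact h3
  · exact h4

theorem sam_pr0 {O τ : Type} [CommRing O] [IsDomain O] [Fintype τ] :
    (Pr (0 : Matrix τ τ O)).IsPrime := by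
  have h : Pr (0 : Matrix τ τ O) = ⊥ := by
    unfold Pr
    rw [Ideal.span_eq_bot]
    rintro x ⟨i, rfl⟩
    simp
  rw [h]
  exact Ideal.isPrime_bot

/-- products of a matrix with entries in an ideal -/
theorem sam_sq {O κ₁ τ : Type} [CommRing O] [Fintype κ₁] (I : Ideal O)
    (Q : Matrix κ₁ τ O) (R : Matrix κ₁ κ₁ O) (hQ : ∀ i j, Q i j ∈ I) (i j : τ) :
    (Qᵀ * R * Q) i j ∈ I ^ 2 := by
  rw [Matrix.mul_apply, pow_two]
  refine Ideal.sum_mem _ fun k _ => Ideal.mul_mem_mul ?_ (hQ k j)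
  rw [Matrix.mul_apply]
  exact Ideal.sum_mem _ fun l _ => Ideal.mul_mem_right _ _ (hQ l i)

theorem sam_skew {O κ₁ τ : Type} [CommRing O] [IsDomain O] [CharZero O]
    [Fintype κ₁] [DecidableEq κ₁] (P : Matrix κ₁ κ₁ O)
    (Q : Matrix κ₁ τ O) (S : Matrix τ τ O) (hP : Pᵀ = -P) (hS : Sᵀ = -S) (hd : IsUnit P.det) :
    (S + Qᵀ * P⁻¹ * Q)ᵀ = -(S + Qᵀ * P⁻¹ * Q) ∧ ∀ i, (S + Qᵀ * P⁻¹ * Q) i i = 0 := by
  have h1 : (P⁻¹)ᵀ = -P⁻¹ := by
    rw [Matrix.transpose_nonsing_inv, hP]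
    refine Matrix.inv_eq_left_inv ?_
    rw [neg_mul_neg, Matrix.nonsing_inv_mul P hd]
  have h2 : (S + Qᵀ * P⁻¹ * Q)ᵀ = -(S + Qᵀ * P⁻¹ * Q) := by
    rw [Matrix.transpose_add, Matrix.transpose_mul, Matrix.transpose_mul,
      Matrix.transpose_transpose, h1, hS, Matrix.neg_mul, Matrix.mul_neg, neg_add,
      Matrix.mul_assoc]
  refine ⟨h2, fun i => ?_⟩
  have h3 := congrFun (congrFun h2 i) i
  rw [Matrix.transpose_apply, Matrix.neg_apply] at h3
  have h4 : (2 : O) * (S + Qᵀ * P⁻¹ * Q) i i = 0 := by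
    linear_combination h3
  rcases mul_eq_zero.1 h4 with h5 | h5
  · exact absurd h5 two_ne_zero
  · exact h5

/-- **SAm.** The first condition. -/
theorem thm_SAm (hCng : St_Cng) (hSch : St_Sch) (hRkm : St_Rkm) (hPff : St_Pff) (hNrm : St_Nrm)
    (hRee : St_Ree) (hRgs : St_Rgs) (hDmA : St_DmA) (hBss : St_Bss) (hMxP : St_MxP)
    (hRks : St_Rks) (hPIn : St_PIn) (hLfA : St_LfA) : St_SAm := by
  intro g _ _ ι _ _ κ b hκ z hz
  have _ : FiniteDimensional ℂ g := Module.Finite.of_basis b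
  have hdom := sam_dom (b.repr z : ι → ℂ)
  have hchar := sam_char (b.repr z : ι → ℂ)
  rcases hz with hz | ⟨hz, u, hu, v, hv, w, hw, hli⟩
  · obtain ⟨κ₁, κ₂, _, _, _, _, c, _, hc2, hc3⟩ := hBss g (cen z) 0 Fin.elim0
      (fun i => i.elim0) linearIndependent_empty_type
    obtain ⟨_, _, _, _, h2, h3⟩ := sam_blk b hCng hSch hRkm hPff hMxP hRks hPIn hκ z
      κ₁ (Fin 0 ⊕ κ₂) c hc2 hc3 _ _ _ rfl rfl rfl
    apply h3
    rw [h2 hz]
    exact sam_pr0
  · have hu3 := sam_li u v w hli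
    obtain ⟨κ₁, κ₂, _, _, _, _, c, hc1, hc2, hc3⟩ := hBss g (cen z) 3 ![u, v, w]
      (by
        intro i
        fin_cases i
        · exact hu
        · exact hv
        · exact hw) hu3
    obtain ⟨P, hP⟩ : ∃ P : Matrix κ₁ κ₁ (Oz (b.repr z)), P = Matrix.of fun i j =>
      jO (b.repr z) (Mx κ b c (Sum.inl i) (Sum.inl j)) := ⟨_, rfl⟩
    obtain ⟨Q, hQ⟩ : ∃ Q : Matrix κ₁ (Fin 3 ⊕ κ₂) (Oz (b.repr z)), Q = Matrix.of fun i j =>
      jO (b.repr z) (Mx κ b c (Sum.inl i) (Sum.inr j)) := ⟨_, rfl⟩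
    obtain ⟨S, hS⟩ : ∃ S : Matrix (Fin 3 ⊕ κ₂) (Fin 3 ⊕ κ₂) (Oz (b.repr z)),
      S = Matrix.of fun i j => jO (b.repr z) (Mx κ b c (Sum.inr i) (Sum.inr j)) := ⟨_, rfl⟩
    obtain ⟨hPt, hSt, hdet, h1, _, h3⟩ := sam_blk b hCng hSch hRkm hPff hMxP hRks hPIn hκ z
      κ₁ (Fin 3 ⊕ κ₂) c hc2 hc3 P Q S hP hQ hS
    have hpf := h1 hz
    obtain ⟨hA1, hA2⟩ := sam_skew P Q S hPt hSt hdet
    have hQm : ∀ i j, Q i j ∈ IsLocalRing.maximalIdeal (Oz (b.repr z)) := by
      intro i j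
      rw [hQ]
      refine sam_max _ _ ?_
      rw [(hMxP g ι _ κ b c hκ).1 z]
      exact sam_zero hκ z _ _ (hc2 j)
    have hsq : ∀ i j, (Qᵀ * P⁻¹ * Q) i j ∈ IsLocalRing.maximalIdeal (Oz (b.repr z)) ^ 2 :=
      sam_sq _ Q P⁻¹ hQm
    have hlin : ∀ i j, S i j = jO (b.repr z) (∑ k : ι, MvPolynomial.C
        (κ (b k) ⁅c (Sum.inr i), c (Sum.inr j)⁆) *
        (MvPolynomial.X k - MvPolynomial.C (b.repr z k))) := by
      intro i j
      rw [← (hLfA g ι κ b z hκ).1 (c (Sum.inr i)) (hc2 i) (c (Sum.inr j)), hS]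
      rfl
    have hli' := (hLfA g ι κ b z hκ).2 ![⁅u, v⁆, ⁅u, w⁆, ⁅v, w⁆] hli
    have hc0 : c (Sum.inr (Sum.inl 0)) = u := hc1 0
    have hc1' : c (Sum.inr (Sum.inl 1)) = v := hc1 1
    have hc2' : c (Sum.inr (Sum.inl 2)) = w := hc1 2
    generalize hAdef : S + Qᵀ * P⁻¹ * Q = A at hpf hA1 hA2 h3
    have hAe : ∀ i j, A i j - jO (b.repr z) (∑ k : ι, MvPolynomial.C
        (κ (b k) ⁅c (Sum.inr i), c (Sum.inr j)⁆) *
        (MvPolynomial.X k - MvPolynomial.C (b.repr z k))) ∈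
        IsLocalRing.maximalIdeal (Oz (b.repr z)) ^ 2 := by
      intro i j
      rw [← hlin i j, ← hAdef, Matrix.add_apply, add_sub_cancel_left]
      exact hsq i j
    obtain ⟨hm, hdim⟩ := hDmA ι (b.repr z) ![A (Sum.inl 0) (Sum.inl 1),
      A (Sum.inl 0) (Sum.inl 2), A (Sum.inl 1) (Sum.inl 2)]
      (fun (t : Fin 3) (k : ι) => κ (b k) (![⁅u, v⁆, ⁅u, w⁆, ⁅v, w⁆] t)) hli' (by
        intro t
        fin_cases t
        · have := hAe (Sum.inl 0) (Sum.inl 1)
          rw [hc0, hc1'] at this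
          exact this
        · have := hAe (Sum.inl 0) (Sum.inl 2)
          rw [hc0, hc2'] at this
          exact this
        · have := hAe (Sum.inl 1) (Sum.inl 2)
          rw [hc1', hc2'] at this
          exact this)
    have hRg := hRgs ι (b.repr z) _ _ _ (hm 0) (hm 1) (hm 2) hdim
    obtain ⟨C, C', hCC, hCC', hC⟩ := hNrm (Oz (b.repr z)) κ₂ A hA1 hA2 hpf hRg
    apply h3
    refine hCng (Oz (b.repr z)) (Fin 3 ⊕ κ₂) (Fin 3 ⊕ κ₂) A C C' hCC hCC' ?_
    rw [hC]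
    exact hRee (Oz (b.repr z)) κ₂ _ _ _ hRg

end Pool.Agent.ALV
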