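import Pool.Agent.ALV.St

/-!
# ALV, module SBm: assembly, the second condition (helper89)
-/

set_option autoImplicit false

noncomputable section

namespace Pool.Agent.ALV

open Matrix

/-! ### minors and the rank -/

private theorem sbm_minor {ι : Type} [Fintype ι] (M : Matrix ι ι ℂ) (q : ℕ) (h : q ≤ M.rank) :
    ∃ r c : Fin q → ι, (M.submatrix r c).det ≠ 0 := by
  classical
  rw [← Matrix.rank_transpose, Matrix.rank_eq_finrank_span_cols] at h
  obtain ⟨κ, a, ha, hspan, hli⟩ := exists_linearIndependent' ℂ (Mᵀ).col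
  have hκ : Finite κ := Finite.of_injective a ha
  have hκf : Fintype κ := Fintype.ofFinite κ
  rw [← hspan, finrank_span_eq_card hli] at h
  obtain ⟨e⟩ : Nonempty (Fin q ↪ κ) := Function.Embedding.nonempty_of_card_le (by
    rw [Fintype.card_fin]; exact h)
  have h3 : LinearIndependent ℂ (M.submatrix (fun s => a (e s)) id).row :=
    hli.comp e e.injective
  have h5 := h3.rank_matrix
  rw [Fintype.card_fin, Matrix.rank_eq_finrank_span_cols] at h5
  obtain ⟨κ', a', ha', hspan', hli'⟩ :=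
    exists_linearIndependent' ℂ (M.submatrix (fun s => a (e s)) id).col
  have hκ' : Finite κ' := Finite.of_injective a' ha'
  have hκf' : Fintype κ' := Fintype.ofFinite κ'
  rw [← hspan', finrank_span_eq_card hli'] at h5
  obtain ⟨e'⟩ : Nonempty (Fin q ↪ κ') := Function.Embedding.nonempty_of_card_le (by
    rw [Fintype.card_fin]; exact h5.ge)
  refine ⟨fun s => a (e s), fun s => a' (e' s), ?_⟩
  have h7 : LinearIndependent ℂ
      (fun i => (M.submatrix (fun s => a (e s)) id).col (a' (e' i))) :=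
    hli'.comp e' e'.injective
  have h8 : IsUnit (Matrix.of fun i s => (M.submatrix (fun s => a (e s)) id).col (a' (e' i)) s) :=
    Matrix.linearIndependent_rows_iff_isUnit.mp h7
  have h9 := ((Matrix.isUnit_iff_isUnit_det _).mp h8).ne_zero
  rw [← Matrix.det_transpose] at h9
  exact h9

/-! ### the local ring -/

private theorem sbm_unit {ι : Type} {z : ι → ℂ} {f : MvPolynomial ι ℂ}
    (h : MvPolynomial.eval z f ≠ 0) : IsUnit (jO z f) :=
  (IsLocalization.AtPrime.isUnit_to_map_iff (Oz z) (mz z) f).2 h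

private theorem sbm_max {ι : Type} {z : ι → ℂ} {f : MvPolynomial ι ℂ}
    (h : MvPolynomial.eval z f = 0) : jO z f ∈ IsLocalRing.maximalIdeal (Oz z) :=
  (IsLocalization.AtPrime.to_map_mem_maximal_iff (Oz z) (mz z) f).2 h

private theorem sbm_inj {ι : Type} (z : ι → ℂ) : Function.Injective (jO z) :=
  IsLocalization.injective (Oz z) (mz z).primeCompl_le_nonZeroDivisors

/-! ### the matrix of the form -/

section form

variable {g : Type} [LieRing g] [LieAlgebra ℂ g] {ι : Type} [Fintype ι]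

private theorem sbm_skew {κ : LinearMap.BilinForm ℂ g} (hκ : Inv κ) (s x y : g) :
    κ ⁅s, x⁆ y = -κ ⁅s, y⁆ x := by
  rw [← lie_skew s x, map_neg, LinearMap.neg_apply, hκ.2.1 x s y, hκ.1 x]

private theorem sbm_poly (b : Module.Basis ι ℂ g) {f : MvPolynomial ι ℂ}
    (h : ∀ s : g, MvPolynomial.eval (b.repr s) f = 0) : f = 0 := by
  refine MvPolynomial.funext fun v => ?_
  have := h (b.equivFun.symm v)
  have e : (⇑(b.repr (b.equivFun.symm v)) : ι → ℂ) = v := by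
    ext i
    rw [← Module.Basis.equivFun_apply, LinearEquiv.apply_symm_apply]
  rw [e] at this
  rw [this, map_zero]

private theorem sbm_ev {T : Type} {κ : LinearMap.BilinForm ℂ g} (hMxP : St_MxP) (hκ : Inv κ)
    (b : Module.Basis ι ℂ g) (C : Matrix ι T (MvPolynomial ι ℂ)) (s : g) (i j : T) :
    MvPolynomial.eval (b.repr s) ((Cᵀ * Mx κ b b * C) i j) =
      κ ⁅s, vl b (fun k => C k i) s⁆ (vl b (fun k => C k j) s) := by
  have h1 := (hMxP g ι ι κ b b hκ).1 s
  simp only [vl, Matrix.mul_apply, Matrix.transpose_apply, map_sum, map_mul, h1, lie_sum,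
    lie_smul, LinearMap.sum_apply, map_smul, LinearMap.smul_apply, smul_eq_mul,
    Finset.sum_mul, Finset.mul_sum]
  refine Finset.sum_congr rfl fun x _ => Finset.sum_congr rfl fun y _ => ?_
  ring

private theorem sbm_const (b : Module.Basis ι ℂ g) (v s : g) :
    vl b (fun k => MvPolynomial.C (b.repr v k)) s = v := by
  simp only [vl, MvPolynomial.eval_C]
  exact b.sum_repr v

/-- the adapted basis with three more elements -/
private theorem sbm_basis (hBss : St_Bss) [DecidableEq ι] (b : Module.Basis ι ℂ g) (z : g) (e : ℕ)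
    (u : Fin e → g) (hu : ∀ i, u i ∈ cen z) (hul : LinearIndependent ℂ u)
    (he : Module.finrank ℂ (cen z) = e + 3) :
    ∃ (κ₁ : Type) (_ : Fintype κ₁) (_ : DecidableEq κ₁)
      (c : Module.Basis (κ₁ ⊕ (Fin 3 ⊕ Fin e)) ℂ g), (∀ i, c (Sum.inr (Sum.inr i)) = u i) ∧
      (∀ j, c (Sum.inr j) ∈ cen z) ∧
      Fintype.card κ₁ + Module.finrank ℂ (cen z) = Module.finrank ℂ g := by
  have hfd : FiniteDimensional ℂ g := Module.Basis.finiteDimensional_of_finite b
  obtain ⟨κ₁, κ₂, _, _, _, _, c, hc1, hc2, hc3⟩ := hBss g (cen z) e u hu hul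
  have h1 := Module.finrank_eq_card_basis c
  rw [Fintype.card_sum, Fintype.card_sum, Fintype.card_fin] at h1
  have h2 : Fintype.card κ₂ = 3 := by omega
  have ε : κ₂ ≃ Fin 3 := Fintype.equivFinOfCardEq h2
  refine ⟨κ₁, inferInstance, inferInstance, c.reindex (Equiv.sumCongr (Equiv.refl κ₁)
    ((Equiv.sumComm (Fin e) κ₂).trans (Equiv.sumCongr ε (Equiv.refl (Fin e))))), ?_, ?_, hc3⟩
  · intro i
    rw [Module.Basis.reindex_apply]
    exact hc1 i
  · rintro (j | j)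
    · rw [Module.Basis.reindex_apply]
      exact hc2 _
    · rw [Module.Basis.reindex_apply]
      exact hc2 _

end form

/-! ### linear algebra over a ring -/

/-- The matrix with the columns `C` is invertible if its values at a point are a base change. -/
private theorem sbm_inv {O ι T : Type} [CommRing O] [Fintype ι] [Fintype T] [DecidableEq ι]
    [DecidableEq T] (C B : Matrix ι T O) (D : Matrix T ι O) (h1 : B * D = 1)
    (h : IsUnit (D * C).det) : ∃ C' : Matrix T ι O, C * C' = 1 ∧ C' * C = 1 := by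
  refine ⟨(D * C)⁻¹ * D, ?_, ?_⟩
  · calc C * ((D * C)⁻¹ * D) = (B * D) * (C * ((D * C)⁻¹ * D)) := by rw [h1, Matrix.one_mul]
      _ = B * ((D * C) * (D * C)⁻¹) * D := by simp only [Matrix.mul_assoc]
      _ = 1 := by rw [Matrix.mul_nonsing_inv _ h, Matrix.mul_one, h1]
  · rw [Matrix.mul_assoc, Matrix.nonsing_inv_mul _ h]

/-- The inverse of a skew matrix is skew. -/
private theorem sbm_invskew {O κ : Type} [CommRing O] [Fintype κ] [DecidableEq κ]
    (P : Matrix κ κ O) (hP : Pᵀ = -P) (hu : IsUnit P.det) : (P⁻¹)ᵀ = -P⁻¹ := by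
  have h1 : (P⁻¹)ᵀ * P = -1 := by
    have : (P⁻¹)ᵀ * Pᵀ = 1 := by
      rw [← Matrix.transpose_mul, Matrix.mul_nonsing_inv _ hu, Matrix.transpose_one]
    rw [hP, Matrix.mul_neg] at this
    rw [← this, neg_neg]
  calc (P⁻¹)ᵀ = (P⁻¹)ᵀ * (P * P⁻¹) := by rw [Matrix.mul_nonsing_inv _ hu, Matrix.mul_one]
    _ = ((P⁻¹)ᵀ * P) * P⁻¹ := by rw [Matrix.mul_assoc]
    _ = -P⁻¹ := by rw [h1, Matrix.neg_mul, Matrix.one_mul]

/-- The congruence of the Schur complement. -/
private theorem sbm_schur {O κ τ : Type} [CommRing O] [Fintype κ] [Fintype τ]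
    [DecidableEq κ] [DecidableEq τ] (P : Matrix κ κ O) (Q : Matrix κ τ O) (S : Matrix τ τ O)
    (hP : Pᵀ = -P) (hu : IsUnit P.det) :
    (Matrix.fromBlocks 1 (-(P⁻¹ * Q)) 0 1)ᵀ * Matrix.fromBlocks P Q (-Qᵀ) S *
      Matrix.fromBlocks 1 (-(P⁻¹ * Q)) 0 1 = Matrix.fromBlocks P 0 0 (S + Qᵀ * P⁻¹ * Q) := by
  have h1 : (-(P⁻¹ * Q))ᵀ = Qᵀ * P⁻¹ := by
    rw [Matrix.transpose_neg, Matrix.transpose_mul, sbm_invskew P hP hu, Matrix.mul_neg, neg_neg]
  have h2 : Qᵀ * P⁻¹ * P = Qᵀ := by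
    rw [Matrix.mul_assoc, Matrix.nonsing_inv_mul _ hu, Matrix.mul_one]
  have h3 : P * (P⁻¹ * Q) = Q := by
    rw [← Matrix.mul_assoc, Matrix.mul_nonsing_inv _ hu, Matrix.one_mul]
  rw [Matrix.fromBlocks_transpose, h1, Matrix.transpose_one, Matrix.transpose_one,
    Matrix.transpose_zero, Matrix.fromBlocks_multiply, Matrix.fromBlocks_multiply]
  simp only [Matrix.one_mul, Matrix.zero_mul, Matrix.mul_one, Matrix.mul_zero, add_zero, h2,
    Matrix.mul_neg, h3, neg_add_cancel, add_neg_cancel, neg_zero, zero_add]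
  rw [add_comm]

private theorem sbm_schur_inv {O κ τ : Type} [CommRing O] [Fintype κ] [Fintype τ]
    [DecidableEq κ] [DecidableEq τ] (X : Matrix κ τ O) :
    Matrix.fromBlocks (1 : Matrix κ κ O) (-X) 0 (1 : Matrix τ τ O) *
      Matrix.fromBlocks 1 X 0 1 = 1 ∧
    Matrix.fromBlocks (1 : Matrix κ κ O) X 0 (1 : Matrix τ τ O) *
      Matrix.fromBlocks 1 (-X) 0 1 = 1 := by
  constructor
  · rw [Matrix.fromBlocks_multiply]
    simp
  · rw [Matrix.fromBlocks_multiply]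
    simp

private theorem sbm_blk {O κ : Type} [CommRing O] (A : Matrix (Fin 3 ⊕ κ) (Fin 3 ⊕ κ) O)
    (h1 : ∀ i j, A j i = -A i j) (h2 : ∀ i, A i i = 0) (h3 : ∀ l j, A (Sum.inr l) j = 0)
    (h4 : ∀ l j, A j (Sum.inr l) = 0) :
    A = Matrix.fromBlocks (Bm (A (Sum.inl 0) (Sum.inl 1)) (A (Sum.inl 0) (Sum.inl 2))
      (A (Sum.inl 1) (Sum.inl 2))) 0 0 0 := by
  ext i j
  rcases i with i | i
  · rcases j with j | j
    · rw [Matrix.fromBlocks_apply₁₁]
      fin_cases i <;> fin_cases j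
      · exact h2 _
      · rfl
      · rfl
      · exact h1 _ _
      · exact h2 _
      · rfl
      · exact h1 _ _
      · exact h1 _ _
      · exact h2 _
    · rw [h4]
      rfl
  · rw [h3]
    rcases j with j | j <;> rfl

/-- **SBm** -/
theorem thm_SBm (hCng : St_Cng) (hSch : St_Sch) (hRee : St_Ree) (hMnB : St_MnB)
    (hRgs : St_Rgs) (hDmB : St_DmB) (hBss : St_Bss) (hMxP : St_MxP) (hRks : St_Rks)
    (hPIn : St_PIn) : St_SBm := by
  intro g _ _ ι _ _ κ b hκ z hz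
  classical
  obtain ⟨⟨e, P, hd, hP, hPl⟩, E, h, hE, hh, hEs⟩ := hz
  have hu : ∀ i, vl b (P i) z ∈ cen z := fun i => LinearMap.mem_ker.2 (hP i z)
  obtain ⟨κ₁, _, _, c, hc1, hc2, hc3⟩ := sbm_basis hBss b z e _ hu hPl hd
  have hN : Module.finrank ℂ g = Fintype.card ι := Module.finrank_eq_card_basis b
  -- the matrix of the columns
  obtain ⟨C, hC1, hC2, hC3⟩ : ∃ C : Matrix ι (κ₁ ⊕ (Fin 3 ⊕ Fin e)) (MvPolynomial ι ℂ),
      (∀ i s, vl b (fun k => C k (Sum.inl i)) s = c (Sum.inl i)) ∧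
      (∀ i s, vl b (fun k => C k (Sum.inr (Sum.inl i))) s = c (Sum.inr (Sum.inl i))) ∧
      (∀ i s, vl b (fun k => C k (Sum.inr (Sum.inr i))) s = vl b (P i) s) := by
    refine ⟨fun k j => Sum.elim (fun i => MvPolynomial.C (b.repr (c (Sum.inl i)) k))
      (Sum.elim (fun i => MvPolynomial.C (b.repr (c (Sum.inr (Sum.inl i))) k))
        (fun i => P i k)) j, fun i s => ?_, fun i s => ?_, fun i s => rfl⟩
    · exact sbm_const b _ s
    · exact sbm_const b _ s
  have hCz : ∀ j, vl b (fun k => C k j) z = c j := by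
    rintro (j | j | j)
    · exact hC1 j z
    · exact hC2 j z
    · rw [hC3 j z, hc1]
  have hCP : ∀ l s, ⁅s, vl b (fun k => C k (Sum.inr (Sum.inr l))) s⁆ = 0 := fun l s => by
    rw [hC3]
    exact hP l s
  have hCe : ∀ k j, MvPolynomial.eval (b.repr z) (C k j) = b.repr (c j) k := fun k j => by
    rw [← hCz j, vl, Module.Basis.repr_sum_self]
  obtain ⟨B, hB⟩ : ∃ B, B = Cᵀ * Mx κ b b * C := ⟨_, rfl⟩
  have hBev : ∀ s i j, MvPolynomial.eval (b.repr s) (B i j) =
      κ ⁅s, vl b (fun k => C k i) s⁆ (vl b (fun k => C k j) s) := fun s i j => by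
    rw [hB]
    exact sbm_ev hMxP hκ b C s i j
  have hB1 : ∀ l j, B (Sum.inr (Sum.inr l)) j = 0 := fun l j => sbm_poly b fun s => by
    rw [hBev, hCP, map_zero, LinearMap.zero_apply]
  have hB3 : ∀ i j, B j i = -B i j := fun i j => by
    rw [← sub_eq_zero]
    refine sbm_poly b fun s => ?_
    rw [map_sub, map_neg, hBev, hBev, sbm_skew hκ, sub_self]
  have hB2 : ∀ l j, B j (Sum.inr (Sum.inr l)) = 0 := fun l j => by
    rw [hB3, hB1, neg_zero]
  have hB5 : ∀ i j, MvPolynomial.eval (b.repr z) (B i (Sum.inr j)) = 0 := fun i j => by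
    rw [hBev, sbm_skew hκ, hCz (Sum.inr j)]
    have : ⁅z, c (Sum.inr j)⁆ = 0 := hc2 j
    rw [this, map_zero, LinearMap.zero_apply, neg_zero]
  -- over the local ring
  obtain ⟨f, hf⟩ : ∃ f, f = jO (b.repr z) := ⟨_, rfl⟩
  rw [← hf]
  have : IsDomain (Oz (b.repr z)) := IsLocalization.isDomain_of_local_atPrime (mz_prime _)
  have h2u : IsUnit (2 : Oz (b.repr z)) := by
    have : IsUnit (jO (b.repr z) 2) := sbm_unit (by
      rw [map_ofNat]
      exact two_ne_zero)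
    rwa [map_ofNat] at this
  obtain ⟨P₀, hP₀⟩ : ∃ P₀ : Matrix κ₁ κ₁ (Oz (b.repr z)),
      ∀ i j, P₀ i j = f (B (Sum.inl i) (Sum.inl j)) := ⟨fun _ _ => _, fun _ _ => rfl⟩
  obtain ⟨Q₀, hQ₀⟩ : ∃ Q₀ : Matrix κ₁ (Fin 3 ⊕ Fin e) (Oz (b.repr z)),
      ∀ i j, Q₀ i j = f (B (Sum.inl i) (Sum.inr j)) := ⟨fun _ _ => _, fun _ _ => rfl⟩
  obtain ⟨S₀, hS₀⟩ : ∃ S₀ : Matrix (Fin 3 ⊕ Fin e) (Fin 3 ⊕ Fin e) (Oz (b.repr z)),
      ∀ i j, S₀ i j = f (B (Sum.inr i) (Sum.inr j)) := ⟨fun _ _ => _, fun _ _ => rfl⟩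
  have hBO : B.map f = Matrix.fromBlocks P₀ Q₀ (-Q₀ᵀ) S₀ := by
    ext i j
    rcases i with i | i <;> rcases j with j | j
    · rw [Matrix.fromBlocks_apply₁₁, hP₀, Matrix.map_apply]
    · rw [Matrix.fromBlocks_apply₁₂, hQ₀, Matrix.map_apply]
    · rw [Matrix.fromBlocks_apply₂₁, Matrix.map_apply, Matrix.neg_apply,
        Matrix.transpose_apply, hQ₀, hB3, map_neg]
    · rw [Matrix.fromBlocks_apply₂₂, hS₀, Matrix.map_apply]
  have hPt : P₀ᵀ = -P₀ := by
    ext i j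
    rw [Matrix.transpose_apply, Matrix.neg_apply, hP₀, hP₀, hB3, map_neg]
  have hPu : IsUnit P₀.det := by
    have h1 : P₀ = (Matrix.of fun i j => B (Sum.inl i) (Sum.inl j)).map f := by
      ext i j
      rw [hP₀]
      rfl
    rw [h1, ← RingHom.mapMatrix_apply, ← RingHom.map_det, hf]
    refine sbm_unit ?_
    rw [RingHom.map_det, RingHom.mapMatrix_apply]
    have h2 := hPIn g κ₁ (Fin 3 ⊕ Fin e) κ c z hκ hc2 hc3
    have h3 : (Matrix.of fun i j => B (Sum.inl i) (Sum.inl j)).map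
        (MvPolynomial.eval (b.repr z)) =
        Matrix.of fun i j : κ₁ => κ ⁅z, c (Sum.inl i)⁆ (c (Sum.inl j)) := by
      ext i j
      rw [Matrix.map_apply, Matrix.of_apply, Matrix.of_apply, hBev, hCz, hCz]
    rw [h3]
    exact h2
  obtain ⟨A, hA⟩ : ∃ A, A = S₀ + Q₀ᵀ * P₀⁻¹ * Q₀ := ⟨_, rfl⟩
  have hA1 : ∀ i j, A j i = -A i j := by
    have h1 : Aᵀ = -A := by
      have h2 : S₀ᵀ = -S₀ := by
        ext i j
        rw [Matrix.transpose_apply, Matrix.neg_apply, hS₀, hS₀, hB3, map_neg]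
      rw [hA, Matrix.transpose_add, h2, Matrix.transpose_mul, Matrix.transpose_mul,
        sbm_invskew P₀ hPt hPu, Matrix.transpose_transpose, Matrix.neg_mul, Matrix.mul_neg,
        ← Matrix.mul_assoc, neg_add]
    intro i j
    have := congrFun (congrFun h1 i) j
    rwa [Matrix.transpose_apply, Matrix.neg_apply] at this
  have hA2 : ∀ i, A i i = 0 := fun i => by
    have h1 := hA1 i i
    have h3 : 2 * A i i = 0 := by
      rw [two_mul]
      nth_rewrite 1 [h1]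
      exact neg_add_cancel _
    exact (h2u.mul_right_eq_zero).1 h3
  have hA3 : ∀ l j, A (Sum.inr l) j = 0 := fun l j => by
    have h1 : S₀ (Sum.inr l) j = 0 := by
      rw [hS₀, hB1, map_zero]
    have h3 : ∀ y, Q₀ y (Sum.inr l) = 0 := fun y => by
      rw [hQ₀, hB2, map_zero]
    rw [hA, Matrix.add_apply, h1, Matrix.mul_apply, zero_add]
    refine Finset.sum_eq_zero fun x _ => ?_
    rw [Matrix.mul_apply, Finset.sum_eq_zero, zero_mul]
    intro y _
    rw [Matrix.transpose_apply, h3, zero_mul]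
  have hA4 : ∀ l j, A j (Sum.inr l) = 0 := fun l j => by rw [hA1, hA3, neg_zero]
  have hAm : ∀ i j, A i j ∈ IsLocalRing.maximalIdeal (Oz (b.repr z)) := fun i j => by
    rw [hA, Matrix.add_apply]
    refine Ideal.add_mem _ ?_ ?_
    · rw [hS₀, hf]
      exact sbm_max (hB5 _ _)
    · rw [Matrix.mul_apply]
      refine Ideal.sum_mem _ fun x _ => Ideal.mul_mem_left _ _ ?_
      rw [hQ₀, hf]
      exact sbm_max (hB5 _ _)
  have hAb := sbm_blk A hA1 hA2 hA3 hA4
  obtain ⟨a₁, ha₁⟩ : ∃ a, a = A (Sum.inl 0) (Sum.inl 1) := ⟨_, rfl⟩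
  obtain ⟨a₂, ha₂⟩ : ∃ a, a = A (Sum.inl 0) (Sum.inl 2) := ⟨_, rfl⟩
  obtain ⟨a₃, ha₃⟩ : ∃ a, a = A (Sum.inl 1) (Sum.inl 2) := ⟨_, rfl⟩
  have hm1 : a₁ ∈ IsLocalRing.maximalIdeal (Oz (b.repr z)) := ha₁ ▸ hAm _ _
  have hm2 : a₂ ∈ IsLocalRing.maximalIdeal (Oz (b.repr z)) := ha₂ ▸ hAm _ _
  have hm3 : a₃ ∈ IsLocalRing.maximalIdeal (Oz (b.repr z)) := ha₃ ▸ hAm _ _
  rw [← ha₁, ← ha₂, ← ha₃] at hAb
  -- the inverse of the matrix of the columns
  obtain ⟨C', hC'1, hC'2⟩ : ∃ C' : Matrix (κ₁ ⊕ (Fin 3 ⊕ Fin e)) ι (Oz (b.repr z)),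
      C.map f * C' = 1 ∧ C' * C.map f = 1 := by
    have hBD : b.toMatrix c * c.toMatrix b = 1 := Module.Basis.toMatrix_mul_toMatrix_flip b c
    have hDB : c.toMatrix b * b.toMatrix c = 1 := Module.Basis.toMatrix_mul_toMatrix_flip c b
    refine sbm_inv (C.map f) (((b.toMatrix c).map MvPolynomial.C).map f)
      (((c.toMatrix b).map MvPolynomial.C).map f) ?_ ?_
    · rw [← Matrix.map_mul, ← Matrix.map_mul, hBD, Matrix.map_one _ (map_zero _) (map_one _),
        Matrix.map_one _ (map_zero _) (map_one _)]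
    · rw [← Matrix.map_mul, ← RingHom.mapMatrix_apply, ← RingHom.map_det, hf]
      refine sbm_unit ?_
      rw [RingHom.map_det, RingHom.mapMatrix_apply, Matrix.map_mul]
      have h3 : C.map (MvPolynomial.eval (b.repr z)) = b.toMatrix c := by
        ext i j
        rw [Matrix.map_apply, hCe]
        rfl
      have h4 : ((c.toMatrix b).map MvPolynomial.C).map (MvPolynomial.eval (b.repr z)) =
          c.toMatrix b := by
        ext i j
        rw [Matrix.map_apply, Matrix.map_apply, MvPolynomial.eval_C]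
      rw [h3, h4, hDB, Matrix.det_one]
      exact one_ne_zero
  have hCMC : (C.map f)ᵀ * (Mx κ b b).map f * C.map f = Matrix.fromBlocks P₀ Q₀ (-Q₀ᵀ) S₀ := by
    rw [← hBO, hB, Matrix.map_mul, Matrix.map_mul, Matrix.transpose_map]
  -- the minors
  have hmin : ∀ r c : Fin (Fintype.card κ₁ + 1) → ι,
      (((Mx κ b b).map f).submatrix r c).det ∈ Ideal.span {a₁, a₂, a₃} := by
    obtain ⟨U, hU⟩ : ∃ U : Matrix (κ₁ ⊕ (Fin 3 ⊕ Fin e)) (κ₁ ⊕ (Fin 3 ⊕ Fin e)) (Oz (b.repr z)),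
        U = Matrix.fromBlocks 1 (-(P₀⁻¹ * Q₀)) 0 1 := ⟨_, rfl⟩
    obtain ⟨U', hU'⟩ : ∃ U' : Matrix (κ₁ ⊕ (Fin 3 ⊕ Fin e)) (κ₁ ⊕ (Fin 3 ⊕ Fin e)) (Oz (b.repr z)),
        U' = Matrix.fromBlocks 1 (P₀⁻¹ * Q₀) 0 1 := ⟨_, rfl⟩
    have hU1 : U * U' = 1 := by
      rw [hU, hU']
      exact (sbm_schur_inv (P₀⁻¹ * Q₀)).1
    have hU2 : U' * U = 1 := by
      rw [hU, hU']
      exact (sbm_schur_inv (P₀⁻¹ * Q₀)).2
    have hU3 : Uᵀ * Matrix.fromBlocks P₀ Q₀ (-Q₀ᵀ) S₀ * U = Matrix.fromBlocks P₀ 0 0 A := by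
      rw [hU, hA]
      exact sbm_schur P₀ Q₀ S₀ hPt hPu
    refine hMnB (Oz (b.repr z)) ι κ₁ (Fin 3 ⊕ Fin e) ((Mx κ b b).map f)
      (C.map f * U) (U' * C') P₀ A _ ?_ ?_ ?_ ?_
    · rw [Matrix.mul_assoc, ← Matrix.mul_assoc U, hU1, Matrix.one_mul, hC'1]
    · rw [Matrix.mul_assoc, ← Matrix.mul_assoc C', hC'2, Matrix.one_mul, hU2]
    · rw [← hU3, ← hCMC, Matrix.transpose_mul]
      simp only [Matrix.mul_assoc]
    · intro i j
      have hs1 : a₁ ∈ Ideal.span {a₁, a₂, a₃} := Ideal.subset_span (by simp)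
      have hs2 : a₂ ∈ Ideal.span {a₁, a₂, a₃} := Ideal.subset_span (by simp)
      have hs3 : a₃ ∈ Ideal.span {a₁, a₂, a₃} := Ideal.subset_span (by simp)
      rw [hAb]
      rcases i with i | i
      · rcases j with j | j
        · rw [Matrix.fromBlocks_apply₁₁]
          fin_cases i <;> fin_cases j
          · exact Ideal.zero_mem _
          · exact hs1
          · exact hs2
          · exact neg_mem hs1
          · exact Ideal.zero_mem _
          · exact hs3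
          · exact neg_mem hs2
          · exact neg_mem hs3
          · exact Ideal.zero_mem _
        · exact Ideal.zero_mem _
      · rcases j with j | j <;> exact Ideal.zero_mem _
  -- the dimension
  have hdim : ringKrullDim (Oz (b.repr z) ⧸ Ideal.span {a₁, a₂, a₃}) + ((3 : ℕ) : WithBot ℕ∞) ≤
      ((Fintype.card ι : ℕ) : WithBot ℕ∞) := by
    refine hDmB ι (b.repr z) a₁ a₂ a₃ (E.map (b.equivFun : g →ₗ[ℂ] (ι → ℂ))) h ?_ hh hm1 hm2 hm3 ?_
    · rw [← hE]
      exact LinearEquiv.finrank_map_eq b.equivFun E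
    · rintro q hq hqz hqa _ ⟨s, hs, rfl⟩ hqs hhs
      have hzs : (⇑(b.repr z) + (b.equivFun : g →ₗ[ℂ] (ι → ℂ)) s : ι → ℂ) =
          ⇑(b.repr (z + s)) := by
        ext i
        rw [map_add]
        rfl
      rw [hzs] at hqs hhs
      have hs0 : s = 0 := by
        refine hEs s hs hhs ?_
        by_contra hlt
        rw [not_le] at hlt
        have h1 := hRks g ι κ b hκ (z + s)
        obtain ⟨r, c', hrc⟩ := sbm_minor ((Mx κ b b).map (MvPolynomial.eval (b.repr (z + s))))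
          (Fintype.card κ₁ + 1) (by omega)
        apply hrc
        have h3 := hqs _ (hqa (((Mx κ b b).submatrix r c').det) (by
          have := hmin r c'
          rw [← hf, RingHom.map_det, RingHom.mapMatrix_apply, ← Matrix.submatrix_map]
          exact this))
        rw [RingHom.map_det, RingHom.mapMatrix_apply, ← Matrix.submatrix_map] at h3
        exact h3
      rw [hs0, map_zero]
  have hRg := hRgs ι (b.repr z) a₁ a₂ a₃ hm1 hm2 hm3 hdim
  refine hCng (Oz (b.repr z)) ι (κ₁ ⊕ (Fin 3 ⊕ Fin e)) ((Mx κ b b).map f) (C.map f) C' hC'1 hC'2 ?_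
  rw [hCMC]
  refine hSch (Oz (b.repr z)) κ₁ (Fin 3 ⊕ Fin e) P₀ Q₀ S₀ hPt hPu ?_
  rw [← hA, hAb]
  exact hRee (Oz (b.repr z)) (Fin e) a₁ a₂ a₃ hRg

end Pool.Agent.ALV
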