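import Pool.Agent.ALV.St

/-!
# ALV, module Sch (MP_c67a3f_ag): Schur complement of a skew matrix
-/

set_option autoImplicit false

noncomputable section

namespace Pool.Agent.ALV

open Matrix

theorem thm_Sch (hCng : St_Cng) (hBlk : St_Blk) : St_Sch := by
  intro O _ κ τ _ _ _ _ P Q S hP hdet hprime
  have h1 : P * P⁻¹ = 1 := Matrix.mul_nonsing_inv P hdet
  have h2 : P⁻¹ * P = 1 := Matrix.nonsing_inv_mul P hdet
  have hT : (P⁻¹)ᵀ = -P⁻¹ := by
    rw [Matrix.transpose_nonsing_inv, hP]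
    apply Matrix.inv_eq_right_inv
    rw [neg_mul_neg, h1]
  have hT2 : (P⁻¹ * Q)ᵀ = -(Qᵀ * P⁻¹) := by
    rw [Matrix.transpose_mul, hT, Matrix.mul_neg]
  refine hCng O (κ ⊕ τ) (κ ⊕ τ) (Matrix.fromBlocks P Q (-Qᵀ) S)
    (Matrix.fromBlocks (1 : Matrix κ κ O) (-(P⁻¹ * Q)) (0 : Matrix τ κ O) (1 : Matrix τ τ O))
    (Matrix.fromBlocks (1 : Matrix κ κ O) (P⁻¹ * Q) (0 : Matrix τ κ O) (1 : Matrix τ τ O))
    ?_ ?_ ?_
  · rw [Matrix.fromBlocks_multiply, ← Matrix.fromBlocks_one]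
    congr 1 <;> simp
  · rw [Matrix.fromBlocks_multiply, ← Matrix.fromBlocks_one]
    congr 1 <;> simp
  · have e : (Matrix.fromBlocks (1 : Matrix κ κ O) (-(P⁻¹ * Q)) (0 : Matrix τ κ O) (1 : Matrix τ τ O))ᵀ *
        Matrix.fromBlocks P Q (-Qᵀ) S *
        Matrix.fromBlocks (1 : Matrix κ κ O) (-(P⁻¹ * Q)) (0 : Matrix τ κ O) (1 : Matrix τ τ O) =
        Matrix.fromBlocks P (0 : Matrix κ τ O) (0 : Matrix τ κ O) (S + Qᵀ * P⁻¹ * Q) := by
      rw [Matrix.fromBlocks_transpose, Matrix.fromBlocks_multiply, Matrix.fromBlocks_multiply]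
      have e21 : (-(P⁻¹ * Q))ᵀ * P + (1 : Matrix τ τ O)ᵀ * -Qᵀ = 0 := by
        rw [Matrix.transpose_neg, hT2, neg_neg, Matrix.mul_assoc, h2, Matrix.mul_one,
          Matrix.transpose_one, Matrix.one_mul, add_neg_cancel]
      rw [e21]
      have g11 : ((1 : Matrix κ κ O)ᵀ * P + (0 : Matrix τ κ O)ᵀ * -Qᵀ) = P := by
        rw [Matrix.transpose_one, Matrix.one_mul, Matrix.transpose_zero, Matrix.zero_mul, add_zero]
      have g12 : ((1 : Matrix κ κ O)ᵀ * Q + (0 : Matrix τ κ O)ᵀ * S) = Q := by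
        rw [Matrix.transpose_one, Matrix.one_mul, Matrix.transpose_zero, Matrix.zero_mul, add_zero]
      have g22 : (-(P⁻¹ * Q))ᵀ * Q + (1 : Matrix τ τ O)ᵀ * S = S + Qᵀ * P⁻¹ * Q := by
        rw [Matrix.transpose_neg, hT2, neg_neg, Matrix.transpose_one, Matrix.one_mul, add_comm]
      rw [g11, g12, g22]
      have f12 : P * -(P⁻¹ * Q) + Q * (1 : Matrix τ τ O) = 0 := by
        rw [Matrix.mul_neg, ← Matrix.mul_assoc, h1, Matrix.one_mul, Matrix.mul_one, neg_add_cancel]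
      rw [f12, Matrix.mul_one, Matrix.mul_zero, Matrix.zero_mul, Matrix.mul_one, Matrix.mul_zero,
        Matrix.zero_mul, add_zero, add_zero, zero_add]
    rw [e]
    exact hBlk O κ τ P (S + Qᵀ * P⁻¹ * Q) hdet hprime

end Pool.Agent.ALV
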