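import Pool.Agent.ALV.ShD

/-!
# ALV, module Shr: shears (proved by helper17)
-/

set_option autoImplicit false

noncomputable section

namespace Pool.Agent.ALV

open Matrix

/-- the substitution of a shear -/
def shr_al {ι : Type} (P : ι → MvPolynomial ι ℂ) (e : ℂ) : MvPolynomial (ι ⊕ ι) ℂ →ₐ[ℂ] MvPolynomial (ι ⊕ ι) ℂ :=
  MvPolynomial.aeval (Sum.elim (fun k => MvPolynomial.X (Sum.inl k))
    (fun k => MvPolynomial.X (Sum.inr k) + MvPolynomial.C e * MvPolynomial.rename Sum.inl (P k)))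

theorem shr_inl {ι : Type} (P : ι → MvPolynomial ι ℂ) (e : ℂ) (k : ι) :
    shr_al P e (MvPolynomial.X (Sum.inl k)) = MvPolynomial.X (Sum.inl k) := by
  simp [shr_al]

theorem shr_inr {ι : Type} (P : ι → MvPolynomial ι ℂ) (e : ℂ) (k : ι) :
    shr_al P e (MvPolynomial.X (Sum.inr k)) =
      MvPolynomial.X (Sum.inr k) + MvPolynomial.C e * MvPolynomial.rename Sum.inl (P k) := by
  simp [shr_al]

theorem shr_ren {ι : Type} (P : ι → MvPolynomial ι ℂ) (e : ℂ) (p : MvPolynomial ι ℂ) :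
    shr_al P e (MvPolynomial.rename Sum.inl p) = MvPolynomial.rename Sum.inl p := by
  have h : (shr_al P e).comp (MvPolynomial.rename Sum.inl) =
      (MvPolynomial.rename Sum.inl : MvPolynomial ι ℂ →ₐ[ℂ] MvPolynomial (ι ⊕ ι) ℂ) := by
    apply MvPolynomial.algHom_ext
    intro i
    simp [shr_al]
  exact DFunLike.congr_fun h p

theorem shr_inv {ι : Type} (P : ι → MvPolynomial ι ℂ) (e e' : ℂ) (he : e + e' = 0) (f : MvPolynomial (ι ⊕ ι) ℂ) :
    shr_al P e (shr_al P e' f) = f := by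
  have h : (shr_al P e).comp (shr_al P e') = AlgHom.id ℂ (MvPolynomial (ι ⊕ ι) ℂ) := by
    apply MvPolynomial.algHom_ext
    rintro (i | i)
    · simp [shr_inl]
    · have h1 : e' = -e := by linear_combination he
      subst h1
      rw [AlgHom.comp_apply, shr_inr, map_add, map_mul, shr_inr, shr_ren, MvPolynomial.algHom_C, MvPolynomial.algebraMap_eq,
        MvPolynomial.C_neg, AlgHom.id_apply]
      ring
  exact DFunLike.congr_fun h f

/-- the bracket of the generic element and of its image is zero -/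
theorem shr_zero {g : Type} [LieRing g] [LieAlgebra ℂ g] {ι : Type} [Fintype ι] (b : Module.Basis ι ℂ g)
    (P : ι → MvPolynomial ι ℂ) (hP : ∀ s : g, ⁅s, vl b P s⁆ = 0) (k : ι) :
    ∑ i : ι, ∑ j : ι, MvPolynomial.C (b.repr ⁅b i, b j⁆ k) * MvPolynomial.X i * P j = 0 := by
  apply MvPolynomial.funext
  intro r
  have h1 := hP (∑ i, r i • b i)
  have h2 : (b.repr (∑ i, r i • b i) : ι → ℂ) = r := by
    ext i
    rw [b.repr_sum_self]
  rw [vl, h2] at h1
  have h3 := congrArg (fun z => b.repr z k) h1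
  simp only [map_zero, Finsupp.coe_zero, Pi.zero_apply] at h3
  rw [map_zero, ← h3, sum_lie_sum, map_sum, map_sum, Finsupp.coe_finsetSum, Finset.sum_apply]
  refine Finset.sum_congr rfl fun i _ => ?_
  rw [map_sum, map_sum, Finsupp.coe_finsetSum, Finset.sum_apply]
  refine Finset.sum_congr rfl fun j _ => ?_
  rw [smul_lie, lie_smul, map_smul, map_smul, Finsupp.smul_apply, Finsupp.smul_apply, smul_eq_mul, smul_eq_mul,
    map_mul, map_mul, MvPolynomial.eval_C, MvPolynomial.eval_X]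
  ring

theorem shr_le {g : Type} [LieRing g] [LieAlgebra ℂ g] {ι : Type} [Fintype ι] (b : Module.Basis ι ℂ g)
    (P : ι → MvPolynomial ι ℂ) (hP : ∀ s : g, ⁅s, vl b P s⁆ = 0) (e : ℂ) :
    cI b ≤ (cI b).comap (shr_al P e) := by
  rw [cI, Ideal.span_le]
  rintro _ ⟨k, rfl⟩
  rw [SetLike.mem_coe, Ideal.mem_comap]
  have h1 : shr_al P e (∑ i : ι, ∑ j : ι, MvPolynomial.C (b.repr ⁅b i, b j⁆ k) *
      MvPolynomial.X (Sum.inl i) * MvPolynomial.X (Sum.inr j)) =
      (∑ i : ι, ∑ j : ι, MvPolynomial.C (b.repr ⁅b i, b j⁆ k) *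
        MvPolynomial.X (Sum.inl i) * MvPolynomial.X (Sum.inr j)) +
      MvPolynomial.C e * MvPolynomial.rename Sum.inl (∑ i : ι, ∑ j : ι, MvPolynomial.C (b.repr ⁅b i, b j⁆ k) *
        MvPolynomial.X i * P j) := by
    simp only [map_sum, Finset.mul_sum, ← Finset.sum_add_distrib]
    refine Finset.sum_congr rfl fun i _ => Finset.sum_congr rfl fun j _ => ?_
    simp only [map_mul, shr_inl, shr_inr, MvPolynomial.algHom_C, MvPolynomial.algebraMap_eq, MvPolynomial.rename_X]
    ring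
  rw [h1, shr_zero b P hP k, map_zero, mul_zero, add_zero]
  exact Ideal.subset_span ⟨k, rfl⟩

theorem thm_Shr (hTrp : St_Trp) : St_Shr := by
  intro g _ _ ι _ b P hP x y hR
  refine hTrp (ι ⊕ ι) (ι ⊕ ι) (cI b) (cI b) (co b x y) (co b x (y + vl b P x)) (shr_al P 1) (shr_al P (-1))
    ?_ (shr_le b P hP 1) (shr_le b P hP (-1)) ?_ hR
  · intro f
    rw [shr_inv P 1 (-1) (by norm_num), sub_self]
    exact zero_mem _
  · intro f
    have h : (MvPolynomial.aeval (co b x y)).comp (shr_al P 1) =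
        (MvPolynomial.aeval (co b x (y + vl b P x)) : MvPolynomial (ι ⊕ ι) ℂ →ₐ[ℂ] ℂ) := by
      apply MvPolynomial.algHom_ext
      rintro (i | i)
      · rw [AlgHom.comp_apply, shr_inl, MvPolynomial.aeval_X, MvPolynomial.aeval_X]
        rfl
      · rw [AlgHom.comp_apply, shr_inr, map_add, map_mul, MvPolynomial.aeval_X, MvPolynomial.aeval_X,
          MvPolynomial.aeval_rename, MvPolynomial.C_1, map_one, one_mul]
        have h2 : co b x y ∘ Sum.inl = (b.repr x : ι → ℂ) := rfl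
        rw [h2]
        simp only [co, Sum.elim_inr, map_add, Finsupp.coe_add, Pi.add_apply, vl, b.repr_sum_self]
        rw [← MvPolynomial.coe_aeval_eq_eval]
        rfl
    have h3 := DFunLike.congr_fun h f
    rw [AlgHom.comp_apply] at h3
    rw [← MvPolynomial.coe_aeval_eq_eval, ← MvPolynomial.coe_aeval_eq_eval]
    exact h3

end Pool.Agent.ALV
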