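import Pool.Agent.ALV.Trp
import Pool.Agent.ALV.Iso
import Pool.Agent.ALV.GLc
import Pool.Agent.ALV.PrL
import Pool.Agent.ALV.MtS
import Pool.Agent.ALV.MtG
import Pool.Agent.ALV.Rad
import Pool.Agent.ALV.Krl
import Pool.Agent.ALV.Nil
import Pool.Agent.ALV.Jac
import Pool.Agent.ALV.Qtm
import Pool.Agent.ALV.Lev
import Pool.Agent.ALV.Cng
import Pool.Agent.ALV.Blk
import Pool.Agent.ALV.Sch
import Pool.Agent.ALV.Rkm
import Pool.Agent.ALV.Pff
import Pool.Agent.ALV.Nrm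
import Pool.Agent.ALV.Ree
import Pool.Agent.ALV.MnB
import Pool.Agent.ALV.Rgs
import Pool.Agent.ALV.DmA
import Pool.Agent.ALV.DmB
import Pool.Agent.ALV.Bss
import Pool.Agent.ALV.MxP
import Pool.Agent.ALV.Rks
import Pool.Agent.ALV.PIn
import Pool.Agent.ALV.LfA
import Pool.Agent.ALV.SAm
import Pool.Agent.ALV.SBm
import Pool.Agent.ALV.Cle
import Pool.Agent.ALV.Shr

/-!
# ALV: assembly (helper40)
-/

set_option autoImplicit false

namespace Pool.Agent.ALV

theorem all_Iso : St_Iso := thm_Iso thm_Trp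

theorem all_GLc : St_GLc := thm_GLc thm_Trp

theorem all_PrL : St_PrL := thm_PrL thm_Trp

theorem all_MtS : St_MtS := thm_MtS thm_Trp

theorem all_MtG : St_MtG := thm_MtG thm_Trp

theorem all_Shr : St_Shr := thm_Shr thm_Trp

theorem all_Nil : St_Nil := thm_Nil thm_Rad thm_Krl

theorem all_Lev : St_Lev := thm_Lev all_Nil thm_Jac thm_Qtm all_Iso

theorem all_Sch : St_Sch := thm_Sch thm_Cng thm_Blk

theorem all_Rks : St_Rks := thm_Rks thm_MxP

theorem all_SAm : St_SAm :=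
  thm_SAm thm_Cng all_Sch thm_Rkm thm_Pff thm_Nrm thm_Ree thm_Rgs thm_DmA thm_Bss thm_MxP all_Rks
    thm_PIn thm_LfA

theorem all_SBm : St_SBm :=
  thm_SBm thm_Cng all_Sch thm_Ree thm_MnB thm_Rgs thm_DmB thm_Bss thm_MxP all_Rks thm_PIn

theorem all_Cle : St_Cle := thm_Cle thm_MxP

end Pool.Agent.ALV
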