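import Pool.Agent.ANC.St

/-!
# ALV: definitions (helper40)

The commuting scheme of an arbitrary finite dimensional complex Lie algebra: Levi subalgebras, products, elements whose
centralizer has the dimension of the rank plus two (MP_c67a3f_ag).
-/

set_option autoImplicit false

noncomputable section

namespace Pool.Agent.ALV

open Matrix

/-! ### the commuting scheme -/

/-- The ideal of the commuting scheme in the coordinates of a basis: `inl i` is the coordinate `x_i`, `inr i` is `y_i`. -/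
def cI {g : Type} [LieRing g] [LieAlgebra ℂ g] {ι : Type} [Fintype ι] (b : Module.Basis ι ℂ g) :
    Ideal (MvPolynomial (ι ⊕ ι) ℂ) :=
  Ideal.span (Set.range fun k : ι => ∑ i : ι, ∑ j : ι, MvPolynomial.C (b.repr ⁅b i, b j⁆ k) *
    MvPolynomial.X (Sum.inl i) * MvPolynomial.X (Sum.inr j))

/-- The coordinates of a pair. -/
def co {g : Type} [LieRing g] [LieAlgebra ℂ g] {ι : Type} (b : Module.Basis ι ℂ g)
    (x y : g) : ι ⊕ ι → ℂ := Sum.elim (b.repr x) (b.repr y)

/-- The scheme of the ideal `I` is reduced at the point `p`. -/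
def RdI {σ : Type} (I : Ideal (MvPolynomial σ ℂ)) (p : σ → ℂ) : Prop :=
  ∀ f : MvPolynomial σ ℂ, (∃ m : ℕ, f ^ m ∈ I) → ∃ h, MvPolynomial.eval p h ≠ 0 ∧ h * f ∈ I

/-- The commuting scheme is reduced at the pair `(x, y)`. -/
def RdL {g : Type} [LieRing g] [LieAlgebra ℂ g] {ι : Type} [Fintype ι] (b : Module.Basis ι ℂ g)
    (x y : g) : Prop := RdI (cI b) (co b x y)

/-- The centralizer of `x`. -/
def cen {g : Type} [LieRing g] [LieAlgebra ℂ g] (x : g) : Submodule ℂ g :=
  LinearMap.ker (LieAlgebra.ad ℂ g x)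

/-- The derivation given by the adjoint action of `u` on pairs. -/
def adD {g : Type} [LieRing g] [LieAlgebra ℂ g] {ι : Type} [Fintype ι] (b : Module.Basis ι ℂ g)
    (u : g) : Derivation ℂ (MvPolynomial (ι ⊕ ι) ℂ) (MvPolynomial (ι ⊕ ι) ℂ) :=
  MvPolynomial.mkDerivation ℂ (Sum.elim
    (fun k => ∑ i : ι, MvPolynomial.C (b.repr ⁅u, b i⁆ k) * MvPolynomial.X (Sum.inl i))
    (fun k => ∑ i : ι, MvPolynomial.C (b.repr ⁅u, b i⁆ k) * MvPolynomial.X (Sum.inr i)))

/-! ### linear equations with a skew matrix -/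

/-- The ideal generated by the entries of `M y`, `y` a vector of variables. -/
def Pr {O ι : Type} [CommRing O] [Fintype ι] (M : Matrix ι ι O) : Ideal (MvPolynomial ι O) :=
  Ideal.span (Set.range fun i : ι => ∑ j : ι, MvPolynomial.C (M i j) * MvPolynomial.X j)

/-- The skew matrix of size three. -/
def Bm {O : Type} [CommRing O] (a b c : O) : Matrix (Fin 3) (Fin 3) O :=
  !![0, a, b; -a, 0, c; -b, -c, 0]

/-- The Pfaffian of four indices. -/
def pf {O ι : Type} [CommRing O] (A : Matrix ι ι O) (i j k l : ι) : O :=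
  A i j * A k l - A i k * A j l + A i l * A j k

/-- `a` is not a zero divisor, `b` is not a zero divisor modulo `a`, `c` not modulo `a` and `b`. -/
def Rg3 {O : Type} [CommRing O] (a b c : O) : Prop :=
  (∀ g, a * g = 0 → g = 0) ∧ (∀ g, b * g ∈ Ideal.span {a} → g ∈ Ideal.span {a}) ∧
    ∀ g, c * g ∈ Ideal.span {a, b} → g ∈ Ideal.span {a, b}

/-! ### the matrix of the Lie algebra -/

/-- The ideal of the polynomials which vanish at `z`. -/
def mz {ι : Type} (z : ι → ℂ) : Ideal (MvPolynomial ι ℂ) :=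
  RingHom.ker (MvPolynomial.eval z)

instance mz_prime {ι : Type} (z : ι → ℂ) : (mz z).IsPrime := RingHom.ker_isPrime _

/-- The local ring of the affine space at `z`. -/
abbrev Oz {ι : Type} (z : ι → ℂ) : Type := Localization.AtPrime (mz z)

/-- The map to the local ring. -/
def jO {ι : Type} (z : ι → ℂ) : MvPolynomial ι ℂ →+* Oz z := algebraMap _ _

/-- The matrix of the `κ ([x, v_i], v_j)`, `x` the generic element of `g`. -/
def Mx {g : Type} [LieRing g] [LieAlgebra ℂ g] {ι τ : Type} [Fintype ι]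
    (κ : LinearMap.BilinForm ℂ g) (b : Module.Basis ι ℂ g) (v : τ → g) :
    Matrix τ τ (MvPolynomial ι ℂ) :=
  fun i j => ∑ k : ι, MvPolynomial.C (κ ⁅b k, v i⁆ (v j)) * MvPolynomial.X k

/-- The matrix of the coordinates of the `v_j`. -/
def cof {g : Type} [LieRing g] [LieAlgebra ℂ g] {ι τ : Type} (b : Module.Basis ι ℂ g)
    (v : τ → g) : Matrix ι τ (MvPolynomial ι ℂ) := fun k j => MvPolynomial.C (b.repr (v j) k)

/-- The form `κ` is symmetric, invariant and nondegenerate. -/
def Inv {g : Type} [LieRing g] [LieAlgebra ℂ g] (κ : LinearMap.BilinForm ℂ g) : Prop :=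
  (∀ x y, κ x y = κ y x) ∧ (∀ x y z, κ ⁅x, y⁆ z = κ x ⁅y, z⁆) ∧ κ.Nondegenerate

/-- `z` is regular, or its centralizer has the dimension of the rank plus two (at most) and contains three elements with
linearly independent brackets. -/
def SubA {g : Type} [LieRing g] [LieAlgebra ℂ g] (z : g) : Prop :=
  (∀ s : g, Module.finrank ℂ (cen z) ≤ Module.finrank ℂ (cen s)) ∨
    ((∀ s : g, Module.finrank ℂ (cen z) ≤ Module.finrank ℂ (cen s) + 2) ∧
      ∃ u ∈ cen z, ∃ v ∈ cen z, ∃ w ∈ cen z, LinearIndependent ℂ ![⁅u, v⁆, ⁅u, w⁆, ⁅v, w⁆])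

/-- The value at `s` of the polynomial map with the coordinates `P i`. -/
def vl {g : Type} [LieRing g] [LieAlgebra ℂ g] {ι : Type} [Fintype ι] (b : Module.Basis ι ℂ g)
    (P : ι → MvPolynomial ι ℂ) (s : g) : g := ∑ i, MvPolynomial.eval (b.repr s) (P i) • b i

/-- There are `dim (cen z) - 3` polynomial maps with `[s, P s] = 0` whose values at `z` are linearly independent, and
`z` is isolated among the `s` with `dim (cen s) ≥ dim (cen z)` in a subspace of dimension three. -/
def SubB {g : Type} [LieRing g] [LieAlgebra ℂ g] {ι : Type} [Fintype ι] (b : Module.Basis ι ℂ g)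
    (z : g) : Prop :=
  (∃ (e : ℕ) (P : Fin e → ι → MvPolynomial ι ℂ), Module.finrank ℂ (cen z) = e + 3 ∧
    (∀ i s, ⁅s, vl b (P i) s⁆ = 0) ∧ LinearIndependent ℂ fun i => vl b (P i) z) ∧
  ∃ (E : Submodule ℂ g) (h : MvPolynomial ι ℂ), Module.finrank ℂ E = 3 ∧
    MvPolynomial.eval (b.repr z) h ≠ 0 ∧ ∀ s ∈ E, MvPolynomial.eval (b.repr (z + s)) h ≠ 0 →
      Module.finrank ℂ (cen z) ≤ Module.finrank ℂ (cen (z + s)) → s = 0

end Pool.Agent.ALV
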