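import Pool.Agent.ALV.St

/-!
# ALV, Nrm: normal form of a skew matrix of rank two (helper35)
-/

set_option autoImplicit false

noncomputable section

namespace Pool.Agent.ALV

open Matrix

theorem thm_Nrm : St_Nrm := by
  intro O _ _ κ _ _ A hA hd hpf ⟨ha, hb, hc⟩
  set a := A (Sum.inl 0) (Sum.inl 1) with ha'
  set b := A (Sum.inl 0) (Sum.inl 2) with hb'
  set c := A (Sum.inl 1) (Sum.inl 2) with hc'
  have hsk : ∀ i j, A j i = -A i j := by
    intro i j
    have h := congrFun (congrFun hA i) j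
    rw [Matrix.transpose_apply, Matrix.neg_apply] at h
    exact h
  -- the columns
  have hcol : ∀ k : κ, ∃ u : Fin 3 → O, A (Sum.inl 0) (Sum.inr k) = a * u 1 + b * u 2 ∧
      A (Sum.inl 1) (Sum.inr k) = -a * u 0 + c * u 2 ∧
      A (Sum.inl 2) (Sum.inr k) = -b * u 0 - c * u 1 := by
    intro k
    have h1 := hpf (Sum.inl 0) (Sum.inl 1) (Sum.inl 2) (Sum.inr k)
    unfold pf at h1
    rw [← ha', ← hb', ← hc'] at h1
    have h2 : A (Sum.inl 0) (Sum.inr k) ∈ Ideal.span {a, b} := by
      apply hc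
      rw [Ideal.mem_span_pair]
      refine ⟨-A (Sum.inl 2) (Sum.inr k), A (Sum.inl 1) (Sum.inr k), ?_⟩
      linear_combination -h1
    obtain ⟨u1, u2, h3⟩ := Ideal.mem_span_pair.1 h2
    have h4 : A (Sum.inl 1) (Sum.inr k) - c * u2 ∈ Ideal.span {a} := by
      apply hb
      rw [Ideal.mem_span_singleton]
      refine ⟨A (Sum.inl 2) (Sum.inr k) + c * u1, ?_⟩
      rw [← h3] at h1
      linear_combination -h1
    obtain ⟨u0, h5⟩ := Ideal.mem_span_singleton.1 h4
    have h6 : A (Sum.inl 2) (Sum.inr k) + c * u1 - b * u0 = 0 := by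
      apply ha
      rw [← h3] at h1
      linear_combination h1 + b * h5
    refine ⟨![-u0, u1, u2], ?_, ?_, ?_⟩
    · simp only [Matrix.cons_val_one, Matrix.cons_val_zero, Matrix.cons_val]
      linear_combination -h3
    · simp only [Matrix.cons_val_zero, Matrix.cons_val]
      linear_combination h5
    · simp only [Matrix.cons_val_one, Matrix.cons_val_zero, Matrix.cons_val]
      linear_combination h6
  choose u hu0 hu1 hu2 using hcol
  let B : Matrix (Fin 3) (Fin 3) O := Bm a b c
  let U : Matrix (Fin 3) κ O := Matrix.of fun i k => u k i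
  have hB : Bᵀ = -B := by
    ext i j
    fin_cases i <;> fin_cases j <;> simp [B, Bm]
  have h11 : A.toBlocks₁₁ = B := by
    ext i j
    have h0 := hsk (Sum.inl 0) (Sum.inl 1)
    have h1 := hsk (Sum.inl 0) (Sum.inl 2)
    have h2 := hsk (Sum.inl 1) (Sum.inl 2)
    rw [← ha'] at h0
    rw [← hb'] at h1
    rw [← hc'] at h2
    fin_cases i <;> fin_cases j
    · exact hd (Sum.inl 0)
    · exact ha'.symm
    · exact hb'.symm
    · exact h0
    · exact hd (Sum.inl 1)
    · exact hc'.symm
    · exact h1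
    · exact h2
    · exact hd (Sum.inl 2)
  have h12 : A.toBlocks₁₂ = B * U := by
    ext i k
    rw [Matrix.mul_apply, Fin.sum_univ_three]
    fin_cases i
    · have h := hu0 k
      simp only [B, Bm, U, Matrix.toBlocks₁₂, Matrix.of_apply]
      simpa using h
    · have h := hu1 k
      simp only [B, Bm, U, Matrix.toBlocks₁₂, Matrix.of_apply]
      simpa using h
    · have h := hu2 k
      simp only [B, Bm, U, Matrix.toBlocks₁₂, Matrix.of_apply]
      simp only [Matrix.cons_val', Matrix.cons_val_fin_one, Matrix.cons_val_zero,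
        Matrix.cons_val_one, Matrix.cons_val, Fin.reduceFinMk]
      rw [h]
      ring
  have h21 : A.toBlocks₂₁ = -(B * U)ᵀ := by
    rw [← h12]
    ext k i
    exact hsk (Sum.inl i) (Sum.inr k)
  have h22 : A.toBlocks₂₂ = Uᵀ * B * U := by
    ext k l
    have h1 := hpf (Sum.inl 0) (Sum.inl 1) (Sum.inr k) (Sum.inr l)
    unfold pf at h1
    rw [← ha', hu0 k, hu0 l, hu1 k, hu1 l] at h1
    have h2 : A (Sum.inr k) (Sum.inr l) - (u k 0 * (a * u l 1 + b * u l 2) +
        u k 1 * (-a * u l 0 + c * u l 2) + u k 2 * (-b * u l 0 - c * u l 1)) = 0 := by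
      apply ha
      linear_combination h1
    rw [Matrix.mul_assoc, ← h12, Matrix.mul_apply, Fin.sum_univ_three]
    simp only [Matrix.toBlocks₂₂, Matrix.toBlocks₁₂, Matrix.of_apply, Matrix.transpose_apply, U]
    rw [hu0 l, hu1 l, hu2 l]
    linear_combination h2
  refine ⟨Matrix.fromBlocks 1 (-U) 0 1, Matrix.fromBlocks 1 U 0 1, ?_, ?_, ?_⟩
  · rw [Matrix.fromBlocks_multiply]
    simp
  · rw [Matrix.fromBlocks_multiply]
    simp
  · conv_lhs => rw [← Matrix.fromBlocks_toBlocks A, h11, h12, h21, h22]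
    rw [Matrix.fromBlocks_transpose, Matrix.fromBlocks_multiply, Matrix.fromBlocks_multiply]
    have e1 : (B * U)ᵀ = -(Uᵀ * B) := by
      rw [Matrix.transpose_mul, hB, Matrix.mul_neg]
    rw [e1]
    simp [Matrix.mul_assoc, B]

end Pool.Agent.ALV
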