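import Pool.Agent.ALV.St

/-!
# ALV: shears (helper40)
-/

set_option autoImplicit false

noncomputable section

namespace Pool.Agent.ALV

open Matrix

/-- **Shr.** Shears.

Proof. Trp with `α X_(inl k) = X_(inl k)`, `α X_(inr k) = X_(inr k) + rename inl (P k)` and `β` with `-`. `α` maps the generator `k` of
`cI b` to itself plus the coordinate `k` of `[x, P x]`, a polynomial in the `X_(inl i)` which vanishes at all points. -/
def St_Shr : Prop := ∀ (g : Type) [LieRing g] [LieAlgebra ℂ g] (ι : Type) [Fintype ι]
  (b : Module.Basis ι ℂ g) (P : ι → MvPolynomial ι ℂ), (∀ s : g, ⁅s, vl b P s⁆ = 0) →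
  ∀ x y : g, RdL b x (y + vl b P x) → RdL b x y

end Pool.Agent.ALV
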