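import Pool.Agent.ALV.Defs

/-!
# ALV: statements (helper40)

MP_c67a3f_ag. The commuting scheme of a finite dimensional complex Lie algebra `g` is reduced at pairs in a Levi type
subalgebra if the commuting scheme of the subalgebra is (Lev), at products (PrL), and, if `g` has a nondegenerate
invariant form, at the pairs whose span contains an element `z` which is regular, or subregular with one of two
explicit conditions (SAm, SBm, Cle). Each statement has a complete proof in its comment.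
-/

set_option autoImplicit false

noncomputable section

namespace Pool.Agent.ALV

open Matrix

/-! ### change of coordinates -/

/-- **Trp.** Transport.

Proof. `f^m ∈ I` gives `(β f)^m ∈ J`, so `h (β f) ∈ J` for some `h` with `h(q) ≠ 0`, and `α h * α (β f) ∈ I`, so
`α h * f ∈ I`; the value of `α h` at `p` is `h(q)`. -/
def St_Trp : Prop := ∀ (σ τ : Type) (I : Ideal (MvPolynomial σ ℂ)) (J : Ideal (MvPolynomial τ ℂ))
  (p : σ → ℂ) (q : τ → ℂ) (α : MvPolynomial τ ℂ →ₐ[ℂ] MvPolynomial σ ℂ)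
  (β : MvPolynomial σ ℂ →ₐ[ℂ] MvPolynomial τ ℂ), (∀ f, α (β f) - f ∈ I) → J ≤ I.comap α →
  I ≤ J.comap β → (∀ f, MvPolynomial.eval p (α f) = MvPolynomial.eval q f) →
  RdI J q → RdI I p

/-- **Iso.** Isomorphisms and bases.

Proof. Trp with `α X_(inl k') = ∑ i, C (b'.repr (e (b i)) k') * X_(inl i)` (the coordinate `k'` of `e x`), the same for
`inr`, and `β` given by `e.symm` in the same way. `α ∘ β = id` (inverse matrices, enough on variables). `α` maps the generator with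
the index `k'` of `cI b'` to `∑ k, C (b'.repr (e (b k)) k') * (generator k of cI b)`, as `e ⁅b i, b j⁆ = ⁅e (b i), e (b j)⁆`
(bilinear expansion of both sides); the same for `β`. -/
def St_Iso : Prop := ∀ (g g' : Type) [LieRing g] [LieAlgebra ℂ g] [LieRing g'] [LieAlgebra ℂ g']
  (e : g ≃ₗ⁅ℂ⁆ g') (ι ι' : Type) [Fintype ι] [Fintype ι'] (b : Module.Basis ι ℂ g)
  (b' : Module.Basis ι' ℂ g') (x y : g), RdL b' (e x) (e y) → RdL b x y

/-- **GLc.** Linear substitutions.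

Proof. Trp with `α X_(inl i) = p X_(inl i) + q X_(inr i)`, `α X_(inr i) = c X_(inl i) + d X_(inr i)` and `β` the inverse
substitution. The structure constants `c_ij = b.repr ⁅b i, b j⁆ k` are antisymmetric in `i`, `j`, so
`∑ c_ij X_(inl i) X_(inl j) = 0` and `∑ c_ij X_(inr i) X_(inl j) = - ∑ c_ij X_(inl i) X_(inr j)`: `α` maps the generators of
`cI b` to their multiples by `p d - q c`; the same for `β`. -/
def St_GLc : Prop := ∀ (g : Type) [LieRing g] [LieAlgebra ℂ g] (ι : Type) [Fintype ι]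
  (b : Module.Basis ι ℂ g) (x y : g) (p q c d : ℂ), p * d - q * c ≠ 0 →
  RdL b (p • x + q • y) (c • x + d • y) → RdL b x y

/-- **PrL.** Products.

Proof. `Pool.Agent.ANC.thm_PrT` with `υ` empty, `σ = ι ⊕ ι`, `τ = ι' ⊕ ι'`, and Trp for the renaming along the bijection of
`(ι ⊕ ι') ⊕ (ι ⊕ ι')` and `Empty ⊕ ((ι ⊕ ι) ⊕ (ι' ⊕ ι'))`. The brackets of elements of the two factors are `0` and
`⁅(u, 0), (v, 0)⁆ = (⁅u, v⁆, 0)`, so the generators of `cI (b.prod b')` are those of `cI b` and `cI b'` (renamed). -/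
def St_PrL : Prop := ∀ (g g' : Type) [LieRing g] [LieAlgebra ℂ g] [LieRing g'] [LieAlgebra ℂ g']
  (ι ι' : Type) [Fintype ι] [Fintype ι'] (b : Module.Basis ι ℂ g) (b' : Module.Basis ι' ℂ g')
  (x y : g) (x' y' : g'), RdL b x y → RdL b' x' y' → RdL (b.prod b') (x, x') (y, y')

/-- **MtS.** Traceless matrices.

Proof. Let `κ = (Fin 2 × Fin n × Fin n)` and `Rg (Fin n) ℂ = MvPolynomial κ ℂ` (`Pool/Agent/CTR/Defs.lean`); `Rd A B` is `RdI`
for `comI` and the point of `(A, B)`. `α : Rg → MvPolynomial (ι ⊕ ι) ℂ` maps the matrix `mX` to `∑ i, X_(inl i) b_i` and `mY` to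
`∑ i, X_(inr i) b_i`. `β` maps `X_(inl i)` to the `i`-th coordinate of the traceless part
`mX - (tr mX / n) 1` (extend `b.repr` linearly; its coordinates are linear forms in the entries, choose a linear
projection `π : Matrix → sl n`, `π M = M - (tr M / n) 1`, for `n > 0`), the same for `X_(inr i)` and `mY`. `α ∘ β = id`,
`α` maps the entries of `mX mY - mY mX` to the entries of `∑ k (generator k) b_k`, and `β` maps the generator `k` to the
coordinate `k` of `π mX π mY - π mY π mX = mX mY - mY mX`, a linear combination of its entries. Trp. For `n = 0` the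
basis is empty (`sl 0` is a subsingleton), `cI b = ⊥` in a domain. Compare `Pool/Agent/CTR/GL.lean`, `Pool/Agent/ANC/Cnj.lean`. -/
def St_MtS : Prop := ∀ (n : ℕ) (A B : LieAlgebra.SpecialLinear.sl (Fin n) ℂ),
  Pool.Agent.ANC.Rd (A : Matrix (Fin n) (Fin n) ℂ) (B : Matrix (Fin n) (Fin n) ℂ) →
  ∀ (ι : Type) [Fintype ι] (b : Module.Basis ι ℂ (LieAlgebra.SpecialLinear.sl (Fin n) ℂ)),
  RdL b A B

section

attribute [local instance 100] LieRing.ofAssociativeRing

/-- **MtG.** All matrices (the bracket is the commutator).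

Proof. As MtS, simpler: `β X_(inl i)` is the `i`-th coordinate of `mX`; `α` and `β` are inverse to each other. -/
def St_MtG : Prop := ∀ (n : ℕ) (A B : Matrix (Fin n) (Fin n) ℂ), Pool.Agent.ANC.Rd A B →
  ∀ (ι : Type) [Fintype ι] (b : Module.Basis ι ℂ (Matrix (Fin n) (Fin n) ℂ)), RdL b A B

end

/-! ### derivations -/

/-- **Rad.** The radical of an ideal stable under a derivation.

Proof. If `f^a (D f)^b ∈ I` with `a ≥ 1`, then applying `D` and multiplying by `D f`: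
`a f^(a-1) (D f)^(b+2) + b f^a (D f)^b D (D f) ∈ I`, so `f^(a-1) (D f)^(b+2) ∈ I` (`a` is invertible in `ℂ`). Start with
`f^m`, end with `(D f)^(2m)`. -/
def St_Rad : Prop := ∀ (A : Type) [CommRing A] [Algebra ℂ A] (I : Ideal A) (D : Derivation ℂ A A),
  (∀ f ∈ I, D f ∈ I) → ∀ (f : A) (m : ℕ), f ^ m ∈ I → ∃ k : ℕ, (D f) ^ k ∈ I

/-- **Krl.** Krull's intersection theorem at a point.

Proof. Let `A` be the localization of `ℂ[σ]` at the maximal ideal of `p`, a Noetherian local ring. By the hypothesis the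
image of `f` in `A / I A` is in the `n`-th power of the ideal generated by `T` for all `n`, and this ideal is contained in
the maximal ideal; so the image is `0` (Krull), `f ∈ I A`. Clear denominators. -/
def St_Krl : Prop := ∀ (σ : Type) [Fintype σ] (I T : Ideal (MvPolynomial σ ℂ)) (p : σ → ℂ),
  (∀ t ∈ T, MvPolynomial.eval p t = 0) → ∀ f : MvPolynomial σ ℂ,
  (∀ n : ℕ, ∃ h, MvPolynomial.eval p h ≠ 0 ∧ h * f ∈ I ⊔ T ^ n) →
  ∃ h, MvPolynomial.eval p h ≠ 0 ∧ h * f ∈ I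

/-- **Nil.** Reducedness can be checked on a transversal slice.

Proof. Let `W` be the matrix `D i (t j)`, `Δ = det W`, `Δ(p) ≠ 0`, `D'_i = ∑ k, (adj W)_(i k) D_k`, so
`D'_i (t j) = Δ` if `i = j` and `0` otherwise; `T` the ideal of the `t j`, `E = ∑ i, t_i D'_i`, a derivation with
`E (t j) = Δ t_j`, `E c ∈ T` for all `c`. (1) `E u - n Δ u ∈ T^(n+1)` for `u ∈ T^n`: induction on `n` (for `n = 1` write
`u = ∑ c_j t_j`; product rule for `T^(n+1) = T T^n`). (2) Claim: for every `n` and every `f` in the radical of `I`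
there is `h` with `h(p) ≠ 0`, `h f ∈ I ⊔ T^n`. `n = 0` is clear, `n = 1` is the hypothesis. `n → n + 1`, `n ≥ 1`: let
`h f = i + u`, `i ∈ I`, `u ∈ T^n`. The `D'_j (h f)` are in the radical of `I` (Rad), so there is `H`, `H(p) ≠ 0`, with
`H D'_j (h f) ∈ I ⊔ T^n` for all `j` (product of finitely many), so `H E (h f) ∈ I ⊔ T^(n+1)`. By (1)
`E (h f) - n Δ h f ∈ I ⊔ T^(n+1)` (`E i ∈ I`). So `H n Δ h f ∈ I ⊔ T^(n+1)`; divide by `n`. (3) Krl. -/
def St_Nil : Prop := ∀ (σ : Type) [Fintype σ] (I : Ideal (MvPolynomial σ ℂ)) (p : σ → ℂ) (r : ℕ)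
  (t : Fin r → MvPolynomial σ ℂ)
  (D : Fin r → Derivation ℂ (MvPolynomial σ ℂ) (MvPolynomial σ ℂ)), (∀ i, ∀ f ∈ I, D i f ∈ I) →
  (∀ i, MvPolynomial.eval p (t i) = 0) →
  (Matrix.of fun i j => MvPolynomial.eval p (D i (t j))).det ≠ 0 →
  (∀ f : MvPolynomial σ ℂ, (∃ m : ℕ, f ^ m ∈ I) →
    ∃ h, MvPolynomial.eval p h ≠ 0 ∧ h * f ∈ I ⊔ Ideal.span (Set.range t)) → RdI I p

/-- **Jac.** The adjoint action preserves the ideal.

Proof. `adD b u` maps the generator `k` to `∑ l, C (b.repr ⁅u, b l⁆ k) * (generator l)`: expand; the coefficients are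
compared by `⁅⁅u, b i⁆, b j⁆ + ⁅b i, ⁅u, b j⁆⁆ = ⁅u, ⁅b i, b j⁆⁆`. For a general element of the ideal use the product rule. -/
def St_Jac : Prop := ∀ (g : Type) [LieRing g] [LieAlgebra ℂ g] (ι : Type) [Fintype ι]
  (b : Module.Basis ι ℂ g) (u : g), ∀ f ∈ cI b, adD b u f ∈ cI b

/-- **Qtm.** The slice.

Proof. Let `T` be the ideal of the `X_(inl (inr j))`. Modulo `T` the generator `inr k` of `cI b` is `∑ j, N_(k j) X_(inr (inr j))`,
`N_(k j) = ∑ i, C (b.repr ⁅b (inl i), b (inr j)⁆ (inr k)) X_(inl (inl i))` (brackets of two elements of `l` have the coordinates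
`inr k` zero). So with `δ = det N` all `δ X_(inr (inr j))` are in `cI b ⊔ T` (adjugate), and `δ(x, y) ≠ 0` by the
hypothesis. Let `f^m ∈ cI b`. Let `f₀` be the polynomial in the variables `inl (inl i)`, `inr (inl i)` obtained by setting
the others to `0` (`ρ : MvPolynomial ((ι₁ ⊕ ι₂) ⊕ (ι₁ ⊕ ι₂)) ℂ → MvPolynomial (ι₁ ⊕ ι₁) ℂ`). `ρ` maps the generators `inl k` of
`cI b` to those of `cI b'` and the generators `inr k` to `0`. So `f₀^m ∈ cI b'` and `h₀ f₀ ∈ cI b'`, `h₀(x, y) ≠ 0`. Let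
`ε` be the inclusion of the polynomial rings (rename). `ε` maps the generator `k` of `cI b'` into
`cI b ⊔ T ⊔ (X_(inr (inr j)))_j` (it differs from the generator `inl k` of `cI b` by terms with a factor
`X_(inl (inr j))` or `X_(inr (inr j))`), and `f - ε f₀` is in the ideal of these variables. So `δ ε(h₀) f ∈ cI b ⊔ T`. -/
def St_Qtm : Prop := ∀ (g : Type) [LieRing g] [LieAlgebra ℂ g] (l : LieSubalgebra ℂ g)
  (ι₁ ι₂ : Type) [Fintype ι₁] [Fintype ι₂] [DecidableEq ι₂] (b : Module.Basis (ι₁ ⊕ ι₂) ℂ g)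
  (b' : Module.Basis ι₁ ℂ l), (∀ i, b (Sum.inl i) = (b' i : g)) →
  (∀ (u : l) (j : ι₂) (i : ι₁), b.repr ⁅(u : g), b (Sum.inr j)⁆ (Sum.inl i) = 0) →
  ∀ x y : l, (Matrix.of fun i j : ι₂ => b.repr ⁅(x : g), b (Sum.inr j)⁆ (Sum.inr i)).det ≠ 0 →
  RdL b' x y → ∀ f : MvPolynomial ((ι₁ ⊕ ι₂) ⊕ (ι₁ ⊕ ι₂)) ℂ, (∃ m : ℕ, f ^ m ∈ cI b) →
    ∃ h, MvPolynomial.eval (co b (x : g) (y : g)) h ≠ 0 ∧ h * f ∈ cI b ⊔ Ideal.span (Set.range
      fun j : ι₂ => (MvPolynomial.X (Sum.inl (Sum.inr j)) :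
        MvPolynomial ((ι₁ ⊕ ι₂) ⊕ (ι₁ ⊕ ι₂)) ℂ))

/-- **Lev.** Subalgebras of Levi type.

Proof. Choose a basis of `m` (indices `Fin r`); with `b'` it gives a basis `b₀` of `g` with the indices `ι' ⊕ Fin r`
(`Submodule.prodEquivOfIsCompl`). The matrix of `ad x` on `m` has determinant `≠ 0` (injective, finite
dimensional), which is the hypothesis of Qtm. Nil for `t j = X_(inl (inr j))`, `D j = adD b₀ (b₀ (inr j))` (Jac):
`eval (D j (t j')) = b₀.repr ⁅b₀ (inr j), x⁆ (inr j')`, the negative transposed matrix of `ad x` on `m`; `t j` vanishes at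
`(x, y)` as `x ∈ l`. So `RdL b₀ x y`; Iso (with the identity) for `b`. -/
def St_Lev : Prop := ∀ (g : Type) [LieRing g] [LieAlgebra ℂ g] (l : LieSubalgebra ℂ g)
  (m : Submodule ℂ g), IsCompl l.toSubmodule m → (∀ u ∈ l, ∀ v ∈ m, ⁅u, v⁆ ∈ m) →
  ∀ x y : l, (∀ v ∈ m, ⁅(x : g), v⁆ = 0 → v = 0) →
  ∀ (ι ι' : Type) [Fintype ι] [Fintype ι'] (b : Module.Basis ι ℂ g) (b' : Module.Basis ι' ℂ l),
  RdL b' x y → RdL b (x : g) (y : g)

/-! ### skew matrices over a ring -/

/-- **Cng.** Congruent matrices.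

Proof. The algebra homomorphism `φ` from `O[y_ι]` to `O[y_ι']` with `y_j ↦ ∑ C_(j j') y_j'` is an isomorphism (inverse by
`C'`). `φ` maps the entries of `M y` to those of `M C y`, and the entries of `Cᵀ M C y` and of `M C y` generate the same
ideal (`C'ᵀ Cᵀ = 1`). So `Pr M` is the preimage of `Pr (Cᵀ M C)` under `φ`. -/
def St_Cng : Prop := ∀ (O : Type) [CommRing O] (ι ι' : Type) [Fintype ι] [Fintype ι']
  [DecidableEq ι] [DecidableEq ι'] (M : Matrix ι ι O) (C : Matrix ι ι' O) (C' : Matrix ι' ι O),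
  C * C' = 1 → C' * C = 1 → (Pr (Cᵀ * M * C)).IsPrime → (Pr M).IsPrime

/-- **Blk.** Splitting off an invertible block.

Proof. Let `ψ : O[y_κ, y_τ] → O[y_τ]` set the first variables to `0`. `Pr (fromBlocks P 0 0 A)` is the preimage of `Pr A`:
`⊆` on generators; `⊇`: `F - ψ(F)` is in the ideal of the first variables, which is generated by the entries of `P y` (multiply
by the inverse of `P`), and the inclusion `O[y_τ] → O[y_κ, y_τ]` maps `Pr A` into `Pr (fromBlocks P 0 0 A)`. -/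
def St_Blk : Prop := ∀ (O : Type) [CommRing O] (κ τ : Type) [Fintype κ] [Fintype τ]
  [DecidableEq κ] (P : Matrix κ κ O) (A : Matrix τ τ O), IsUnit P.det → (Pr A).IsPrime →
  (Pr (Matrix.fromBlocks P 0 0 A)).IsPrime

/-- **Sch.** Schur complement.

Proof. `C = [1, -P⁻¹ Q; 0, 1]`, with the inverse `[1, P⁻¹ Q; 0, 1]`. `P⁻¹` is skew. `Cᵀ M C = fromBlocks P 0 0 (S + Qᵀ P⁻¹ Q)`.
Cng and Blk. -/
def St_Sch : Prop := ∀ (O : Type) [CommRing O] (κ τ : Type) [Fintype κ] [Fintype τ]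
  [DecidableEq κ] [DecidableEq τ] (P : Matrix κ κ O) (Q : Matrix κ τ O) (S : Matrix τ τ O),
  Pᵀ = -P → IsUnit P.det → (Pr (S + Qᵀ * P⁻¹ * Q)).IsPrime →
  (Pr (Matrix.fromBlocks P Q (-Qᵀ) S)).IsPrime

/-- **Rkm.** The rank of a matrix of polynomials.

Proof. Suppose that the rank over `K` is at least `ρ + 1`. Then there are `ρ + 1` linearly independent columns and, in the
submatrix of these, `ρ + 1` linearly independent rows, so a submatrix of size `ρ + 1` with nonzero determinant, the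
image of the determinant `δ` of the submatrix of `M`. So `δ ≠ 0`, and there is `s` with `δ(s) ≠ 0` (`ℂ` is infinite). The
submatrix of `M(s)` is invertible, so the rank of `M(s)` is at least `ρ + 1`. -/
def St_Rkm : Prop := ∀ (σ : Type) [Fintype σ] (ι : Type) [Fintype ι] [DecidableEq ι]
  (M : Matrix ι ι (MvPolynomial σ ℂ)) (ρ : ℕ),
  (∀ s : σ → ℂ, (M.map (MvPolynomial.eval s)).rank ≤ ρ) →
  ∀ (K : Type) [Field K] (f : MvPolynomial σ ℂ →+* K), Function.Injective f →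
  (M.map f).rank ≤ ρ

/-- **Pff.** Pfaffians.

Proof. Let `A = S + Qᵀ P⁻¹ Q`, a skew matrix. Over `K` the matrix is congruent to `fromBlocks P 0 0 A` (see Sch), so its
rank is `card κ + rank A`. First part: rank `A ≤ 2`. `A i i = 0` (`2 ≠ 0`). If two of `i, j, k, l` are equal the
Pfaffian is `0` by skew symmetry; otherwise its square is the determinant of the submatrix of size four, which is `0`.
Second part: rank `A = 0`. -/
def St_Pff : Prop := ∀ (O : Type) [CommRing O] [IsDomain O] [CharZero O] (κ τ : Type)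
  [Fintype κ] [Fintype τ] [DecidableEq κ] [DecidableEq τ] (P : Matrix κ κ O) (Q : Matrix κ τ O)
  (S : Matrix τ τ O), Pᵀ = -P → Sᵀ = -S → IsUnit P.det →
  ∀ (K : Type) [Field K] (f : O →+* K), Function.Injective f →
  (((Matrix.fromBlocks P Q (-Qᵀ) S).map f).rank ≤ Fintype.card κ + 2 →
    ∀ i j k l, pf (S + Qᵀ * P⁻¹ * Q) i j k l = 0) ∧
  (((Matrix.fromBlocks P Q (-Qᵀ) S).map f).rank ≤ Fintype.card κ → S + Qᵀ * P⁻¹ * Q = 0)

/-- **Nrm.** The normal form of a skew matrix of rank two.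

Proof. Let `a, b, c` be the entries `01`, `02`, `12` of the first block `B = Bm a b c`. For `k ∈ κ`, `pf` of `0, 1, 2, k` is
`a A_2k - b A_1k + c A_0k = 0`. So `c A_0k ∈ (a, b)`, `A_0k = a u₁ + b u₂`; then `a (A_2k + c u₁) = b (A_1k - c u₂)`, so
`A_1k - c u₂ = - a u₀` and `A_2k = - b u₀ - c u₁` (cancel `a`). So the first three entries of the column `k` are `B u_k`.
Let `U` be the matrix with the columns `u_k`, `C = [1, -U; 0, 1]`, `C' = [1, U; 0, 1]`. `Cᵀ A C` has the blocks `B`, `0`, `0`,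
and the entries `A_kl - u_kᵀ B u_l`. From `pf` of `0, 1, k, l`:
`a A_kl = A_0k A_1l - A_0l A_1k = a u_kᵀ B u_l` (insert the formulas), so these entries are `0`. -/
def St_Nrm : Prop := ∀ (O : Type) [CommRing O] [IsDomain O] (κ : Type) [Fintype κ] [DecidableEq κ]
  (A : Matrix (Fin 3 ⊕ κ) (Fin 3 ⊕ κ) O), Aᵀ = -A → (∀ i, A i i = 0) →
  (∀ i j k l, pf A i j k l = 0) →
  Rg3 (A (Sum.inl 0) (Sum.inl 1)) (A (Sum.inl 0) (Sum.inl 2)) (A (Sum.inl 1) (Sum.inl 2)) →
  ∃ C C' : Matrix (Fin 3 ⊕ κ) (Fin 3 ⊕ κ) O, C * C' = 1 ∧ C' * C = 1 ∧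
    Cᵀ * A * C = Matrix.fromBlocks (Bm (A (Sum.inl 0) (Sum.inl 1)) (A (Sum.inl 0) (Sum.inl 2))
      (A (Sum.inl 1) (Sum.inl 2))) 0 0 0

/-- **Ree.** The ideal of the maximal minors of a matrix with two rows and three columns.

Proof. Let `S = O[y]`, `J = Pr ..`, generated by `m₀ = a y₁ + b y₂`, `m₁ = - a y₀ + c y₂`, `m₂ = - b y₀ - c y₁`. The conditions `Rg3`
hold in `S` too (coefficientwise). (1) `a F ∈ J` implies `F ∈ J`: let `a F = λ₀ m₀ + λ₁ m₁ + λ₂ m₂`. Modulo `a`: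
`y₂ (b λ₀ + c λ₁) = λ₂ (b y₀ + c y₁)`. Modulo `a` and `y₂`, `b y₀ + c y₁` is not a zero divisor (a polynomial in `y₀` with the leading
coefficient `b`, not a zero divisor modulo `a`), so `λ₂ = y₂ μ + a ρ₂`. As `y₂` is not a zero divisor modulo `a`:
`b λ₀ + c λ₁ = μ (b y₀ + c y₁)` modulo `a`, `c (λ₁ - μ y₁) = - b (λ₀ - μ y₀)` modulo `a`, so `λ₁ - μ y₁ = b ν + a ρ₁` (`c` is not a
zero divisor modulo `a, b`) and `λ₀ - μ y₀ = - c ν + a ρ₀` (`b` is not one modulo `a`). Insert: `μ (y₀ m₀ + y₁ m₁ + y₂ m₂) = 0`,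
`ν (b m₁ - c m₀) = ν (- a b y₀ - a c y₁) = a ν m₂`. So `a F = a (ν m₂ + ρ₀ m₀ + ρ₁ m₁ + ρ₂ m₂)`, and `F ∈ J` (`a ≠ 0`). (2) Let
`θ : S → O[t, y_κ]` be the homomorphism `y₀ ↦ c t`, `y₁ ↦ - b t`, `y₂ ↦ a t`; it kills `J`. Let `θ F = 0`. There is a homomorphism `η`
from `O[t, y_κ]` to the localization of `S / J` at `a` with `t ↦ y₂ / a`, and `η (θ y_i) = y_i` (`a y₀ = c y₂`, `a y₁ = - b y₂` modulo
`J`). So `F` is `0` in this localization, `a^N F ∈ J`, `F ∈ J` by (1). So `J` is the kernel of `θ`, prime, as `O[t, y_κ]` is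
a domain. -/
def St_Ree : Prop := ∀ (O : Type) [CommRing O] [IsDomain O] (κ : Type) [Fintype κ]
  (a b c : O), Rg3 a b c →
  (Pr (Matrix.fromBlocks (Bm a b c) 0 0 0 : Matrix (Fin 3 ⊕ κ) (Fin 3 ⊕ κ) O)).IsPrime

/-- **MnB.** Minors.

Proof. In `O / 𝔞` the matrix `M` is `C'ᵀ fromBlocks P 0 0 0 C'`, a product of a matrix with `card κ` columns and one
with `card κ` rows; so its submatrices with `card κ + 1` rows and columns have determinant `0` (a square matrix which
factors through fewer columns: add zero columns and rows). -/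
def St_MnB : Prop := ∀ (O : Type) [CommRing O] (ι κ τ : Type) [Fintype ι] [Fintype κ] [Fintype τ]
  [DecidableEq ι] [DecidableEq κ] [DecidableEq τ] (M : Matrix ι ι O) (C : Matrix ι (κ ⊕ τ) O)
  (C' : Matrix (κ ⊕ τ) ι O) (P : Matrix κ κ O) (A : Matrix τ τ O) (𝔞 : Ideal O),
  C * C' = 1 → C' * C = 1 → Cᵀ * M * C = Matrix.fromBlocks P 0 0 A → (∀ i j, A i j ∈ 𝔞) →
  ∀ r c : Fin (Fintype.card κ + 1) → ι, (M.submatrix r c).det ∈ 𝔞

/-! ### regular sequences in the local ring -/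

/-- **Rgs.** Regular sequences and dimension.

Proof. `Oz z` is local, Noetherian, with the regular sequence `X_k - z_k` of length `card ι` in the maximal ideal
(translate to the origin, `ci_weak` and the lines after it in `Pool/Agent/ACV/CI.lean`). By the hypothesis and
`ringKrullDim_le_ringKrullDim_add_card` (one more element lowers the dimension by at most one)
`dim O / (a, b) + 2 ≤ card ι`, `dim O / (a) + 1 ≤ card ι`. The three claims are `Pool.Agent.ACV.St_CMl` (proved) for `t = 0`,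
`D = a`; `t = 1`, `f = a`, `D = b`; `t = 2`, `f = (a, b)`, `D = c`. -/
def St_Rgs : Prop := ∀ (ι : Type) [Fintype ι] (z : ι → ℂ) (a b c : Oz z),
  a ∈ IsLocalRing.maximalIdeal (Oz z) → b ∈ IsLocalRing.maximalIdeal (Oz z) →
  c ∈ IsLocalRing.maximalIdeal (Oz z) →
  ringKrullDim (Oz z ⧸ Ideal.span {a, b, c}) + ((3 : ℕ) : WithBot ℕ∞) ≤
    ((Fintype.card ι : ℕ) : WithBot ℕ∞) → Rg3 a b c

/-- **DmA.** Independent linear parts.

Proof. Extend `w` to a basis of `ι → ℂ`; let `ℓ_1, .., ℓ_N` be the corresponding linear forms in the `X_k - z_k`; they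
generate the maximal ideal `𝔪`. `𝔪 = (a, b, c, ℓ_4, .., ℓ_N) + 𝔪²`, so `𝔪 = (a, b, c, ℓ_4, .., ℓ_N)` (Nakayama). So
`O / (a, b, c)` modulo the `N - 3` elements `ℓ_4, .., ℓ_N` is a field, and its dimension is at most `N - 3`
(`ringKrullDim_le_ringKrullDim_add_card`). -/
def St_DmA : Prop := ∀ (ι : Type) [Fintype ι] (z : ι → ℂ) (a : Fin 3 → Oz z)
  (w : Fin 3 → ι → ℂ), LinearIndependent ℂ w →
  (∀ t, a t - jO z (∑ k, MvPolynomial.C (w t k) * (MvPolynomial.X k - MvPolynomial.C (z k))) ∈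
    IsLocalRing.maximalIdeal (Oz z) ^ 2) →
  (∀ t, a t ∈ IsLocalRing.maximalIdeal (Oz z)) ∧
  ringKrullDim (Oz z ⧸ Ideal.span {a 0, a 1, a 2}) + ((3 : ℕ) : WithBot ℕ∞) ≤
    ((Fintype.card ι : ℕ) : WithBot ℕ∞)

/-- **DmB.** An isolated point in a subspace of dimension three.

Proof. Let `ℓ_1, .., ℓ_(N-3)` be linear forms in the `X_k - z_k` with the zero set `z + E`. `dim O / (a, b, c)` is at most
`N - 3 + dim O / (a, b, c, ℓ)` (`ringKrullDim_le_ringKrullDim_add_card`). Let `Q` be a prime of `O` containing `a, b, c`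
and the `ℓ`, `q` its preimage in `ℂ[ι]`; `q ≤ mz z`. The zeros of `q` are in `z + E`, and the polynomials `h (X_k - z_k)` vanish
at them (if `h` is not `0` at the zero `z + s` then `s = 0` by the hypothesis). By the Nullstellensatz
`h (X_k - z_k) ∈ q`, `h ∉ q` as `h(z) ≠ 0`, so `X_k - z_k ∈ q` for all `k`, `q = mz z`, `Q` the maximal ideal. So the
dimension of `O / (a, b, c, ℓ)` is `0`. -/
def St_DmB : Prop := ∀ (ι : Type) [Fintype ι] (z : ι → ℂ) (a b c : Oz z)
  (E : Submodule ℂ (ι → ℂ)) (h : MvPolynomial ι ℂ), Module.finrank ℂ E = 3 →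
  MvPolynomial.eval z h ≠ 0 → a ∈ IsLocalRing.maximalIdeal (Oz z) →
  b ∈ IsLocalRing.maximalIdeal (Oz z) → c ∈ IsLocalRing.maximalIdeal (Oz z) →
  (∀ q : Ideal (MvPolynomial ι ℂ), q.IsPrime → q ≤ mz z →
    (∀ r, jO z r ∈ Ideal.span {a, b, c} → r ∈ q) →
    ∀ s ∈ E, (∀ r ∈ q, MvPolynomial.eval (z + s) r = 0) → MvPolynomial.eval (z + s) h ≠ 0 →
      s = 0) →
  ringKrullDim (Oz z ⧸ Ideal.span {a, b, c}) + ((3 : ℕ) : WithBot ℕ∞) ≤
    ((Fintype.card ι : ℕ) : WithBot ℕ∞)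

/-! ### the matrix of the form -/

/-- **Bss.** Adapted bases.

Proof. Extend `u` to a basis of `Z`, and this to a basis of `V`. -/
def St_Bss : Prop := ∀ (V : Type) [AddCommGroup V] [Module ℂ V] [FiniteDimensional ℂ V]
  (Z : Submodule ℂ V) (r : ℕ) (u : Fin r → V), (∀ i, u i ∈ Z) → LinearIndependent ℂ u →
  ∃ (κ₁ κ₂ : Type) (_ : Fintype κ₁) (_ : Fintype κ₂) (_ : DecidableEq κ₁) (_ : DecidableEq κ₂)
    (c : Module.Basis (κ₁ ⊕ (Fin r ⊕ κ₂)) ℂ V), (∀ i, c (Sum.inr (Sum.inl i)) = u i) ∧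
    (∀ j, c (Sum.inr j) ∈ Z) ∧ Fintype.card κ₁ + Module.finrank ℂ Z = Module.finrank ℂ V

/-- **MxP.** Properties of the matrix `Mx`.

Proof. (1) `∑ k, s_k b_k = s`. (2), (3): `κ ⁅s, v⁆ w = κ s ⁅v, w⁆` is skew in `v`, `w` and `0` for `v = w`. (4) Bilinearity. -/
def St_MxP : Prop := ∀ (g : Type) [LieRing g] [LieAlgebra ℂ g] (ι τ : Type) [Fintype ι]
  [Fintype τ] (κ : LinearMap.BilinForm ℂ g) (b : Module.Basis ι ℂ g) (v : τ → g), Inv κ →
  (∀ s i j, MvPolynomial.eval (b.repr s) (Mx κ b v i j) = κ ⁅s, v i⁆ (v j)) ∧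
  (Mx κ b v)ᵀ = -Mx κ b v ∧ (∀ i, Mx κ b v i i = 0) ∧
  Mx κ b v = (cof b v)ᵀ * Mx κ b b * cof b v

/-- **Rks.** The rank at a point.

Proof. The matrix at `s` is `κ ⁅s, b i⁆ (b j)` (MxP), the composition of the matrix of `ad s` and of the invertible
matrix of `κ`; the kernel of `ad s` is `cen s`. -/
def St_Rks : Prop := ∀ (g : Type) [LieRing g] [LieAlgebra ℂ g] (ι : Type) [Fintype ι]
  [DecidableEq ι] (κ : LinearMap.BilinForm ℂ g) (b : Module.Basis ι ℂ g), Inv κ → ∀ s : g,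
  ((Mx κ b b).map (MvPolynomial.eval (b.repr s))).rank + Module.finrank ℂ (cen s) =
    Fintype.card ι

/-- **PIn.** The invertible block.

Proof. Suppose that `w = ∑ a_j c_j` (`j` in `κ₁`) is such that `κ ⁅z, c i⁆ w = 0` for all `i ∈ κ₁`. This holds also for the
`c (inr j)`, as `⁅z, c (inr j)⁆ = 0`, so `κ ⁅z, v⁆ w = 0` for all `v`, so `κ v ⁅z, w⁆ = 0` for all `v` (up to the sign), `⁅z, w⁆ = 0`,
`w ∈ cen z`. The `c (inr j)` are linearly independent and as many as the dimension of `cen z`, so they span it, and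
`w` is in the span of the `c (inl i)` and of the `c (inr j)`: `w = 0`. -/
def St_PIn : Prop := ∀ (g : Type) [LieRing g] [LieAlgebra ℂ g] (κ₁ τ : Type) [Fintype κ₁]
  [Fintype τ] [DecidableEq κ₁] (κ : LinearMap.BilinForm ℂ g) (c : Module.Basis (κ₁ ⊕ τ) ℂ g)
  (z : g), Inv κ → (∀ j, c (Sum.inr j) ∈ cen z) →
  Fintype.card κ₁ + Module.finrank ℂ (cen z) = Module.finrank ℂ g →
  (Matrix.of fun i j : κ₁ => κ ⁅z, c (Sum.inl i)⁆ (c (Sum.inl j))).det ≠ 0

/-- **LfA.** Linear parts.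

Proof. (1) `κ ⁅b k, u⁆ v = κ (b k) ⁅u, v⁆`, and `∑ k, κ (b k) ⁅u, v⁆ z_k = κ z ⁅u, v⁆ = κ ⁅z, u⁆ v = 0` if `u ∈ cen z`. (2) A relation
between the three gives `κ (b k) (∑ t, a_t w_t) = 0` for all `k`. -/
def St_LfA : Prop := ∀ (g : Type) [LieRing g] [LieAlgebra ℂ g] (ι : Type) [Fintype ι]
  (κ : LinearMap.BilinForm ℂ g) (b : Module.Basis ι ℂ g) (z : g), Inv κ →
  (∀ u ∈ cen z, ∀ v : g, ∑ k : ι, MvPolynomial.C (κ ⁅b k, u⁆ v) * MvPolynomial.X k =
    ∑ k : ι, (MvPolynomial.C (κ (b k) ⁅u, v⁆) * (MvPolynomial.X k - MvPolynomial.C (b.repr z k)) :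
      MvPolynomial ι ℂ)) ∧
  ∀ w : Fin 3 → g, LinearIndependent ℂ w → LinearIndependent ℂ fun (t : Fin 3) (k : ι) =>
    κ (b k) (w t)

/-- **SAm.** The first condition.

Proof. `N = card ι`, `O = Oz (b.repr z)`, `K` its fraction field, `d = dim (cen z)`. `Mx κ b c` for a basis `c` is congruent to
`Mx κ b b` by a constant invertible matrix (MxP), so by Cng it is enough to treat `Mx κ b c`. First case (regular):
`c` from Bss with `r = 0`. The block `P` of the indices `κ₁` has a determinant which is not `0` at `z` (PIn), a unit of `O`. By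
Rks, Rkm the rank over `K` is at most `N - d = card κ₁`. So `S + Qᵀ P⁻¹ Q = 0` (Pff), `Pr 0 = ⊥` is prime, Sch. Second case: the `u, v, w`
are linearly independent (if `α u + β v + γ w = 0` then bracket with `u`, `v`, `w`); `c` from Bss with `r = 3`. Now
`card κ₁ = N - d` and the rank over `K` is at most `N - d + 2`, so by Pff the Pfaffians of `A = S + Qᵀ P⁻¹ Q` are `0`. The
entries of `Q` are in the maximal ideal (`κ ⁅z, c i⁆ c j = 0` for `c j ∈ cen z`), so `A - S` has entries in its square, and the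
entries of `S` are those of LfA. By LfA, DmA, Rgs the entries `01`, `02`, `12` of `A` satisfy `Rg3`. `A` is skew with
zero diagonal (`P⁻¹` is skew; `2` is invertible). Nrm, Ree, Cng: `Pr A` is prime; Sch. -/
def St_SAm : Prop := ∀ (g : Type) [LieRing g] [LieAlgebra ℂ g] (ι : Type) [Fintype ι]
  [DecidableEq ι] (κ : LinearMap.BilinForm ℂ g) (b : Module.Basis ι ℂ g), Inv κ → ∀ z : g,
  SubA z → (Pr ((Mx κ b b).map (jO (b.repr z)))).IsPrime

/-- **SBm.** The second condition.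

Proof. Notation as in SAm; `p i = vl b (P i)`, a polynomial map, `i < e`, `d = e + 3`. `M = Mx κ b b` over `O`. As polynomials
`∑ j, M_(i j) (P l)_j = 0`: the value at `s` is `κ ⁅s, b i⁆ (p l s) = - κ (b i) ⁅s, p l s⁆ = 0`. `p l z ∈ cen z`. Let `c` be a basis of
`g` from Bss for `r = e`, `u = (p l z)_l`; here `κ₂` has three elements (`d = e + 3`): identify `κ₂` with `Fin 3`. Let `C` be the
matrix over `O` with the columns `b.repr (c j)` for `j` in `κ₁` and in `κ₂`, and `P l` for `l < e`. At `z` it is the matrix of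
`c`, so it is invertible over `O`. `Cᵀ M C` has the block form `fromBlocks P₀ Q₀ (-Q₀ᵀ) S₀` on `κ₁ ⊕ (Fin 3 ⊕ Fin e)` where
the columns of `Q₀` and the rows and columns of `S₀` belonging to `Fin e` are `0`. `P₀` is invertible (PIn). So
`S₀ + Q₀ᵀ P₀⁻¹ Q₀ = fromBlocks (Bm a₁ a₂ a₃) 0 0 0` (skew, zero diagonal), `a_i` in the maximal ideal (the values at `z` are
`κ ⁅z, c i⁆ c j = 0`). The hypothesis of DmB for `E` (in coordinates: the image under `b.equivFun`) and `h`: let `q` be a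
prime as there, `s ∈ E` (as an element of `g`), all elements of `q` vanish at `z + s`. By MnB (after the congruence of Sch) all
minors of size `card κ₁ + 1` of `M` (over `O`) are in `(a₁, a₂, a₃)`, so these minors (polynomials) are in `q` and vanish
at `z + s`: the rank of `M(z + s)` is at most `card κ₁ = N - d`, and by Rks `dim (cen (z + s)) ≥ d`. So `s = 0` if
`h(z + s) ≠ 0`. DmB, Rgs: `Rg3 a₁ a₂ a₃`. Ree, Sch, Cng. -/
def St_SBm : Prop := ∀ (g : Type) [LieRing g] [LieAlgebra ℂ g] (ι : Type) [Fintype ι]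
  [DecidableEq ι] (κ : LinearMap.BilinForm ℂ g) (b : Module.Basis ι ℂ g), Inv κ → ∀ z : g,
  SubB b z → (Pr ((Mx κ b b).map (jO (b.repr z)))).IsPrime

/-- **Cle.** From the local ring to the commuting scheme.

Proof. Let `f^m ∈ cI b`. Let `Φ` be the homomorphism from `ℂ[x, y]` to `O[y]` (`X_(inl k) ↦ C (jO (X k))`, `X_(inr k) ↦ X k`), injective
(`ℂ[x]` is a domain and `O` its localization). Let `G_k` be the generators of `cI b`. The polynomials
`E_i = ∑ j, M_(i j) y_j`, `M = Mx κ b b`, are `κ ⁅x, b i⁆ y = - κ ⁅x, y⁆ (b i) = - ∑ k, κ (b k) (b i) G_k`, and `κ` is nondegenerate, so the `E_i`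
(as polynomials in `x`, `y`) and the `G_k` generate the same ideal. So `Φ (f)^m` is in `Pr (M)` over `O`, which is prime, and
`Φ f` is in it: `Φ f = ∑ c_i Φ E_i`, `c_i ∈ O[y]`. With a common denominator `s ∈ ℂ[x]`, `s(z) ≠ 0`, `s c_i = Φ c'_i`, so
`Φ (s f - ∑ c'_i E_i) = 0` and `s f ∈ cI b`. `h = rename inl s`. -/
def St_Cle : Prop := ∀ (g : Type) [LieRing g] [LieAlgebra ℂ g] (ι : Type) [Fintype ι]
  [DecidableEq ι] (κ : LinearMap.BilinForm ℂ g) (b : Module.Basis ι ℂ g), Inv κ → ∀ z y : g,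
  (Pr ((Mx κ b b).map (jO (b.repr z)))).IsPrime → RdL b z y

end Pool.Agent.ALV
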