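import Pool.Agent.ALV.St

/-!
# ALV, module Trp: transport of reducedness (proved by helper27)
-/

set_option autoImplicit false

noncomputable section

namespace Pool.Agent.ALV

open Matrix

theorem thm_Trp : St_Trp := by
  intro σ τ I J p q α β hαβ hJ hI hev hR f hf
  obtain ⟨m, hm⟩ := hf
  have h1 : β f ^ m ∈ J := by
    have h := hI hm
    rw [Ideal.mem_comap, map_pow] at h
    exact h
  obtain ⟨h, hq, hh⟩ := hR (β f) ⟨m, h1⟩
  refine ⟨α h, by rw [hev]; exact hq, ?_⟩
  have h2 : α h * α (β f) ∈ I := by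
    have h := hJ hh
    rw [Ideal.mem_comap, map_mul] at h
    exact h
  have h3 : α h * (α (β f) - f) ∈ I := Ideal.mul_mem_left _ _ (hαβ f)
  have h4 : α h * f = α h * α (β f) - α h * (α (β f) - f) := by ring
  rw [h4]
  exact Ideal.sub_mem _ h2 h3

end Pool.Agent.ALV
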